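import Pool.Agent.H39.SY.Defs
import Pool.Agent.H13.SM.Aff
import Pool.Agent.H13.SM.Dim

/-!
# Project SY, module ChartAt: charts at smooth points

The proof of `Pool.Agent.H13.SM.exists_coneChart`, with the hypothesis on the tangent space only at
the given point.
-/

open MvPolynomial Topology
open Pool.Agent.H17GT (coordFun)
open Pool.Agent.H17LG.Variety (FunField ratio)
open Pool.Agent.H5.DG (Homog)
open Pool.Agent.H13.SM (conTan pts)

noncomputable section

namespace Pool.Agent.H39.SY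

variable {N : ℕ} {P : Ideal (MvPolynomial (Fin (N + 1)) ℂ)}

private theorem ChartAt_aeval_mem [P.IsPrime] (hP : Homog P) {l : Fin (N + 1)} (h : coordFun P l ≠ 0)
    {Q : MvPolynomial (Fin (N + 1)) ℂ} (hQ : Q ∈ P) : aeval (fun i => ratio P i l) Q = 0 := by
  rw [← MvPolynomial.sum_homogeneousComponent Q, map_sum]
  refine Finset.sum_eq_zero fun d _ => ?_
  exact (Pool.Agent.H17R.gen_eq_zero_iff h (MvPolynomial.homogeneousComponent_isHomogeneous d Q)).2
    (hP Q hQ d)

private theorem ChartAt_eval_smul {Q : MvPolynomial (Fin (N + 1)) ℂ} {d : ℕ} (hQ : Q.IsHomogeneous d)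
    (c : ℂ) (y : Fin (N + 1) → ℂ) : eval (c • y) Q = c ^ d * eval y Q := by
  have h1 := Pool.Agent.H92.GT.Proj.aeval_scale hQ (c := c) (x := y)
  have h2 : ∀ z : Fin (N + 1) → ℂ, aeval z Q = eval z Q := fun z => by
    rw [MvPolynomial.aeval_eq_eval]
  rw [h2, h2] at h1
  exact h1

private theorem ChartAt_le (hP : Homog P) {c : ℂ} (hc : c ≠ 0) (x : Fin (N + 1) → ℂ) :
    conTan P x ≤ conTan P (c • x) := by
  intro v hv Q hQ
  have h1 : ∀ d, ∑ i, v i * eval (c • x) (pderiv i (homogeneousComponent d Q)) = 0 := by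
    intro d
    have h2 := hv _ (hP Q hQ d)
    have h3 : ∀ i, eval (c • x) (pderiv i (homogeneousComponent d Q)) =
        c ^ (d - 1) * eval x (pderiv i (homogeneousComponent d Q)) := fun i =>
      ChartAt_eval_smul ((homogeneousComponent_isHomogeneous d Q).pderiv) c x
    have h4 : ∑ i, v i * eval (c • x) (pderiv i (homogeneousComponent d Q)) =
        c ^ (d - 1) * ∑ i, v i * eval x (pderiv i (homogeneousComponent d Q)) := by
      rw [Finset.mul_sum]
      refine Finset.sum_congr rfl fun i _ => ?_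
      rw [h3]
      ring
    rw [h4, h2, mul_zero]
  have h5 : ∀ i, eval (c • x) (pderiv i Q) = ∑ d ∈ Finset.range (Q.totalDegree + 1),
      eval (c • x) (pderiv i (homogeneousComponent d Q)) := by
    intro i
    conv_lhs => rw [← sum_homogeneousComponent Q]
    rw [map_sum, map_sum]
  simp only [h5, Finset.mul_sum]
  rw [Finset.sum_comm]
  exact Finset.sum_eq_zero fun d _ => h1 d

theorem conTan_smul (hP : Homog P) {c : ℂ} (hc : c ≠ 0) (x : Fin (N + 1) → ℂ) :
    conTan P (c • x) = conTan P x := by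
  refine le_antisymm ?_ (ChartAt_le hP hc x)
  have h1 := ChartAt_le hP (inv_ne_zero hc) (c • x)
  rwa [inv_smul_smul₀ hc] at h1

/-- Charts at smooth points. -/
theorem exists_chartAt [P.IsPrime] (hP : Homog P) {n : ℕ}
    (hz : ∃ z : Fin n → FunField P, IsTranscendenceBasis ℂ z)
    {x : Fin (N + 1) → ℂ} (hx : x ∈ Zer P) (hsm : Module.finrank ℂ (conTan P x) ≤ n + 1)
    {l : Fin (N + 1)} (hl : x l ≠ 0) :
    ∃ (J : Fin n → Fin (N + 1)) (σ : (Fin n → ℂ) → Fin (N + 1) → ℂ), Chart P x l J σ := by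
  obtain ⟨z, hz⟩ := hz
  have hXl : (X l : MvPolynomial (Fin (N + 1)) ℂ) ∉ P := by
    intro h
    have h1 := hx _ h
    rw [eval_X] at h1
    exact hl h1
  have hcf : coordFun P l ≠ 0 := Pool.Agent.H17R.coordFun_ne_zero_iff.2 hXl
  obtain ⟨w, hw⟩ : ∃ w : Fin (N + 1) → ℂ, w = (x l)⁻¹ • x := ⟨_, rfl⟩
  have hwP : ∀ Q ∈ P, eval w Q = 0 := by
    rw [hw]
    exact Pool.Agent.H13.SM.cone_smul hP hx _
  have hwl : w l = 1 := by
    rw [hw, Pi.smul_apply, smul_eq_mul, inv_mul_cancel₀ hl]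
  have hwk : ∀ i, x l * w i = x i := by
    intro i
    rw [hw, Pi.smul_apply, smul_eq_mul, mul_inv_cancel_left₀ hl]
  have hwx : x l • w = x := by
    rw [hw, smul_inv_smul₀ hl]
  have hwp : w ∈ pts (fun i => ratio P i l) := (Pool.Agent.H13.SM.mem_pts_iff hP hcf).2 ⟨hwl, hwP⟩
  have hsmw : Module.finrank ℂ (conTan P w) ≤ n + 1 := by
    rw [hw, conTan_smul hP (inv_ne_zero hl)]
    exact hsm
  obtain ⟨f, hf, hli⟩ := Pool.Agent.H13.SM.exists_indep hsmw
  have hli' := Pool.Agent.H13.SM.indep_snoc hP hwP hwl hf hli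
  have hnN : n ≤ N := Pool.Agent.H13.SM.trdeg_le hcf hz
  have hf' : ∀ j, aeval (fun i => ratio P i l)
      ((Fin.snoc f (X l - 1) : Fin (N - n + 1) → MvPolynomial (Fin (N + 1)) ℂ) j) = 0 := by
    intro j
    refine Fin.lastCases ?_ (fun j => ?_) j
    · rw [Fin.snoc_last, map_sub, aeval_X, map_one, Pool.Agent.H17R.ratio_self hcf, sub_self]
    · rw [Fin.snoc_castSucc]
      exact ChartAt_aeval_mem hP hcf (hf j)
  obtain ⟨I, τ, hτa, hτ0, hτ1, hτ2, hτ3⟩ := Pool.Agent.H13.SM.exists_chart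
    (Pool.Agent.H17R.adjoin_ratio hcf) hz (c := N - n + 1) (by rw [Fintype.card_fin]; omega)
    hf' hwp hli'
  refine ⟨I, fun u => x l • τ u, hl, ?_, ?_, ?_, ?_, ?_⟩
  · exact (analyticAt_const (v := x l)).smul hτa
  · simp only [hτ0]
    exact hwx
  · filter_upwards [hτ1] with u hu
    obtain ⟨h1, h2⟩ := hu
    obtain ⟨h3, h4⟩ := (Pool.Agent.H13.SM.mem_pts_iff hP hcf).1 h1
    refine ⟨Pool.Agent.H13.SM.cone_smul hP h4 _, ?_, fun k => ?_⟩
    · rw [Pi.smul_apply, smul_eq_mul, h3, mul_one]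
    · rw [Pi.smul_apply, smul_eq_mul, h2 k, mul_add, hwk]
  · have hc : ContinuousAt (fun y : Fin (N + 1) → ℂ => (y l)⁻¹ • y) x := by
      have h1 : ContinuousAt (fun y : Fin (N + 1) → ℂ => y l) x :=
        (continuous_apply l).continuousAt
      exact (h1.inv₀ hl).smul continuousAt_id
    have hc' : Filter.Tendsto (fun y : Fin (N + 1) → ℂ => (y l)⁻¹ • y) (𝓝 x) (𝓝 w) := by
      rw [hw]
      exact hc
    have hne : ∀ᶠ y in 𝓝 x, (y : Fin (N + 1) → ℂ) l ≠ 0 :=
      (continuous_apply l).continuousAt.eventually_ne hl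
    filter_upwards [hc'.eventually hτ2, hne] with y hy hyl hyP
    have h1 : (y l)⁻¹ • y ∈ pts (fun i => ratio P i l) := by
      rw [Pool.Agent.H13.SM.mem_pts_iff hP hcf]
      refine ⟨?_, Pool.Agent.H13.SM.cone_smul hP hyP _⟩
      rw [Pi.smul_apply, smul_eq_mul, inv_mul_cancel₀ hyl]
    have h2 := hy h1
    have h3 : (fun k => ((y l)⁻¹ • y) (I k) - w (I k)) =
        fun k => y (I k) / y l - x (I k) / x l := by
      funext k
      rw [hw, Pi.smul_apply, Pi.smul_apply, smul_eq_mul, smul_eq_mul, div_eq_inv_mul,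
        div_eq_inv_mul]
    rw [h3] at h2
    rw [← h2, smul_smul, smul_smul]
    have h4 : y l / x l * x l * (y l)⁻¹ = 1 := by
      field_simp
    rw [h4, one_smul]
  · intro d Q hQ hQP hev
    have h1 : aeval (fun i => ratio P i l) Q ≠ 0 := fun h =>
      hQP ((Pool.Agent.H17R.gen_eq_zero_iff hcf hQ).1 h)
    refine hτ3 Q h1 ?_
    filter_upwards [hev] with u hu
    rw [ChartAt_eval_smul hQ] at hu
    exact (mul_eq_zero.1 hu).resolve_left (pow_ne_zero _ hl)

end Pool.Agent.H39.SY
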