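import Pool.Agent.H39.SY.Defs

/-!
# Project SY, module Aff: the affine expression of a morphism

`A ∈ I` is zero on `Zer I`.  `aff_mem`: `aeval_mem_of_maps` (module `DG3.Into`; `variety I \ ∅` is not
empty: the class of `x`), `eval_aeval`, and `P` is homogeneous (`Pool.Agent.H13.SM.cone_smul` with the
factor `(eval x (F α b))⁻¹`).  `aff_eq`, `base_ne`: `compat`.  `aff_smul`: homogeneity (`hom`).
`exists_tuple`: `base` at the class of `x`, whose `rep` is a multiple of `x`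
(`Pool.Agent.H17.vanishesAt_mk_iff`).  `aff_iff`: `morph_mk` (module `DG3.Points`),
`Projectivization.mk_eq_mk_iff'`, the coordinate `b`.
-/

open MvPolynomial
open Pool.Agent.H17 (PN VanishesAt)
open Pool.Agent.H5.DG (Homog variety)
open Pool.Agent.H5.DG3

noncomputable section

namespace Pool.Agent.H39.SY

variable {N M m s q : ℕ} {P : Ideal (MvPolynomial (Fin (M + 1)) ℂ)}
  {G : Fin m → MvPolynomial (Fin (M + 1)) ℂ} {I : Ideal (MvPolynomial (Fin (N + 1)) ℂ)}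
  {F : Fin s → Fin (M + 1) → MvPolynomial (Fin (N + 1)) ℂ}

private theorem Aff_eq_smul {A : Fin (M + 1) → MvPolynomial (Fin (N + 1)) ℂ}
    (x : Fin (N + 1) → ℂ) (b : Fin (M + 1)) :
    aff A b x = (eval x (A b))⁻¹ • (fun a => eval x (A a)) := by
  funext a
  simp only [aff, Pi.smul_apply, smul_eq_mul, div_eq_inv_mul]

private theorem Aff_eval_smul {L e : ℕ} {Q : MvPolynomial (Fin (L + 1)) ℂ} (hQ : Q.IsHomogeneous e)
    (c : ℂ) (v : Fin (L + 1) → ℂ) : eval (c • v) Q = c ^ e * eval v Q :=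
  Pool.Agent.H17.eval_smul_of_isHomogeneous hQ c v

private theorem Aff_mk_mem {x : Fin (N + 1) → ℂ} (hx : x ∈ Zer I) (hx0 : x ≠ 0) :
    (Projectivization.mk ℂ x hx0 : PN N) ∈ variety I \ ∅ :=
  ⟨fun Q hQ _ hk => (Pool.Agent.H17.vanishesAt_mk_iff hk x hx0).2 (hx Q hQ), fun h => h⟩

private theorem Aff_compat (h : RamifiedMorphism q P G I ∅ ∅ F) {x : Fin (N + 1) → ℂ}
    (hx : x ∈ Zer I) (α β : Fin s) (a b : Fin (M + 1)) :
    eval x (F α a) * eval x (F β b) = eval x (F α b) * eval x (F β a) := by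
  have h1 := hx _ (h.morphism.compat α β a b)
  rw [map_sub, map_mul, map_mul] at h1
  exact sub_eq_zero.1 h1

theorem aff_mem [I.IsPrime] (hP : Homog P) (h : RamifiedMorphism q P G I ∅ ∅ F)
    {x : Fin (N + 1) → ℂ} (hx : x ∈ Zer I) (hx0 : x ≠ 0) {α : Fin s} {b : Fin (M + 1)}
    (hb : eval x (F α b) ≠ 0) : aff (F α) b x ∈ Zer P := by
  have h1 : ∀ Q ∈ P, eval (fun a => eval x (F α a)) Q = 0 := by
    intro Q hQ
    rw [← Pool.Agent.H5.DG.eval_aeval]
    exact hx _ (aeval_mem_of_maps hP h.homog h.closedB ⟨_, Aff_mk_mem hx hx0⟩ h.morphism h.maps α hQ)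
  rw [Aff_eq_smul]
  exact Pool.Agent.H13.SM.cone_smul hP h1 _

theorem aff_self {A : Fin (M + 1) → MvPolynomial (Fin (N + 1)) ℂ} {x : Fin (N + 1) → ℂ}
    {b : Fin (M + 1)} (hb : eval x (A b) ≠ 0) : aff A b x b = 1 :=
  div_self hb

theorem aff_eq (h : RamifiedMorphism q P G I ∅ ∅ F) {x : Fin (N + 1) → ℂ} (hx : x ∈ Zer I)
    {α β : Fin s} {b : Fin (M + 1)} (hb : eval x (F α b) ≠ 0) (hb' : eval x (F β b) ≠ 0) :
    aff (F α) b x = aff (F β) b x := by
  funext a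
  show eval x (F α a) / eval x (F α b) = eval x (F β a) / eval x (F β b)
  rw [div_eq_div_iff hb hb', Aff_compat h hx α β a b, mul_comm]

theorem base_ne (h : RamifiedMorphism q P G I ∅ ∅ F) {x : Fin (N + 1) → ℂ} (hx : x ∈ Zer I)
    {α β : Fin s} {a b : Fin (M + 1)} (hb : eval x (F α b) ≠ 0) (ha : eval x (F β a) ≠ 0) :
    eval x (F β b) ≠ 0 := by
  intro h0
  have h1 := Aff_compat h hx α β a b
  rw [h0, mul_zero] at h1
  exact mul_ne_zero hb ha h1.symm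

theorem aff_smul (h : RamifiedMorphism q P G I ∅ ∅ F) {c : ℂ} (hc : c ≠ 0)
    (x : Fin (N + 1) → ℂ) (α : Fin s) (b : Fin (M + 1)) :
    aff (F α) b (c • x) = aff (F α) b x := by
  obtain ⟨e, he⟩ := h.morphism.hom α
  funext a
  show eval (c • x) (F α a) / eval (c • x) (F α b) = eval x (F α a) / eval x (F α b)
  rw [Aff_eval_smul (he a), Aff_eval_smul (he b),
    mul_div_mul_left _ _ (pow_ne_zero e hc)]

theorem eval_smul_ne (h : RamifiedMorphism q P G I ∅ ∅ F) {c : ℂ} (hc : c ≠ 0)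
    (x : Fin (N + 1) → ℂ) (α : Fin s) (b : Fin (M + 1)) :
    eval (c • x) (F α b) ≠ 0 ↔ eval x (F α b) ≠ 0 := by
  obtain ⟨e, he⟩ := h.morphism.hom α
  rw [Aff_eval_smul (he b)]
  exact ⟨fun h1 h2 => h1 (by rw [h2, mul_zero]), fun h1 => mul_ne_zero (pow_ne_zero e hc) h1⟩

theorem exists_tuple (h : RamifiedMorphism q P G I ∅ ∅ F) {x : Fin (N + 1) → ℂ} (hx : x ∈ Zer I)
    (hx0 : x ≠ 0) : ∃ α a, eval x (F α a) ≠ 0 := by
  obtain ⟨α, a, ha⟩ := h.morphism.base _ (Aff_mk_mem hx hx0)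
  obtain ⟨e, he⟩ := h.morphism.hom α
  exact ⟨α, a, fun h0 => ha ((Pool.Agent.H17.vanishesAt_mk_iff (he a) x hx0).2 h0)⟩

/-- The forms `G` at the affine values. -/
theorem eval_aff {g : MvPolynomial (Fin (M + 1)) ℂ} {d : ℕ} (hg : g.IsHomogeneous d)
    {A : Fin (M + 1) → MvPolynomial (Fin (N + 1)) ℂ} {x : Fin (N + 1) → ℂ} {b : Fin (M + 1)}
    (hb : eval x (A b) ≠ 0) :
    eval (aff A b x) g = (eval x (A b))⁻¹ ^ d * eval x (aeval A g) := by
  rw [Aff_eq_smul, Aff_eval_smul hg, Pool.Agent.H5.DG.eval_aeval]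

end Pool.Agent.H39.SY
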