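import Pool.Agent.H39.SY.Aff
import Pool.Agent.H39.SY.ChartAt

/-!
# Project SY, module Cover3: finitely many charts over a neighbourhood of a point

`S = {x ∈ Zer I | ‖x‖ = 1}` is compact.  Every `x ∈ S` has an open neighbourhood `O x` and there are
either a piece `W` with: if `x' ∈ O x ∩ Zer I`, `eval x' (F β b) ≠ 0`, `aff (F β) b x' = y'` then
`y' = W u` for some `u ∈ U W`; or a neighbourhood `V x` of `y` with: if `x' ∈ O x ∩ Zer I`,
`eval x' (F β b) ≠ 0` then `aff (F β) b x' ∉ V x`.  PROOF.  (A) If `eval x (F α b) ≠ 0` and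
`aff (F α) b x = y`: a chart `σ` at `x` (`exists_chart`, `x l ≠ 0`), `W = fun u => aff (F α) b (σ u)`;
for `x' ∈ Zer I` near `x` the vector `u = fun k => x' (J k) / x' l - x (J k) / x l` is near `0`, so in
`U W`, and `x' = (x' l / x l) • σ u` (`near`), `aff (F β) b x' = aff (F α) b x' = W u` (`aff_eq`,
`aff_smul`).  (B) If `eval x (F α b) ≠ 0` and `aff (F α) b x ≠ y` use the continuity of `aff (F α) b`
at `x` and two disjoint neighbourhoods.  (C) If `eval x (F β b) = 0` for all `β`: take `α`, `a` with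
`eval x (F α a) ≠ 0` (`exists_tuple`); near `x` one has `‖eval x' (F α b)‖ * (‖y‖ + 1) <
‖eval x' (F α a)‖`, so (`base_ne`, `aff_eq`) `‖aff (F β) b x' a‖ > ‖y‖ + 1`, not in the ball of radius
`1` around `y`.  Finitely many `O x` cover `S` (`IsCompact.elim_nhds_subcover`).  If `y'` is near `y`
(in all `V x`), `y' ∈ Zer P`, `y' b = 1` take `x'` with `aff (F β) b x' = y'` (`hsurj`), divided by its
norm (`aff_smul`).
-/

open MvPolynomial Filter Topology
open Pool.Agent.H17LG.Variety (FunField)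
open Pool.Agent.H5.DG (Homog)
open Pool.Agent.H5.DG3

noncomputable section

namespace Pool.Agent.H39.SY

variable {N M m s q n : ℕ} {P : Ideal (MvPolynomial (Fin (M + 1)) ℂ)}
  {G : Fin m → MvPolynomial (Fin (M + 1)) ℂ} {I : Ideal (MvPolynomial (Fin (N + 1)) ℂ)}
  [I.IsPrime] {F : Fin s → Fin (M + 1) → MvPolynomial (Fin (N + 1)) ℂ}

private theorem Cover3_aff_cont {A : Fin (M + 1) → MvPolynomial (Fin (N + 1)) ℂ} {b : Fin (M + 1)}
    {x : Fin (N + 1) → ℂ} (hb : eval x (A b) ≠ 0) : ContinuousAt (aff A b) x := by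
  refine continuousAt_pi.2 fun a => ?_
  have h1 : ContinuousAt (fun z : Fin (N + 1) → ℂ => eval z (A a)) x :=
    (MvPolynomial.continuous_eval (A a)).continuousAt
  have h2 : ContinuousAt (fun z : Fin (N + 1) → ℂ => eval z (A b)) x :=
    (MvPolynomial.continuous_eval (A b)).continuousAt
  exact h1.div h2 hb

private theorem Cover3_ev_ne {Q : MvPolynomial (Fin (N + 1)) ℂ} {x : Fin (N + 1) → ℂ}
    (hb : eval x Q ≠ 0) : ∀ᶠ z in 𝓝 x, eval z Q ≠ 0 :=
  (MvPolynomial.continuous_eval Q).continuousAt.eventually_ne hb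

/-- the local statement -/
private theorem Cover3_local (h : RamifiedMorphism q P G I ∅ ∅ F)
    (hz : ∃ z : Fin n → FunField I, IsTranscendenceBasis ℂ z)
    {b : Fin (M + 1)} {y : Fin (M + 1) → ℂ}
    (hsm : ∀ x ∈ Zer I, x ≠ 0 → ∀ α, eval x (F α b) ≠ 0 → aff (F α) b x = y →
      Module.finrank ℂ (Pool.Agent.H13.SM.conTan I x) ≤ n + 1)
    (U : ((Fin n → ℂ) → Fin (M + 1) → ℂ) → Set (Fin n → ℂ))
    (hU : ∀ W, IsPiece I F b y W → U W ∈ 𝓝 (0 : Fin n → ℂ)) {x : Fin (N + 1) → ℂ} (hx : x ∈ Zer I)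
    (hx0 : x ≠ 0) :
    ∃ L : List ((Fin n → ℂ) → Fin (M + 1) → ℂ), (∀ W ∈ L, IsPiece I F b y W) ∧ ∃ V ∈ 𝓝 y,
      ∀ᶠ x' in 𝓝 x, x' ∈ Zer I → ∀ β, eval x' (F β b) ≠ 0 → aff (F β) b x' ∈ V →
        ∃ W ∈ L, ∃ u ∈ U W, W u = aff (F β) b x' := by
  by_cases hex : ∃ α, eval x (F α b) ≠ 0
  · obtain ⟨α, hα⟩ := hex
    by_cases hy : aff (F α) b x = y
    · obtain ⟨l, hl⟩ : ∃ l, x l ≠ 0 := by
        by_contra hc
        push Not at hc
        exact hx0 (funext hc)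
      obtain ⟨J, σ, hσ⟩ := exists_chartAt h.homog hz hx (hsm x hx hx0 α hα hy) hl
      have hp : IsPiece I F b y (fun u : Fin n → ℂ => aff (F α) b (σ u)) :=
        ⟨x, l, J, σ, α, hσ, hα, rfl, by
          show aff (F α) b (σ 0) = y
          rw [hσ.zero]
          exact hy⟩
      refine ⟨[fun u : Fin n → ℂ => aff (F α) b (σ u)], ?_, Set.univ, Filter.univ_mem, ?_⟩
      · intro W hW
        rw [List.mem_singleton] at hW
        rw [hW]
        exact hp
      · have hg : ContinuousAt (fun z : Fin (N + 1) → ℂ => fun k => z (J k) / z l - x (J k) / x l) x := by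
          refine continuousAt_pi.2 fun k => ?_
          have c1 : ContinuousAt (fun z : Fin (N + 1) → ℂ => z (J k)) x := (continuous_apply _).continuousAt
          have c2 : ContinuousAt (fun z : Fin (N + 1) → ℂ => z l) x := (continuous_apply _).continuousAt
          exact (c1.div c2 hl).sub continuousAt_const
        have hg0 : (fun k => x (J k) / x l - x (J k) / x l) = (0 : Fin n → ℂ) := by
          funext k
          rw [sub_self]
          rfl
        have hUx : ∀ᶠ z in 𝓝 x, (fun k => z (J k) / z l - x (J k) / x l) ∈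
            U (fun u : Fin n → ℂ => aff (F α) b (σ u)) := by
          apply hg.eventually
          show U (fun u : Fin n → ℂ => aff (F α) b (σ u)) ∈ 𝓝 (fun k => x (J k) / x l - x (J k) / x l)
          rw [hg0]
          exact hU _ hp
        have hlx : ∀ᶠ z : Fin (N + 1) → ℂ in 𝓝 x, z l ≠ 0 :=
          (continuous_apply l).continuousAt.eventually_ne hl
        filter_upwards [hUx, hlx, hσ.near, Cover3_ev_ne hα] with z hz1 hz2 hz3 hz4 hzI β hβ _
        refine ⟨_, List.mem_singleton.2 rfl, _, hz1, ?_⟩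
        show aff (F α) b (σ (fun k => z (J k) / z l - x (J k) / x l)) = aff (F β) b z
        have e1 : aff (F β) b z = aff (F α) b z := aff_eq h hzI hβ hz4
        have hc : z l / x l ≠ 0 := div_ne_zero hz2 hl
        rw [e1, ← aff_smul h hc (σ (fun k => z (J k) / z l - x (J k) / x l)) α b, ← hz3 hzI]
    · obtain ⟨V1, V, hV1, hV, hd⟩ := t2_separation_nhds hy
      refine ⟨[], fun W hW => absurd hW List.not_mem_nil, V, hV, ?_⟩
      filter_upwards [(Cover3_aff_cont hα).eventually hV1, Cover3_ev_ne hα] with z hz1 hz2 hzI β hβ hzV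
      exfalso
      rw [aff_eq h hzI hβ hz2] at hzV
      exact (Set.disjoint_left.1 hd hz1) hzV
  · push Not at hex
    obtain ⟨α, a, ha⟩ := exists_tuple h hx hx0
    refine ⟨[], fun W hW => absurd hW List.not_mem_nil, Metric.ball y 1, Metric.ball_mem_nhds y one_pos, ?_⟩
    have c1 : ContinuousAt (fun z : Fin (N + 1) → ℂ => ‖eval z (F α b)‖ * (‖y‖ + 1)) x :=
      ((MvPolynomial.continuous_eval (F α b)).norm.mul continuous_const).continuousAt
    have c2 : ContinuousAt (fun z : Fin (N + 1) → ℂ => ‖eval z (F α a)‖) x :=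
      (MvPolynomial.continuous_eval (F α a)).norm.continuousAt
    have hlt : ‖eval x (F α b)‖ * (‖y‖ + 1) < ‖eval x (F α a)‖ := by
      rw [hex α, norm_zero, zero_mul]
      exact norm_pos_iff.2 ha
    filter_upwards [c1.eventually_lt c2 hlt] with z hz1 hzI β hβ hzV
    exfalso
    have hza : eval z (F α a) ≠ 0 := by
      intro h0
      rw [h0, norm_zero] at hz1
      have : 0 ≤ ‖eval z (F α b)‖ * (‖y‖ + 1) := by positivity
      linarith
    have hzb : eval z (F α b) ≠ 0 := base_ne h hzI hβ hza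
    rw [aff_eq h hzI hβ hzb, Metric.mem_ball, dist_eq_norm] at hzV
    have h1 : ‖aff (F α) b z‖ < ‖y‖ + 1 := by
      have := norm_sub_norm_le (aff (F α) b z) y
      linarith
    have h2 : ‖aff (F α) b z a‖ ≤ ‖aff (F α) b z‖ := norm_le_pi_norm _ a
    have h3 : ‖aff (F α) b z a‖ = ‖eval z (F α a)‖ / ‖eval z (F α b)‖ := by
      show ‖eval z (F α a) / eval z (F α b)‖ = _
      rw [norm_div]
    have h4 : 0 < ‖eval z (F α b)‖ := norm_pos_iff.2 hzb
    have h5 : ‖y‖ + 1 < ‖eval z (F α a)‖ / ‖eval z (F α b)‖ := by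
      rw [lt_div_iff₀ h4]
      linarith [mul_comm (‖eval z (F α b)‖) (‖y‖ + 1)]
    linarith

theorem exists_cover3 (h : RamifiedMorphism q P G I ∅ ∅ F)
    (hz : ∃ z : Fin n → FunField I, IsTranscendenceBasis ℂ z)
    {b : Fin (M + 1)} {y : Fin (M + 1) → ℂ}
    (hsm : ∀ x ∈ Zer I, x ≠ 0 → ∀ α, eval x (F α b) ≠ 0 → aff (F α) b x = y →
      Module.finrank ℂ (Pool.Agent.H13.SM.conTan I x) ≤ n + 1)
    (hsurj : ∀ y' ∈ Zer P, y' b = 1 →
      ∃ x ∈ Zer I, x ≠ 0 ∧ ∃ α, eval x (F α b) ≠ 0 ∧ aff (F α) b x = y')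
    (U : ((Fin n → ℂ) → Fin (M + 1) → ℂ) → Set (Fin n → ℂ))
    (hU : ∀ W, IsPiece I F b y W → U W ∈ 𝓝 (0 : Fin n → ℂ)) :
    ∃ (k : ℕ) (W : Fin k → (Fin n → ℂ) → Fin (M + 1) → ℂ), (∀ i, IsPiece I F b y (W i)) ∧
      ∀ᶠ y' in 𝓝 y, y' ∈ Zer P → y' b = 1 → ∃ i, ∃ u ∈ U (W i), W i u = y' := by
  have hcl : IsClosed (Zer I) := by
    have : Zer I = ⋂ Q ∈ I, {x | eval x Q = 0} := by
      ext x
      simp [Zer]
    rw [this]
    exact isClosed_biInter fun Q _ => isClosed_eq (MvPolynomial.continuous_eval Q) continuous_const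
  have hS : IsCompact (Zer I ∩ Metric.sphere 0 1) :=
    (isCompact_sphere 0 1).inter_left hcl
  have key : ∃ L : List ((Fin n → ℂ) → Fin (M + 1) → ℂ), (∀ W ∈ L, IsPiece I F b y W) ∧ ∃ V ∈ 𝓝 y,
      ∀ x' ∈ Zer I ∩ Metric.sphere 0 1, x' ∈ Zer I → ∀ β, eval x' (F β b) ≠ 0 → aff (F β) b x' ∈ V →
        ∃ W ∈ L, ∃ u ∈ U W, W u = aff (F β) b x' := by
    refine hS.induction_on (p := fun T => ∃ L : List ((Fin n → ℂ) → Fin (M + 1) → ℂ),
      (∀ W ∈ L, IsPiece I F b y W) ∧ ∃ V ∈ 𝓝 y,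
      ∀ x' ∈ T, x' ∈ Zer I → ∀ β, eval x' (F β b) ≠ 0 → aff (F β) b x' ∈ V →
        ∃ W ∈ L, ∃ u ∈ U W, W u = aff (F β) b x') ?_ ?_ ?_ ?_
    · exact ⟨[], fun W hW => absurd hW List.not_mem_nil, Set.univ, Filter.univ_mem,
        fun x' hx' => absurd hx' (Set.notMem_empty x')⟩
    · rintro T T' hTT ⟨L, hL, V, hV, hh⟩
      exact ⟨L, hL, V, hV, fun x' hx' => hh x' (hTT hx')⟩
    · rintro T T' ⟨L, hL, V, hV, hh⟩ ⟨L', hL', V', hV', hh'⟩
      refine ⟨L ++ L', ?_, V ∩ V', Filter.inter_mem hV hV', ?_⟩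
      · intro W hW
        rcases List.mem_append.1 hW with h1 | h1
        · exact hL W h1
        · exact hL' W h1
      · intro x' hx' hI β hβ hv
        rcases hx' with h1 | h1
        · obtain ⟨W, hW, hu⟩ := hh x' h1 hI β hβ hv.1
          exact ⟨W, List.mem_append.2 (Or.inl hW), hu⟩
        · obtain ⟨W, hW, hu⟩ := hh' x' h1 hI β hβ hv.2
          exact ⟨W, List.mem_append.2 (Or.inr hW), hu⟩
    · rintro x ⟨hxI, hx1⟩
      have hx0 : x ≠ 0 := by
        rintro rfl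
        rw [mem_sphere_zero_iff_norm, norm_zero] at hx1
        exact zero_ne_one hx1
      obtain ⟨L, hL, V, hV, hh⟩ := Cover3_local h hz hsm U hU hxI hx0
      exact ⟨_, mem_nhdsWithin_of_mem_nhds hh, L, hL, V, hV, fun x' hx' => hx'⟩
  obtain ⟨L, hL, V, hV, hh⟩ := key
  refine ⟨L.length, fun i => L.get i, fun i => hL _ (List.get_mem L i), ?_⟩
  filter_upwards [hV] with y' hy' hyP hyb
  obtain ⟨x, hxI, hx0, α, hα, hxy⟩ := hsurj y' hyP hyb
  have hn : ‖x‖ ≠ 0 := norm_ne_zero_iff.2 hx0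
  have hc : ((‖x‖ : ℝ) : ℂ)⁻¹ ≠ 0 := inv_ne_zero (by exact_mod_cast hn)
  have h1 : ((‖x‖ : ℝ) : ℂ)⁻¹ • x ∈ Zer I := Pool.Agent.H13.SM.cone_smul h.homog hxI _
  have h2 : ((‖x‖ : ℝ) : ℂ)⁻¹ • x ∈ Metric.sphere (0 : Fin (N + 1) → ℂ) 1 := by
    rw [mem_sphere_zero_iff_norm, norm_smul, norm_inv, Complex.norm_real, Real.norm_eq_abs, abs_norm,
      inv_mul_cancel₀ hn]
  have h3 : eval (((‖x‖ : ℝ) : ℂ)⁻¹ • x) (F α b) ≠ 0 := (eval_smul_ne h hc x α b).2 hα
  have h4 : aff (F α) b (((‖x‖ : ℝ) : ℂ)⁻¹ • x) = y' := by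
    rw [aff_smul h hc, hxy]
  obtain ⟨W, hW, u, hu, huv⟩ := hh _ ⟨h1, h2⟩ h1 α h3 (by rw [h4]; exact hy')
  obtain ⟨i, hi⟩ := List.get_of_mem hW
  refine ⟨i, u, ?_, ?_⟩
  · show u ∈ U (L.get i)
    rw [hi]
    exact hu
  · show L.get i u = y'
    rw [hi, huv, h4]

end Pool.Agent.H39.SY
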