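import Pool.Agent.H5.DG2.TrLt
import Pool.Agent.H5.DG.SecBase
import Pool.Agent.H5.DG.SecDim
import Pool.Agent.H92.GT.Index
import Pool.Agent.H17R.Null

/-!
# Project SY, module Dim: the dimension of the cone

`t = coordFun P i₀`, `X i₀ ∉ P`; `K = FractionRing (ℂ[y] ⧸ P)`, `FunField P` is a subfield of `K`
(`functionField P`), `coordFun P i = t * ratio P i i₀` in `K`.
First part: `K` is generated by `t` and `FunField P`, so it is algebraic over `ℂ(t, z)` and every
algebraically independent family in `K` has at most `r + 1` elements; `ℂ[y] ⧸ P` is contained in `K`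
(`Algebra.trdeg`, or `IsTranscendenceBasis.lift_cardinalMk_eq`, see `trdeg_le`/`exists_TD`).
Second part: `Pool.Agent.H92.GT.exists_index` (`FunField P` is generated by the `ratio P i i₀`,
`Pool.Agent.H17R.adjoin_ratio`) gives `J : Fin r → _` such that the `ratio P (J i) i₀` are
algebraically independent; then the `r + 1` elements `X i₀, X (J 0), …` are independent modulo `P`: a
relation `R ≠ 0` has a homogeneous component `R' ≠ 0` which is a relation too (`P` is homogeneous);
`R' (X i₀, X (J i)) ∈ P` gives `R' (1, ratio P (J i) i₀) = 0` (`eval_ratio_zero_iff`), so the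
polynomial `R' (1, ·)` is zero, so `R' = 0`.
-/

open MvPolynomial
open Pool.Agent.H17LG.Variety (FunField)
open Pool.Agent.H17GT (coordFun functionField)
open Pool.Agent.H5.DG (Homog TD)

noncomputable section

namespace Pool.Agent.H39.SY

/-- The coordinates `t, t y_i`: the fraction field of the coordinate ring is algebraic over
`F [t]`, `F` the function field of the projective variety. -/
private theorem Dim_alg {M : ℕ} (P : Ideal (MvPolynomial (Fin (M + 1)) ℂ)) [P.IsPrime]
    {i₀ : Fin (M + 1)} (ht : coordFun P i₀ ≠ 0) :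
    Algebra.IsAlgebraic (Algebra.adjoin (functionField P) {coordFun P i₀})
      (FractionRing (MvPolynomial (Fin (M + 1)) ℂ ⧸ P)) := by
  set K := FractionRing (MvPolynomial (Fin (M + 1)) ℂ ⧸ P) with hK
  set A := Algebra.adjoin (functionField P) {coordFun P i₀} with hA
  have hcoord : ∀ i, coordFun P i ∈ A := by
    intro i
    have h1 : coordFun P i = algebraMap (functionField P) K
        ⟨coordFun P i / coordFun P i₀, IntermediateField.subset_adjoin _ _ ⟨i, i₀, rfl⟩⟩ *
        coordFun P i₀ := by
      change coordFun P i = coordFun P i / coordFun P i₀ * coordFun P i₀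
      rw [div_mul_cancel₀ _ ht]
    rw [h1]
    exact A.mul_mem (A.algebraMap_mem _) (Algebra.subset_adjoin rfl)
  have hring : ∀ a : MvPolynomial (Fin (M + 1)) ℂ ⧸ P,
      algebraMap (MvPolynomial (Fin (M + 1)) ℂ ⧸ P) K a ∈ A := by
    intro a
    obtain ⟨G, rfl⟩ := Ideal.Quotient.mk_surjective a
    induction G using MvPolynomial.induction_on with
    | C c =>
      have h1 : algebraMap (MvPolynomial (Fin (M + 1)) ℂ ⧸ P) K (Ideal.Quotient.mk P (C c)) =
          algebraMap (functionField P) K (algebraMap ℂ (functionField P) c) := by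
        rw [← IsScalarTower.algebraMap_apply]
        rfl
      rw [h1]
      exact A.algebraMap_mem _
    | add p q hp hq =>
      rw [map_add, map_add]
      exact A.add_mem hp hq
    | mul_X p i hp =>
      rw [map_mul, map_mul]
      exact A.mul_mem hp (hcoord i)
  refine ⟨fun z => ?_⟩
  obtain ⟨a, b, -, rfl⟩ := IsFractionRing.div_surjective (A := MvPolynomial (Fin (M + 1)) ℂ ⧸ P) z
  have h1 : ∀ a : MvPolynomial (Fin (M + 1)) ℂ ⧸ P,
      IsAlgebraic A (algebraMap (MvPolynomial (Fin (M + 1)) ℂ ⧸ P) K a) := fun a =>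
    isAlgebraic_algebraMap (⟨_, hring a⟩ : A)
  rw [div_eq_mul_inv]
  exact (h1 a).mul (h1 b).inv

private theorem Dim_trdeg {K : Type} [Field K] [Algebra ℂ K] {L : IntermediateField ℂ K} {t : K}
    (h1 : Algebra.IsAlgebraic (Algebra.adjoin L {t}) K) {r : ℕ} {z : Fin r → L}
    (hz : IsTranscendenceBasis ℂ z) : Algebra.trdeg ℂ K ≤ (r + 1 : ℕ) := by
  have h2 : Algebra.trdeg L K ≤ Cardinal.mk ({t} : Set K) :=
    Algebra.IsAlgebraic.trdeg_le_cardinalMk _ _
  rw [Cardinal.mk_singleton] at h2
  have h3 : Algebra.trdeg ℂ L = r := by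
    rw [← hz.cardinalMk_eq_trdeg, Cardinal.mk_fin]
  have h4 : Algebra.trdeg ℂ L + Algebra.trdeg L K = Algebra.trdeg ℂ K := trdeg_add_eq ℂ L
  rw [← h4, h3, Nat.cast_add, Nat.cast_one]
  exact add_le_add_right h2 _

/-- A form which vanishes at all points with first coordinate `1` is zero. -/
private theorem Dim_form {r n : ℕ} {G : MvPolynomial (Fin (r + 1)) ℂ} (hG : G.IsHomogeneous n)
    (h : ∀ b : Fin r → ℂ, aeval (Fin.cons 1 b : Fin (r + 1) → ℂ) G = 0) : G = 0 := by
  have h1 : X 0 * G = 0 := by
    refine MvPolynomial.funext fun a => ?_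
    rw [map_mul, eval_X, map_zero]
    by_cases ha : a 0 = 0
    · rw [ha, zero_mul]
    · have h2 : aeval a G = a 0 ^ n * aeval (Fin.cons 1 fun i => a i.succ / a 0 :
          Fin (r + 1) → ℂ) G := by
        refine Pool.Agent.H5.DG.aeval_eq_pow_mul hG fun i => ?_
        refine Fin.cases ?_ (fun i => ?_) i
        · rw [Fin.cons_zero, mul_one]
        · rw [Fin.cons_succ, mul_div_cancel₀ _ ha]
      rw [h, mul_zero, MvPolynomial.aeval_eq_eval] at h2
      change eval a G = 0 at h2
      rw [h2, mul_zero]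
  exact (mul_eq_zero.1 h1).resolve_left (X_ne_zero 0)

theorem TD_cone {M r : ℕ} {P : Ideal (MvPolynomial (Fin (M + 1)) ℂ)} [P.IsPrime] (hP : Homog P)
    (hX : ∃ i, X i ∉ P) (hz : ∃ z : Fin r → FunField P, IsTranscendenceBasis ℂ z) :
    TD P (r + 1) ∧ ¬ TD P r := by
  obtain ⟨i₀, hi₀⟩ := hX
  obtain ⟨z, hz⟩ := hz
  have ht : coordFun P i₀ ≠ 0 := by
    intro hcon
    apply hi₀
    rw [← Pool.Agent.H92.GT.Proj.aeval_coordFun_eq_zero_iff, aeval_X]
    exact hcon
  constructor
  · intro f hf
    have hle := Dim_trdeg (Dim_alg P ht) (z := z) hz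
    have hinj : Function.Injective (IsScalarTower.toAlgHom ℂ (MvPolynomial (Fin (M + 1)) ℂ ⧸ P)
        (FractionRing (MvPolynomial (Fin (M + 1)) ℂ ⧸ P))) :=
      IsFractionRing.injective (MvPolynomial (Fin (M + 1)) ℂ ⧸ P)
        (FractionRing (MvPolynomial (Fin (M + 1)) ℂ ⧸ P))
    have h1 := (hf.map' hinj).cardinalMk_le_trdeg.trans hle
    rw [Cardinal.mk_fin, Nat.cast_le] at h1
    omega
  · intro hTD
    obtain ⟨x, hx1, hxgen, hxker⟩ := Pool.Agent.H92.GT.Proj.proj_point P ht
    have halg : Algebra.IsAlgebraic (IntermediateField.adjoin ℂ (Set.range x))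
        (functionField P) := by
      rw [hxgen]
      exact ⟨fun f => isAlgebraic_algebraMap (⟨f, IntermediateField.mem_top⟩ :
        (⊤ : IntermediateField ℂ (functionField P)))⟩
    obtain ⟨J, hJ⟩ := Pool.Agent.H92.GT.exists_index halg (z := z) hz
    obtain ⟨σ, hσ⟩ : ∃ σ : Fin (r + 1) → Fin (M + 1), σ = Fin.cons i₀ J := ⟨_, rfl⟩
    refine hTD (fun i => X (σ i)) ?_
    rw [algebraicIndependent_iff]
    intro Q hQ
    have hmem : rename σ Q ∈ P := by
      rw [← Ideal.Quotient.eq_zero_iff_mem, ← hQ]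
      change Ideal.Quotient.mkₐ ℂ P (rename σ Q) = _
      rw [rename_eq_aeval]
      exact comp_aeval_apply (f := fun i => X (σ i)) (Ideal.Quotient.mkₐ ℂ P) Q
    rw [← sum_homogeneousComponent Q]
    refine Finset.sum_eq_zero fun n _ => ?_
    have hn : rename σ (homogeneousComponent n Q) ∈ P := by
      rw [rename_homogeneousComponent]
      exact hP _ hmem n
    have hhom := homogeneousComponent_isHomogeneous n Q
    generalize homogeneousComponent n Q = G at hn hhom
    have h1 : aeval x (rename σ G) = 0 := (hxker n _ (hhom.rename_isHomogeneous)).2 hn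
    rw [aeval_rename] at h1
    have h2 : (x ∘ σ) = (Fin.cons 1 fun i => x (J i) : Fin (r + 1) → functionField P) := by
      funext i
      rw [hσ]
      refine Fin.cases ?_ (fun i => ?_) i
      · exact hx1
      · rfl
    rw [h2] at h1
    -- the dehomogenised polynomial
    have h3 : aeval (fun i => x (J i)) (aeval (Fin.cons 1 fun i => X i :
        Fin (r + 1) → MvPolynomial (Fin r) ℂ) G) = 0 := by
      rw [← h1, ← AlgHom.comp_apply, comp_aeval]
      congr 2
      funext i
      refine Fin.cases ?_ (fun i => ?_) i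
      · simp
      · simp
    have h4 := hJ.1.eq_zero_of_aeval_eq_zero _ h3
    refine Dim_form hhom fun b => ?_
    have h5 : aeval b (aeval (Fin.cons 1 fun i => X i :
        Fin (r + 1) → MvPolynomial (Fin r) ℂ) G) = 0 := by rw [h4, map_zero]
    rw [← h5, ← AlgHom.comp_apply, comp_aeval]
    congr 2
    funext i
    refine Fin.cases ?_ (fun i => ?_) i
    · simp
    · simp

end Pool.Agent.H39.SY
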