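import Pool.Agent.H39.SY.Defs
import Pool.Agent.H13.SM.Open
import Pool.Agent.H13.SM.Noether
import Pool.Agent.H13.SM.Homog

/-!
# Project SY, module Hold3: lifting through a Noether normalisation, with a Hölder estimate

`a i = ratio P i b` (`coordFun P b ≠ 0`, `Pool.Agent.H17R.adjoin_ratio`, `mem_pts_iff`).
`Pool.Agent.H13.SM.exists_noether` gives `b'` and `B`, `exists_monic` for `X i` gives monic polynomials
`p i` over `ℂ[z]` with `p i (b') (a i) = 0`; `d = ∑ i, natDegree (p i) + 1` or the like.  Let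
`y ∈ Zer P`, `y b = 1`, `z₀ = B (y)`.  By `open_at` every `z` near `z₀` is `B (y')` with
`y' ∈ pts a ∩ V`.  By `root_at` `y' i` is a root of `p i` at `z`.  The polynomial `p i` at `z₀`, evaluated
at `y' i`, is (for `y'` in the ball of radius `1` around `y`, `z` near `z₀`) at most `A ‖z - z₀‖` (the
coefficients are polynomials in `z`, so locally Lipschitz).  On the other hand it is
`∏ (y' i - t)`, over the roots `t` of `p i` at `z₀`, and `y i` is one of them; if `y' i` is near `y i`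
(at most half the distance of `y i` to the other roots, and at most `1`) every factor is at least
`‖y' i - y i‖` in absolute value, so `‖y' i - y i‖ ^ natDegree (p i) ≤ A ‖z - z₀‖`.  Since
`‖y' i - y i‖ ≤ 1` the same is true for the larger exponent `d`.  It is enough to find `y'` in `V ∩`
(a small ball around `y`).
-/

open MvPolynomial Filter Topology
open Pool.Agent.H17LG.Variety (FunField ratio)
open Pool.Agent.H5.DG (Homog)

noncomputable section

namespace Pool.Agent.H39.SY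

private theorem Hold3_prod (c : ℂ) (s : Multiset ℂ) :
    ∀ᶠ t in 𝓝 c, ‖t - c‖ ^ Multiset.card s ≤ ‖(s.map fun r => t - r).prod‖ := by
  induction s using Multiset.induction_on with
  | empty => simp
  | cons r s ih =>
    have h1 : ∀ᶠ t in 𝓝 c, ‖t - c‖ ≤ ‖t - r‖ := by
      by_cases h : r = c
      · subst h
        exact Filter.Eventually.of_forall fun t => le_rfl
      · have h2 : ‖c - c‖ < ‖c - r‖ := by
          rw [sub_self, norm_zero, norm_pos_iff]
          exact sub_ne_zero.2 (Ne.symm h)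
        have h3 : ContinuousAt (fun t : ℂ => ‖t - c‖) c := by fun_prop
        have h4 : ContinuousAt (fun t : ℂ => ‖t - r‖) c := by fun_prop
        exact (h3.eventually_lt h4 h2).mono fun t ht => ht.le
    filter_upwards [ih, h1] with t h5 h6
    rw [Multiset.card_cons, Multiset.map_cons, Multiset.prod_cons, norm_mul, pow_succ, mul_comm]
    exact mul_le_mul h6 h5 (by positivity) (by positivity)

private theorem Hold3_low {p : Polynomial ℂ} (hp : p.Monic) (c : ℂ) :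
    ∀ᶠ t in 𝓝 c, ‖t - c‖ ^ p.natDegree ≤ ‖p.eval t‖ := by
  have hs : p.Splits := IsAlgClosed.splits p
  have h1 : p = (p.roots.map fun r => Polynomial.X - Polynomial.C r).prod := by
    have h2 := hs.eq_prod_roots
    rw [hp.leadingCoeff, Polynomial.C_1, one_mul] at h2
    exact h2
  have h3 : Multiset.card p.roots = p.natDegree := hs.natDegree_eq_card_roots.symm
  filter_upwards [Hold3_prod c p.roots] with t ht
  rw [h3] at ht
  refine ht.trans_eq ?_
  conv_rhs => rw [h1]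
  rw [Polynomial.eval_multiset_prod, Multiset.map_map]
  simp only [Function.comp_def, Polynomial.eval_sub, Polynomial.eval_X, Polynomial.eval_C]

private theorem Hold3_lip {n : ℕ} (p : Polynomial (MvPolynomial (Fin n) ℂ)) (z₀ : Fin n → ℂ) (c : ℂ) :
    ∃ A : ℝ, 0 ≤ A ∧ ∀ᶠ z in 𝓝 z₀, ∀ t : ℂ, ‖t - c‖ ≤ 1 →
      ‖(p.map (eval z₀)).eval t - (p.map (eval z)).eval t‖ ≤ A * ‖z - z₀‖ := by
  have h1 : ∀ k : ℕ, ∃ C : ℝ, 0 ≤ C ∧ ∀ᶠ z in 𝓝 z₀,
      ‖eval z (p.coeff k) - eval z₀ (p.coeff k)‖ ≤ C * ‖z - z₀‖ := by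
    intro k
    have h2 : DifferentiableAt ℂ (fun z : Fin n → ℂ => eval z (p.coeff k)) z₀ := by
      induction p.coeff k using MvPolynomial.induction_on with
      | C a =>
        simp only [eval_C]
        exact differentiableAt_const _
      | add q r hq hr =>
        simp only [map_add]
        exact hq.add hr
      | mul_X q i hq =>
        simp only [map_mul, eval_X]
        exact hq.mul (differentiableAt_apply i z₀)
    obtain ⟨C, hC0, hC⟩ := h2.isBigO_sub.exists_nonneg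
    exact ⟨C, hC0, hC.bound⟩
  choose C hC0 hC using h1
  refine ⟨∑ k ∈ Finset.range (p.natDegree + 1), C k * (‖c‖ + 1) ^ k,
    Finset.sum_nonneg fun k _ => mul_nonneg (hC0 k) (by positivity), ?_⟩
  have h3 : ∀ᶠ z in 𝓝 z₀, ∀ k ∈ Finset.range (p.natDegree + 1),
      ‖eval z (p.coeff k) - eval z₀ (p.coeff k)‖ ≤ C k * ‖z - z₀‖ :=
    (Filter.eventually_all_finset _).2 fun k _ => hC k
  filter_upwards [h3] with z hz t ht
  have h4 : ∀ w : Fin n → ℂ, (p.map (eval w)).eval t =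
      ∑ k ∈ Finset.range (p.natDegree + 1), eval w (p.coeff k) * t ^ k := by
    intro w
    rw [Polynomial.eval_map, Polynomial.eval₂_eq_sum_range]
  rw [h4, h4, ← Finset.sum_sub_distrib, Finset.sum_mul]
  refine (norm_sum_le _ _).trans (Finset.sum_le_sum fun k hk => ?_)
  rw [← sub_mul, norm_mul, norm_pow, norm_sub_rev]
  have h5 : ‖t‖ ≤ ‖c‖ + 1 := by
    calc ‖t‖ = ‖c + (t - c)‖ := by rw [add_sub_cancel]
      _ ≤ ‖c‖ + ‖t - c‖ := norm_add_le _ _
      _ ≤ ‖c‖ + 1 := by linarith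
  calc ‖eval z (p.coeff k) - eval z₀ (p.coeff k)‖ * ‖t‖ ^ k
      ≤ (C k * ‖z - z₀‖) * (‖c‖ + 1) ^ k :=
        mul_le_mul (hz k hk) (pow_le_pow_left₀ (norm_nonneg _) h5 k) (by positivity)
          (mul_nonneg (hC0 k) (norm_nonneg _))
    _ = C k * (‖c‖ + 1) ^ k * ‖z - z₀‖ := by ring

theorem exists_lift3 {M n : ℕ} {P : Ideal (MvPolynomial (Fin (M + 1)) ℂ)} [P.IsPrime]
    (hP : Homog P) (hz : ∃ z : Fin n → FunField P, IsTranscendenceBasis ℂ z) {b : Fin (M + 1)}
    (hb : X b ∉ P) :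
    ∃ (d : ℕ) (B : Fin n → MvPolynomial (Fin (M + 1)) ℂ), ∀ y ∈ Zer P, y b = 1 → ∃ L : ℝ,
      ∀ V ∈ 𝓝 y, ∀ᶠ z in 𝓝 (fun a => eval y (B a)), ∃ y' ∈ V, y' ∈ Zer P ∧ y' b = 1 ∧
        (∀ a, eval y' (B a) = z a) ∧ ‖y' - y‖ ^ d ≤ L * ‖z - fun a => eval y (B a)‖ := by
  have hcb : Pool.Agent.H17GT.coordFun P b ≠ 0 := Pool.Agent.H17R.coordFun_ne_zero_iff.2 hb
  obtain ⟨zz, hzz⟩ := hz
  obtain ⟨bb, B, hind, hB, hint⟩ :=
    Pool.Agent.H13.SM.exists_noether (Pool.Agent.H17R.adjoin_ratio hcb) hzz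
  choose p hpm hpr using fun i : Fin (M + 1) =>
    Pool.Agent.H13.SM.exists_monic (a := fun i => ratio P i b) (b := bb) hint (X i)
  refine ⟨∑ i, (p i).natDegree, B, ?_⟩
  intro y hy hyb
  have hya : y ∈ Pool.Agent.H13.SM.pts (fun i => ratio P i b) :=
    (Pool.Agent.H13.SM.mem_pts_iff hP hcb).2 ⟨hyb, hy⟩
  set z₀ : Fin n → ℂ := fun a => eval y (B a) with hz₀
  choose A hA0 hA using fun i : Fin (M + 1) => Hold3_lip (p i) z₀ (y i)
  refine ⟨∑ i, A i, ?_⟩
  intro V hV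
  have hdeg : ∀ i, ((p i).map (eval z₀)).natDegree = (p i).natDegree := fun i =>
    (hpm i).natDegree_map _
  have hU : {w : Fin (M + 1) → ℂ | ∀ i, ‖w i - y i‖ ≤ 1 ∧
      ‖w i - y i‖ ^ (p i).natDegree ≤ ‖((p i).map (eval z₀)).eval (w i)‖} ∈ 𝓝 y := by
    have h1 : ∀ᶠ w in 𝓝 y, ∀ i, ‖w i - y i‖ ≤ 1 ∧
        ‖w i - y i‖ ^ (p i).natDegree ≤ ‖((p i).map (eval z₀)).eval (w i)‖ := by
      rw [Filter.eventually_all]
      intro i
      have h2 : Tendsto (fun w : Fin (M + 1) → ℂ => w i) (𝓝 y) (𝓝 (y i)) :=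
        (continuous_apply i).tendsto y
      have h3 := h2.eventually (Hold3_low ((hpm i).map (eval z₀)) (y i))
      have h4 : ∀ᶠ t in 𝓝 (y i), ‖t - y i‖ ≤ 1 := by
        filter_upwards [Metric.closedBall_mem_nhds (y i) one_pos] with t ht
        rwa [mem_closedBall_iff_norm] at ht
      filter_upwards [h3, h2.eventually h4] with w h5 h6
      rw [hdeg] at h5
      exact ⟨h6, h5⟩
    exact h1
  have himg := Pool.Agent.H13.SM.open_at hind hB hint hya (Filter.inter_mem hV hU)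
  have hA' : ∀ᶠ z in 𝓝 z₀, ∀ i, ∀ t : ℂ, ‖t - y i‖ ≤ 1 →
      ‖((p i).map (eval z₀)).eval t - ((p i).map (eval z)).eval t‖ ≤ A i * ‖z - z₀‖ :=
    Filter.eventually_all.2 hA
  filter_upwards [himg, hA'] with z hz1 hz2
  obtain ⟨y', ⟨hy'a, hy'V, hy'U⟩, hy'z⟩ := hz1
  have hy'z' : ∀ a, eval y' (B a) = z a := fun a => congrFun hy'z a
  obtain ⟨hy'b, hy'P⟩ := (Pool.Agent.H13.SM.mem_pts_iff hP hcb).1 hy'a
  refine ⟨y', hy'V, hy'P, hy'b, hy'z', ?_⟩
  obtain ⟨i, hi⟩ := Finite.exists_max fun i => ‖(y' - y) i‖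
  have h1 : ‖y' - y‖ ≤ ‖(y' - y) i‖ := (pi_norm_le_iff_of_nonneg (norm_nonneg _)).2 hi
  have h2 : ‖(y' - y) i‖ ≤ 1 := (hy'U i).1
  have h3 : ((p i).map (eval z)).eval (y' i) = 0 := by
    have h4 := Pool.Agent.H13.SM.root_at hB (hpr i) hy'a
    rw [eval_X, show (fun j => eval y' (B j)) = z from hy'z] at h4
    exact h4
  have h5 : ‖(y' - y) i‖ ^ (p i).natDegree ≤ A i * ‖z - z₀‖ := by
    refine (hy'U i).2.trans ?_
    have h6 := hz2 i (y' i) (hy'U i).1
    rwa [h3, sub_zero] at h6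
  calc ‖y' - y‖ ^ ∑ i, (p i).natDegree
      ≤ ‖(y' - y) i‖ ^ ∑ i, (p i).natDegree := pow_le_pow_left₀ (norm_nonneg _) h1 _
    _ ≤ ‖(y' - y) i‖ ^ (p i).natDegree :=
      pow_le_pow_of_le_one (norm_nonneg _) h2
        (Finset.single_le_sum (f := fun i => (p i).natDegree) (fun _ _ => Nat.zero_le _)
          (Finset.mem_univ i))
    _ ≤ A i * ‖z - z₀‖ := h5
    _ ≤ (∑ i, A i) * ‖z - z₀‖ :=
      mul_le_mul_of_nonneg_right (Finset.single_le_sum (fun j _ => hA0 j) (Finset.mem_univ i))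
        (norm_nonneg _)

end Pool.Agent.H39.SY
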