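import Pool.Agent.H39.SY.SurjA
import Pool.Agent.H13.SM.Dense

/-!
# Project SY, module SurjB: the morphism is surjective

`S = {x ∈ Zer I | ‖x‖ = 1}` is compact.  The set of the pairs `(x, y)`, `y b = 1`,
`eval x (F α a) = y a * eval x (F α b)` for all `α`, `a`, is closed.  If `y` is not the image of a point
then no point near `y` is; but the general points of `Y` are in the image and they are dense.
-/

open MvPolynomial Filter Topology
open Pool.Agent.H17LG.Variety (FunField ratio)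
open Pool.Agent.H5.DG (Homog)
open Pool.Agent.H5.DG3

noncomputable section

namespace Pool.Agent.H39.SY

variable {N M m s q n : ℕ} {P : Ideal (MvPolynomial (Fin (M + 1)) ℂ)} [P.IsPrime]
  {G : Fin m → MvPolynomial (Fin (M + 1)) ℂ} {I : Ideal (MvPolynomial (Fin (N + 1)) ℂ)}
  [I.IsPrime] {F : Fin s → Fin (M + 1) → MvPolynomial (Fin (N + 1)) ℂ}

theorem exists_pre (hP : Homog P) (h : RamifiedMorphism q P G I ∅ ∅ F) (hn : 1 ≤ n)
    (hz : ∃ z : Fin n → FunField I, IsTranscendenceBasis ℂ z)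
    (hzP : ∃ z : Fin n → FunField P, IsTranscendenceBasis ℂ z) {b : Fin (M + 1)}
    {y : Fin (M + 1) → ℂ} (hy : y ∈ Zer P) (hyb : y b = 1) :
    ∃ x ∈ Zer I, x ≠ 0 ∧ ∃ α, eval x (F α b) ≠ 0 ∧ aff (F α) b x = y := by
  classical
  have hXb : (X b : MvPolynomial (Fin (M + 1)) ℂ) ∉ P := by
    intro h1
    have h2 := hy _ h1
    rw [eval_X, hyb] at h2
    exact one_ne_zero h2
  obtain ⟨f, hf0, hf⟩ := exists_pre_generic hP h hn hz hzP hXb
  by_contra hcon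
  -- the graph
  have hcl : IsClosed (Zer I) := by
    have : Zer I = ⋂ Q ∈ I, {x | eval x Q = 0} := by
      ext x
      simp [Zer]
    rw [this]
    exact isClosed_biInter fun Q _ => isClosed_eq (MvPolynomial.continuous_eval Q) continuous_const
  have hS : IsCompact (Zer I ∩ Metric.sphere (0 : Fin (N + 1) → ℂ) 1) :=
    (isCompact_sphere 0 1).inter_left hcl
  obtain ⟨E, hE⟩ : ∃ E : (Fin (M + 1) → ℂ) → (Fin (N + 1) → ℂ) → Prop, ∀ y' x', E y' x' ↔
      ∀ α a, eval x' (F α a) = y' a * eval x' (F α b) := ⟨_, fun _ _ => Iff.rfl⟩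
  have hEc : IsClosed {p : (Fin (M + 1) → ℂ) × (Fin (N + 1) → ℂ) | E p.1 p.2} := by
    simp only [hE, Set.setOf_forall]
    refine isClosed_iInter fun α => isClosed_iInter fun a => ?_
    refine isClosed_eq ((MvPolynomial.continuous_eval _).comp continuous_snd) ?_
    exact ((continuous_apply a).comp continuous_fst).mul
      ((MvPolynomial.continuous_eval _).comp continuous_snd)
  have hno : ∀ x' ∈ Zer I ∩ Metric.sphere (0 : Fin (N + 1) → ℂ) 1, ¬ E y x' := by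
    rintro x' ⟨hx', hx1⟩ hEx
    have hx0 : x' ≠ 0 := by
      rintro rfl
      rw [mem_sphere_zero_iff_norm, norm_zero] at hx1
      exact zero_ne_one hx1
    obtain ⟨α, a, ha⟩ := exists_tuple h hx' hx0
    rw [hE] at hEx
    have hb : eval x' (F α b) ≠ 0 := by
      intro h1
      apply ha
      rw [hEx α a, h1, mul_zero]
    refine hcon ⟨x', hx', hx0, α, hb, ?_⟩
    funext c
    unfold aff
    rw [hEx α c, mul_div_cancel_right₀ _ hb]
  have hnear : ∀ᶠ y' in 𝓝 y, ∀ x' ∈ Zer I ∩ Metric.sphere (0 : Fin (N + 1) → ℂ) 1,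
      ¬ E y' x' :=
    hS.eventually_forall_of_forall_eventually fun x' hx' =>
      hEc.isOpen_compl.mem_nhds (hno x' hx')
  have hyl := Pool.Agent.H17R.coordFun_ne_zero_iff.2 hXb
  obtain ⟨zP, hzP'⟩ := hzP
  refine Pool.Agent.H13.SM.not_eventually_zero (Pool.Agent.H17R.adjoin_ratio hyl) hzP'
    ((Pool.Agent.H13.SM.mem_pts_iff hP hyl).2 ⟨hyb, hy⟩) hf0 ?_
  filter_upwards [hnear] with y' h1 h2
  obtain ⟨h3, h4⟩ := (Pool.Agent.H13.SM.mem_pts_iff hP hyl).1 h2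
  by_contra h5
  obtain ⟨x, hxI, hx0, α, hα, hxy⟩ := hf y' h4 h3 h5
  have hnx : ‖x‖ ≠ 0 := norm_ne_zero_iff.2 hx0
  have hc : ((‖x‖ : ℝ) : ℂ)⁻¹ ≠ 0 := inv_ne_zero (by exact_mod_cast hnx)
  have h6 : ((‖x‖ : ℝ) : ℂ)⁻¹ • x ∈ Zer I := Pool.Agent.H13.SM.cone_smul h.homog hxI _
  have h7 : ((‖x‖ : ℝ) : ℂ)⁻¹ • x ∈ Metric.sphere (0 : Fin (N + 1) → ℂ) 1 := by
    rw [mem_sphere_zero_iff_norm, norm_smul, norm_inv, Complex.norm_real, norm_norm,
      inv_mul_cancel₀ hnx]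
  refine h1 _ ⟨h6, h7⟩ ((hE _ _).2 fun β a => ?_)
  have hα' : eval (((‖x‖ : ℝ) : ℂ)⁻¹ • x) (F α b) ≠ 0 := (eval_smul_ne h hc x α b).2 hα
  have hxy' : aff (F α) b (((‖x‖ : ℝ) : ℂ)⁻¹ • x) = y' := by
    rw [aff_smul h hc]
    exact hxy
  by_cases hβ : eval (((‖x‖ : ℝ) : ℂ)⁻¹ • x) (F β a) = 0
  · by_cases hβb : eval (((‖x‖ : ℝ) : ℂ)⁻¹ • x) (F β b) = 0
    · rw [hβ, hβb, mul_zero]
    · rw [← hxy', aff_eq h h6 hα' hβb]
      unfold aff
      rw [div_mul_cancel₀ _ hβb]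
  · have hβb : eval (((‖x‖ : ℝ) : ℂ)⁻¹ • x) (F β b) ≠ 0 := base_ne h h6 hα' hβ
    rw [← hxy', aff_eq h h6 hα' hβb]
    unfold aff
    rw [div_mul_cancel₀ _ hβb]

end Pool.Agent.H39.SY
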