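import Pool.Agent.H39.SX.Vol

/-!
# Project SY, module Vol3: comparison of volumes for finitely many charts

Model: `card_le_of_vol` in module SX.Vol (its private lemmas `vol_det`, `vol_lin`, `vol_prod`,
`vol_finrank`, copy what is needed).  `Φ i u = (eval (W i u) (B a))_a`, `z₀ = B (y)`.  Suppose
`2 n d < k`.  `L` may be replaced by `max L 1`, `C` by `max C 0`.  Let `K`, `ρ` be such that
`∏ j, ‖eval y' (G j)‖ ≤ (K ‖y' - y‖) ^ k` for `‖y' - y‖ < ρ`.  For small `ε > 0` (such that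
`t ^ d ≤ L ε` implies `t < ρ`; `d ≥ 1`: for `d = 0` the hypothesis `hlift` is false at `z = z₀`, as
`1 ≤ L * 0` is false) let `S i = {u ∈ U i | ‖W i u - y‖ ^ d ≤ L ε}` (measurable).  The ball of radius
`ε` around `z₀` is contained in the union of the `Φ i '' S i`, so its volume `c ε ^ (2 n)` is at most
`∑ i, ∫⁻ u in S i, |det|` (`MeasureTheory.addHaar_image_le_lintegral_abs_det_fderiv`), which is at most
`∑ i, vol (U i) * C * (K * (L ε) ^ (1 / d)) ^ k`.  So (`d`-th powers) `c ^ d ε ^ (2 n d) ≤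
A ε ^ k` for all small `ε`, a contradiction for `ε → 0`.
-/

open MvPolynomial Filter Topology MeasureTheory

noncomputable section

namespace Pool.Agent.H39.SY

private theorem vol3_finrank (n : ℕ) : Module.finrank ℝ (Fin n → ℂ) = 2 * n := by
  rw [Module.finrank_pi_fintype]
  simp [Complex.finrank_real_complex, mul_comm]

private theorem vol3_det {n : ℕ} (A : (Fin n → ℂ) →L[ℂ] (Fin n → ℂ)) :
    |(A.restrictScalars ℝ).det| = ‖A.det‖ ^ 2 := by
  have h1 : (A.restrictScalars ℝ).det = Algebra.norm ℝ A.det := by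
    rw [ContinuousLinearMap.det, ContinuousLinearMap.det, ContinuousLinearMap.coe_restrictScalars]
    exact LinearMap.det_restrictScalars
  rw [h1, Algebra.norm_complex_apply, Complex.normSq_eq_norm_sq, abs_of_nonneg (sq_nonneg _)]

/-- a polynomial which vanishes at a point is locally at most a multiple of the distance -/
private theorem vol3_lin {n : ℕ} (Q : MvPolynomial (Fin n) ℂ) {y : Fin n → ℂ}
    (hQ : eval y Q = 0) : ∃ L : ℝ, 0 ≤ L ∧ ∀ᶠ z in 𝓝 y, ‖eval z Q‖ ≤ L * ‖z - y‖ := by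
  have h1 : DifferentiableAt ℂ (fun z : Fin n → ℂ => eval z Q) y :=
    (AnalyticOnNhd.eval_mvPolynomial Q y (Set.mem_univ _)).differentiableAt
  obtain ⟨L, hL⟩ := h1.isBigO_sub.bound
  refine ⟨|L|, abs_nonneg L, hL.mono fun z hz => ?_⟩
  rw [hQ, sub_zero] at hz
  exact hz.trans (mul_le_mul_of_nonneg_right (le_abs_self L) (norm_nonneg _))

private theorem vol3_prod {n k : ℕ} (G : Fin k → MvPolynomial (Fin n) ℂ) {y : Fin n → ℂ}
    (hG : ∀ j, eval y (G j) = 0) :
    ∃ L : ℝ, 0 ≤ L ∧ ∀ᶠ z in 𝓝 y, ∏ j, ‖eval z (G j)‖ ≤ (L * ‖z - y‖) ^ k := by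
  choose L hL0 hL using fun j => vol3_lin (G j) (hG j)
  refine ⟨∑ j, L j, Finset.sum_nonneg fun j _ => hL0 j, ?_⟩
  filter_upwards [eventually_all.2 hL] with z hz
  calc ∏ j, ‖eval z (G j)‖ ≤ ∏ _j : Fin k, ((∑ j, L j) * ‖z - y‖) := by
        refine Finset.prod_le_prod (fun j _ => norm_nonneg _) fun j _ => (hz j).trans ?_
        exact mul_le_mul_of_nonneg_right
          (Finset.single_le_sum (fun i _ => hL0 i) (Finset.mem_univ j)) (norm_nonneg _)
    _ = ((∑ j, L j) * ‖z - y‖) ^ k := by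
        rw [Finset.prod_const, Finset.card_univ, Fintype.card_fin]

/-- the volume of the image of one chart -/
private theorem vol3_chart {n M k : ℕ} {W : (Fin n → ℂ) → Fin (M + 1) → ℂ} {y : Fin (M + 1) → ℂ}
    (B : Fin n → MvPolynomial (Fin (M + 1)) ℂ) (G : Fin k → MvPolynomial (Fin (M + 1)) ℂ)
    {U : Set (Fin n → ℂ)} (hUo : IsOpen U) (hW : ∀ u ∈ U, AnalyticAt ℂ W u) {C : ℝ}
    (hJ : ∀ u ∈ U, ‖(fderiv ℂ (fun u' a => eval (W u') (B a)) u).det‖ ^ 2 ≤
      C * ∏ j, ‖eval (W u) (G j)‖) {K ρ τ : ℝ} (hK : 0 ≤ K) (hτ : 0 < τ) (hτρ : τ < ρ)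
    (hG : ∀ y' ∈ Metric.ball y ρ, ∏ j, ‖eval y' (G j)‖ ≤ (K * ‖y' - y‖) ^ k) :
    volume ((fun u' a => eval (W u') (B a)) '' (U ∩ W ⁻¹' Metric.ball y τ)) ≤
      ENNReal.ofReal (|C| * (K * τ) ^ k) * volume U := by
  have hΦ : ∀ u ∈ U, DifferentiableAt ℂ (fun u' (a : Fin n) => eval (W u') (B a)) u := by
    intro u hu
    refine differentiableAt_pi.2 fun a => ?_
    have h1 : DifferentiableAt ℂ (fun z : Fin (M + 1) → ℂ => eval z (B a)) (W u) :=
      (AnalyticOnNhd.eval_mvPolynomial (B a) (W u) (Set.mem_univ _)).differentiableAt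
    exact h1.comp u (hW u hu).differentiableAt
  have hcont : ContinuousOn W U := fun x hx => (hW x hx).continuousAt.continuousWithinAt
  have hSo : IsOpen (U ∩ W ⁻¹' Metric.ball y τ) := hcont.isOpen_inter_preimage hUo Metric.isOpen_ball
  refine (addHaar_image_le_lintegral_abs_det_fderiv volume hSo.measurableSet fun x hx =>
    ((hΦ x hx.1).hasFDerivAt.restrictScalars ℝ).hasFDerivWithinAt).trans ?_
  have h4 : ∀ x ∈ U ∩ W ⁻¹' Metric.ball y τ, ENNReal.ofReal
      |((fderiv ℂ (fun u' a => eval (W u') (B a)) x).restrictScalars ℝ).det| ≤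
        ENNReal.ofReal (|C| * (K * τ) ^ k) := by
    intro x hx
    apply ENNReal.ofReal_le_ofReal
    rw [vol3_det]
    refine (hJ x hx.1).trans ?_
    have h5 : W x ∈ Metric.ball y τ := hx.2
    have h6 := hG (W x) (Metric.ball_subset_ball hτρ.le h5)
    have h7 : ‖W x - y‖ ≤ τ := by
      rw [Metric.mem_ball, dist_eq_norm] at h5
      exact h5.le
    have h8 : ∏ j, ‖eval (W x) (G j)‖ ≤ (K * τ) ^ k :=
      h6.trans (pow_le_pow_left₀ (mul_nonneg hK (norm_nonneg _))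
        (mul_le_mul_of_nonneg_left h7 hK) k)
    have h9 : 0 ≤ ∏ j, ‖eval (W x) (G j)‖ := Finset.prod_nonneg fun j _ => norm_nonneg _
    exact (mul_le_mul_of_nonneg_right (le_abs_self C) h9).trans
      (mul_le_mul_of_nonneg_left h8 (abs_nonneg C))
  refine (setLIntegral_mono' hSo.measurableSet h4).trans ?_
  rw [setLIntegral_const]
  gcongr
  exact Set.inter_subset_left

theorem card_le_of_vol3 {n M k d t : ℕ} (hn : 1 ≤ n)
    {W : Fin t → (Fin n → ℂ) → Fin (M + 1) → ℂ} {y : Fin (M + 1) → ℂ}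
    (B : Fin n → MvPolynomial (Fin (M + 1)) ℂ) (G : Fin k → MvPolynomial (Fin (M + 1)) ℂ)
    (hG : ∀ j, eval y (G j) = 0) {U : Fin t → Set (Fin n → ℂ)} (hUo : ∀ i, IsOpen (U i))
    (hUb : ∀ i, Bornology.IsBounded (U i)) (hW : ∀ i, ∀ u ∈ U i, AnalyticAt ℂ (W i) u)
    {C : Fin t → ℝ}
    (hJ : ∀ i, ∀ u ∈ U i, ‖(fderiv ℂ (fun u' a => eval (W i u') (B a)) u).det‖ ^ 2 ≤
      C i * ∏ j, ‖eval (W i u) (G j)‖) {L : ℝ}
    (hlift : ∀ᶠ z in 𝓝 (fun a => eval y (B a)), ∃ i, ∃ u ∈ U i,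
      (∀ a, eval (W i u) (B a) = z a) ∧ ‖W i u - y‖ ^ d ≤ L * ‖z - fun a => eval y (B a)‖) :
    k ≤ 2 * n * d := by
  by_contra hk
  push Not at hk
  set z₀ : Fin n → ℂ := fun a => eval y (B a) with hz₀
  -- the case `d = 0`
  have hd : 1 ≤ d := by
    by_contra hd
    have hd0 : d = 0 := by omega
    obtain ⟨i, u, _, _, h2⟩ := hlift.self_of_nhds
    rw [hd0, pow_zero, sub_self, norm_zero, mul_zero] at h2
    exact absurd h2 (by norm_num)
  obtain ⟨K, hK0, hK⟩ := vol3_prod G hG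
  obtain ⟨ρ, hρ, hK'⟩ := Metric.eventually_nhds_iff_ball.1 hK
  obtain ⟨δ, hδ, hlift'⟩ := Metric.eventually_nhds_iff_ball.1 hlift
  set L' : ℝ := max L 1 with hL'
  have hL1 : 1 ≤ L' := le_max_right _ _
  have hL0 : 0 < L' := by linarith
  have hVfin : ∀ i, volume (U i) < ⊤ := fun i => (hUb i).measure_lt_top
  set V : Fin t → ℝ := fun i => (volume (U i)).toReal with hV
  set c : ℝ := (volume (Metric.ball (0 : Fin n → ℂ) 1)).toReal with hc
  have hc0 : 0 < c := ENNReal.toReal_pos (Metric.measure_ball_pos _ _ one_pos).ne'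
    measure_ball_lt_top.ne
  have hV0 : ∀ i, 0 ≤ V i := fun i => ENNReal.toReal_nonneg
  set A : ℝ := ∑ i, |C i| * K ^ k * V i with hA
  have hA0 : 0 ≤ A := Finset.sum_nonneg fun i _ => mul_nonneg (by positivity) (hV0 i)
  -- the key inequality
  have key : ∀ τ : ℝ, 0 < τ → τ < ρ → τ < δ → τ < 1 →
      (τ ^ d / L') ^ (2 * n) * c ≤ A * τ ^ k := by
    intro τ hτ h1 h2 h3
    set ε : ℝ := τ ^ d / L' with hε
    have hε0 : 0 < ε := by positivity
    have hεδ : ε < δ := by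
      refine lt_of_le_of_lt ?_ h2
      rw [hε, div_le_iff₀ hL0]
      have h4 : τ ^ d ≤ τ ^ 1 := pow_le_pow_of_le_one hτ.le h3.le hd
      rw [pow_one] at h4
      nlinarith
    have hBS : Metric.ball z₀ ε ⊆ ⋃ i, (fun u' a => eval (W i u') (B a)) ''
        (U i ∩ W i ⁻¹' Metric.ball y τ) := by
      intro z hz
      obtain ⟨i, u, hu, h4, h5⟩ := hlift' z (Metric.ball_subset_ball hεδ.le hz)
      rw [Set.mem_iUnion]
      refine ⟨i, u, ⟨hu, ?_⟩, funext h4⟩
      rw [Set.mem_preimage, Metric.mem_ball, dist_eq_norm]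
      rw [Metric.mem_ball, dist_eq_norm] at hz
      have h6 : ‖W i u - y‖ ^ d < τ ^ d := by
        calc ‖W i u - y‖ ^ d ≤ L * ‖z - z₀‖ := h5
          _ ≤ L' * ‖z - z₀‖ := mul_le_mul_of_nonneg_right (le_max_left _ _) (norm_nonneg _)
          _ < L' * ε := mul_lt_mul_of_pos_left hz hL0
          _ = τ ^ d := by rw [hε, mul_div_cancel₀ _ hL0.ne']
      exact lt_of_pow_lt_pow_left₀ d hτ.le h6
    have h4 : volume (Metric.ball z₀ ε) ≤ ENNReal.ofReal (A * τ ^ k) := by
      refine (measure_mono hBS).trans ((measure_iUnion_fintype_le _ _).trans ?_)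
      have h5 : ∀ i, volume ((fun u' a => eval (W i u') (B a)) ''
          (U i ∩ W i ⁻¹' Metric.ball y τ)) ≤ ENNReal.ofReal (|C i| * (K * τ) ^ k * V i) := by
        intro i
        have h6 := vol3_chart B G (hUo i) (hW i) (hJ i) hK0 hτ h1 hK'
        have h7 : volume (U i) = ENNReal.ofReal (V i) := (ENNReal.ofReal_toReal (hVfin i).ne).symm
        rw [h7, ← ENNReal.ofReal_mul (by positivity)] at h6
        exact h6
      refine (Finset.sum_le_sum fun i _ => h5 i).trans ?_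
      rw [← ENNReal.ofReal_sum_of_nonneg fun i _ => mul_nonneg (by positivity) (hV0 i)]
      apply ENNReal.ofReal_le_ofReal
      rw [hA, Finset.sum_mul]
      refine le_of_eq (Finset.sum_congr rfl fun i _ => ?_)
      rw [mul_pow]
      ring
    rw [Measure.addHaar_ball_of_pos volume _ hε0, vol3_finrank] at h4
    have h7 := ENNReal.toReal_mono ENNReal.ofReal_ne_top h4
    rw [ENNReal.toReal_mul, ENNReal.toReal_ofReal (by positivity),
      ENNReal.toReal_ofReal (by positivity)] at h7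
    exact h7
  -- let `τ` tend to `0`
  set c' : ℝ := c / L' ^ (2 * n) with hc'
  have hc'0 : 0 < c' := by positivity
  have key2 : ∀ τ : ℝ, 0 < τ → τ < ρ → τ < δ → τ < 1 → c' ≤ A * τ := by
    intro τ hτ h1 h2 h3
    have h4 := key τ hτ h1 h2 h3
    have h5 : τ ^ k ≤ τ ^ (2 * n * d + 1) := pow_le_pow_of_le_one hτ.le h3.le hk
    have h6 : (τ ^ d / L') ^ (2 * n) * c = c' * τ ^ (2 * n * d) := by
      rw [hc', div_pow, ← pow_mul, mul_comm d (2 * n)]
      ring
    rw [h6] at h4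
    have h7 : c' * τ ^ (2 * n * d) ≤ (A * τ) * τ ^ (2 * n * d) := by
      calc c' * τ ^ (2 * n * d) ≤ A * τ ^ k := h4
        _ ≤ A * τ ^ (2 * n * d + 1) := mul_le_mul_of_nonneg_left h5 hA0
        _ = (A * τ) * τ ^ (2 * n * d) := by ring
    exact le_of_mul_le_mul_right h7 (pow_pos hτ _)
  have hτ0 : 0 < min (min (ρ / 2) (δ / 2)) (min (1 / 2) (c' / (2 * (A + 1)))) := by
    have : 0 < c' / (2 * (A + 1)) := by positivity
    exact lt_min (lt_min (by positivity) (by positivity)) (lt_min (by norm_num) this)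
  set τ : ℝ := min (min (ρ / 2) (δ / 2)) (min (1 / 2) (c' / (2 * (A + 1)))) with hτ
  have e1 : τ ≤ ρ / 2 := (min_le_left _ _).trans (min_le_left _ _)
  have e2 : τ ≤ δ / 2 := (min_le_left _ _).trans (min_le_right _ _)
  have e3 : τ ≤ 1 / 2 := (min_le_right _ _).trans (min_le_left _ _)
  have e4 : τ ≤ c' / (2 * (A + 1)) := (min_le_right _ _).trans (min_le_right _ _)
  have h10 := key2 τ hτ0 (by linarith) (by linarith) (by linarith)
  have h12 : (A + 1) * τ ≤ (A + 1) * (c' / (2 * (A + 1))) :=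
    mul_le_mul_of_nonneg_left e4 (by linarith)
  have h13 : (A + 1) * (c' / (2 * (A + 1))) = c' / 2 := by
    field_simp
  rw [h13] at h12
  nlinarith

end Pool.Agent.H39.SY
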