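import Pool.Agent.H39.SY.JacB3
import Pool.Agent.H39.SY.SurjB
import Pool.Agent.H39.SY.Cover3
import Pool.Agent.H39.SY.Hold3
import Pool.Agent.H39.SY.Vol3
import Pool.Agent.H39.SY.Dim
import Pool.Agent.H39.SY.ChartAt
import Pool.Agent.H5.DG2.Main2

/-!
# Project SY, module Count3: the number of ramified sections through a point

`Y` is a projective variety of dimension `r`.  There is a number `κ` such that the following is true
for all integral sections `G j = 0` of `Y`, pairwise different.  Let `X` be a projective variety of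
dimension `r` with a finite morphism to `Y` such that the inverse images of all the `G j = 0` have
multiplicities at least two outside of a closed set `B`.  If `y` is a point of `Y` such that `X` is
smooth at all points over `y`, and none of them is in `B`, then at most `κ` of the `G j` vanish
at `y`.
-/

open Topology Filter MvPolynomial
open Pool.Agent.H17 (PN VanishesAt ZariskiClosedIn)
open Pool.Agent.H17LG.Variety (FunField)
open Pool.Agent.H5.DG (Homog IntegralSection TD AtMostThrough variety)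
open Pool.Agent.H5.DG3
open Pool.Agent.H13.SM (conTan)

noncomputable section

namespace Pool.Agent.H39.SY

private theorem Count3_notMem {N : ℕ} {B : Set (PN N)} (hB : ZariskiClosedIn Set.univ B)
    {x : Fin (N + 1) → ℂ} (hx : x ≠ 0) (hxB : Projectivization.mk ℂ x hx ∉ B) :
    ∀ᶠ x' in 𝓝 x, ∀ hx' : x' ≠ 0, Projectivization.mk ℂ x' hx' ∉ B := by
  obtain ⟨S, hS, hSB⟩ := hB
  obtain ⟨T, hT, hTx⟩ : ∃ T ∈ S, ¬ VanishesAt T (Projectivization.mk ℂ x hx) := by
    by_contra hcon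
    push Not at hcon
    exact hxB (by rw [hSB]; exact ⟨trivial, hcon⟩)
  obtain ⟨d, hd⟩ := hS T hT
  rw [Pool.Agent.H17.vanishesAt_mk_iff hd] at hTx
  have h1 : ∀ᶠ x' in 𝓝 x, eval x' T ≠ 0 :=
    (MvPolynomial.continuous_eval T).continuousAt.eventually_ne hTx
  filter_upwards [h1] with x' hx1 hx' hcon
  rw [hSB] at hcon
  have h2 := hcon.2 T hT
  rw [Pool.Agent.H17.vanishesAt_mk_iff hd] at h2
  exact hx1 h2

/-- The morphism in affine coordinates. -/
theorem morph_eq_aff {N M m s q : ℕ} {P : Ideal (MvPolynomial (Fin (M + 1)) ℂ)}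
    {G : Fin m → MvPolynomial (Fin (M + 1)) ℂ} {I : Ideal (MvPolynomial (Fin (N + 1)) ℂ)}
    {F : Fin s → Fin (M + 1) → MvPolynomial (Fin (N + 1)) ℂ}
    (h : RamifiedMorphism q P G I ∅ ∅ F) {x : Fin (N + 1) → ℂ} (hx : x ∈ Zer I) (hx0 : x ≠ 0)
    {α : Fin s} {b : Fin (M + 1)} (hb : eval x (F α b) ≠ 0) {y : Fin (M + 1) → ℂ}
    (hy : aff (F α) b x = y) (hy0 : y ≠ 0) :
    morph F (Projectivization.mk ℂ x hx0) = Projectivization.mk ℂ y hy0 := by
  have hα : (fun a => eval x (F α a)) ≠ 0 := fun h0 => hb (congrFun h0 b)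
  rw [morph_mk h.morphism hx0 hx hα, Projectivization.mk_eq_mk_iff']
  refine ⟨eval x (F α b), ?_⟩
  funext a
  rw [Pi.smul_apply, smul_eq_mul, ← hy]
  exact mul_div_cancel₀ _ hb

theorem count_at {M r : ℕ} (hr : 1 ≤ r) (P : Ideal (MvPolynomial (Fin (M + 1)) ℂ))
    [P.IsPrime] (hP : Homog P) (hzP : ∃ z : Fin r → FunField P, IsTranscendenceBasis ℂ z) :
    ∃ κ : ℕ, ∀ (m : ℕ) (G : Fin m → MvPolynomial (Fin (M + 1)) ℂ),
      (∀ j, ∃ d, (G j).IsHomogeneous d) → (∀ i j, i ≠ j → ∀ c : ℂ, G i - C c * G j ∉ P) →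
      (∀ j, IntegralSection P (G j)) →
      ∀ (N s q : ℕ) (I : Ideal (MvPolynomial (Fin (N + 1)) ℂ)) [I.IsPrime] (B : Set (PN N))
        (F : Fin s → Fin (M + 1) → MvPolynomial (Fin (N + 1)) ℂ),
        (∃ z : Fin r → FunField I, IsTranscendenceBasis ℂ z) →
        RamifiedMorphism q P G I ∅ ∅ F → ZariskiClosedIn Set.univ B →
        (∀ x ∈ variety I \ B, ∀ j, PullbackMult 2 I F (G j) x) →
        ∀ y ∈ variety P, (∀ x ∈ variety I, morph F x = y →
          x ∉ B ∧ Module.finrank ℂ (conTan I x.rep) ≤ r + 1) →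
        {j | VanishesAt (G j) y}.ncard ≤ κ := by
  classical
  obtain ⟨n, rfl⟩ : ∃ n, r = n + 1 := ⟨r - 1, by omega⟩
  have hlift : ∀ b : Fin (M + 1), ∃ (d : ℕ) (B : Fin (n + 1) → MvPolynomial (Fin (M + 1)) ℂ),
      X b ∉ P → ∀ y ∈ Zer P, y b = 1 → ∃ L : ℝ,
        ∀ V ∈ 𝓝 y, ∀ᶠ z in 𝓝 (fun a => eval y (B a)), ∃ y' ∈ V, y' ∈ Zer P ∧ y' b = 1 ∧
          (∀ a, eval y' (B a) = z a) ∧ ‖y' - y‖ ^ d ≤ L * ‖z - fun a => eval y (B a)‖ := by
    intro b
    by_cases hb : X b ∈ P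
    · exact ⟨0, fun _ => 0, fun h => absurd hb h⟩
    · obtain ⟨d, B, h⟩ := exists_lift3 hP hzP hb
      exact ⟨d, B, fun _ => h⟩
  choose d B hlift using hlift
  refine ⟨2 * (n + 1) * (∑ b, d b) + 1, ?_⟩
  intro m G hGh hne hint N s q I _ S F hz h hS hmult x hx hsm
  by_contra hcon
  push Not at hcon
  -- a representative
  obtain ⟨b, hb⟩ : ∃ b, x.rep b ≠ 0 := Function.ne_iff.1 x.rep_nonzero
  obtain ⟨y, hydef⟩ : ∃ y : Fin (M + 1) → ℂ, y = (x.rep b)⁻¹ • x.rep := ⟨_, rfl⟩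
  have hyb : y b = 1 := by
    rw [hydef, Pi.smul_apply, smul_eq_mul, inv_mul_cancel₀ hb]
  have hrepP : ∀ T ∈ P, eval x.rep T = 0 := by
    intro T hT
    rw [← sum_homogeneousComponent T, map_sum]
    exact Finset.sum_eq_zero fun e _ => hx _ (hP T hT e) e (homogeneousComponent_isHomogeneous e T)
  have hy : y ∈ Zer P := by
    rw [hydef]
    exact Pool.Agent.H13.SM.cone_smul hP hrepP _
  have hXb : X b ∉ P := by
    intro h1
    have h2 := hy _ h1
    rw [eval_X, hyb] at h2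
    exact one_ne_zero h2
  -- the forms through the point
  have hcard : 2 * (n + 1) * (∑ b, d b) + 2 ≤
      (Finset.univ.filter fun j => VanishesAt (G j) x).card := by
    have h1 : {j | VanishesAt (G j) x}.ncard =
        (Finset.univ.filter fun j => VanishesAt (G j) x).card := by
      rw [← Set.ncard_coe_finset]
      congr 1
      ext j
      simp
    omega
  obtain ⟨T, hT, hTc⟩ := Finset.exists_subset_card_eq hcard
  obtain ⟨k, hk, ι, hι, hιT⟩ : ∃ k, k = 2 * (n + 1) * (∑ b, d b) + 2 ∧ ∃ ι : Fin k → Fin m,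
      Function.Injective ι ∧ ∀ i, VanishesAt (G (ι i)) x :=
    ⟨_, rfl, T.orderEmbOfFin hTc, (T.orderEmbOfFin hTc).injective, fun i =>
      (Finset.mem_filter.1 (hT (Finset.orderEmbOfFin_mem T hTc i))).2⟩
  obtain ⟨G', hG'⟩ : ∃ G' : Fin k → MvPolynomial (Fin (M + 1)) ℂ, G' = fun i => G (ι i) :=
    ⟨_, rfl⟩
  have hG'h : ∀ j, ∃ d, (G' j).IsHomogeneous d := by
    rw [hG']
    exact fun j => hGh _
  have hG'y : ∀ j, eval y (G' j) = 0 := by
    intro j
    obtain ⟨e, he⟩ := hG'h j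
    have h1 : eval x.rep (G' j) = 0 := by
      rw [hG']
      exact hιT j
    have h2 := Pool.Agent.H17.eval_smul_of_isHomogeneous he (x.rep b)⁻¹ x.rep
    rw [h1, mul_zero] at h2
    rw [hydef]
    exact h2
  have hG'ne : ∀ i j, i ≠ j → ∀ c : ℂ, G' i - C c * G' j ∉ P := by
    rw [hG']
    exact fun i j hij => hne _ _ fun h => hij (hι h)
  have hG'P : ∀ j, G' j ∉ P := by
    intro j
    obtain ⟨i, hi⟩ : ∃ i : Fin k, i ≠ j := by
      have : Nontrivial (Fin k) := Fin.nontrivial_iff_two_le.2 (by omega)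
      exact exists_ne j
    have h1 := hG'ne j i (Ne.symm hi) 0
    rwa [C_0, zero_mul, sub_zero] at h1
  have hG'int : ∀ j, IntegralSection P (G' j) := by
    rw [hG']
    exact fun j => hint _
  have h' : RamifiedMorphism q P G' I ∅ ∅ F := by
    rw [hG']
    exact ⟨h.homog, h.closedB, h.closedZ, h.morphism, h.maps, h.finite, fun x hx j =>
      h.mult x hx (ι j)⟩
  obtain ⟨hTD, hTD1⟩ := TD_cone hP ⟨b, hXb⟩ hzP
  have hTD1' : ¬ TD P 1 := fun h1 => hTD1 (h1.mono (by omega))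
  obtain ⟨L, hL⟩ := hlift b hXb y hy hyb
  have hy0 : y ≠ 0 := by
    intro h1
    rw [h1, Pi.zero_apply] at hyb
    exact zero_ne_one hyb
  have hmky : Projectivization.mk ℂ y hy0 = x := by
    conv_rhs => rw [← x.mk_rep]
    rw [Projectivization.mk_eq_mk_iff']
    exact ⟨_, hydef.symm⟩
  -- the points over `y`
  have hover : ∀ x' ∈ Zer I, ∀ hx'0 : x' ≠ 0, ∀ α, eval x' (F α b) ≠ 0 → aff (F α) b x' = y →
      Projectivization.mk ℂ x' hx'0 ∉ S ∧ Module.finrank ℂ (conTan I x') ≤ n + 1 + 1 := by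
    intro x' hx' hx'0 α hb' haff
    have h1 : Projectivization.mk ℂ x' hx'0 ∈ variety I := by
      intro Q hQ e he
      rw [Pool.Agent.H17.vanishesAt_mk_iff he]
      exact hx' Q hQ
    obtain ⟨h2, h3⟩ := hsm _ h1 ((morph_eq_aff h' hx' hx'0 hb' haff hy0).trans hmky)
    refine ⟨h2, ?_⟩
    obtain ⟨c, hc, hrep⟩ := Pool.Agent.H17.exists_smul_rep x' hx'0
    have h4 : (Projectivization.mk ℂ x' hx'0).rep = c • x' := hrep
    rwa [h4, conTan_smul h'.homog hc] at h3
  -- the pieces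
  have hpiece : ∀ W : (Fin (n + 1) → ℂ) → Fin (M + 1) → ℂ, ∃ (U : Set (Fin (n + 1) → ℂ)) (C : ℝ),
      IsPiece I F b y W → IsOpen U ∧ (0 : Fin (n + 1) → ℂ) ∈ U ∧ Bornology.IsBounded U ∧
        (∀ u ∈ U, AnalyticAt ℂ W u) ∧
        ∀ u ∈ U, ‖(fderiv ℂ (fun u' a => eval (W u') (B b a)) u).det‖ ^ 2 ≤
          C * ∏ j, ‖eval (W u) (G' j)‖ := by
    intro W
    by_cases hW : IsPiece I F b y W
    · obtain ⟨x', l, J, σ, α, hc, hb', hWσ, hW0⟩ := hW
      have hx' : x' ∈ Zer I := by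
        have h1 := hc.coord.self_of_nhds.1
        rwa [hc.zero] at h1
      have hx'0 : x' ≠ 0 := fun h1 => hc.ne (by rw [h1]; rfl)
      have haff : aff (F α) b x' = y := by
        rw [hWσ] at hW0
        simp only [hc.zero] at hW0
        exact hW0
      have hm : ∀ᶠ u in 𝓝 0, ∀ (hu : σ u ≠ 0) (j : Fin k),
          PullbackMult 2 I F (G' j) (Projectivization.mk ℂ (σ u) hu) := by
        have h1 := Count3_notMem hS hx'0 (hover x' hx' hx'0 α hb' haff).1
        have h2 : Filter.Tendsto σ (𝓝 0) (𝓝 x') := by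
          have h3 := hc.an.continuousAt.tendsto
          rwa [hc.zero] at h3
        filter_upwards [h2.eventually h1, hc.coord] with u h3 h4 hu j
        rw [hG']
        refine hmult _ ⟨?_, h3 hu⟩ _
        intro Q hQ e he
        rw [Pool.Agent.H17.vanishesAt_mk_iff he]
        exact h4.1 Q hQ
      obtain ⟨C, -, hC⟩ := jac_bound3 hP hTD hTD1' h' hz hzP hG'h hG'P hG'ne hG'int hc hb' hm
        (B b)
      have han : ∀ᶠ u in 𝓝 (0 : Fin (n + 1) → ℂ), AnalyticAt ℂ W u := by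
        refine AnalyticAt.eventually_analyticAt ?_
        rw [hWσ]
        refine analyticAt_aff hc.an ?_
        rw [hc.zero]
        exact hb'
      obtain ⟨ρ, hρ, hball⟩ := Metric.eventually_nhds_iff_ball.1 (han.and hC)
      refine ⟨Metric.ball 0 ρ, C, fun _ => ⟨Metric.isOpen_ball, Metric.mem_ball_self hρ,
        Metric.isBounded_ball, fun u hu => (hball u hu).1, fun u hu => ?_⟩⟩
      rw [hWσ]
      exact (hball u hu).2
    · exact ⟨∅, 0, fun h => absurd h hW⟩
  choose U C hUC using hpiece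
  obtain ⟨t, W, hW, hcov⟩ := exists_cover3 (n := n + 1) (b := b) (y := y) h' hz
    (fun x' hx' hx'0 α hb' haff => (hover x' hx' hx'0 α hb' haff).2)
    (fun y' hy' hyb' => exists_pre hP h' (by omega) hz hzP hy' hyb') U
    (fun W hW => (hUC W hW).1.mem_nhds (hUC W hW).2.1)
  have hfinal := card_le_of_vol3 (d := d b) (by omega) (W := W) (y := y) (B b) G' hG'y
    (U := fun i => U (W i)) (fun i => (hUC _ (hW i)).1) (fun i => (hUC _ (hW i)).2.2.1)
    (fun i => (hUC _ (hW i)).2.2.2.1) (C := fun i => C (W i))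
    (fun i => (hUC _ (hW i)).2.2.2.2) (L := L) (by
      filter_upwards [hL _ hcov] with z hz
      obtain ⟨y', hy'V, hy'P, hy'b, hy'B, hy'L⟩ := hz
      obtain ⟨i, u, hu, huy⟩ := hy'V hy'P hy'b
      exact ⟨i, u, hu, fun a => by rw [huy]; exact hy'B a, by rw [huy]; exact hy'L⟩)
  have h5 : d b ≤ ∑ b, d b := Finset.single_le_sum (fun _ _ => Nat.zero_le _) (Finset.mem_univ b)
  have h6 : 2 * (n + 1) * d b ≤ 2 * (n + 1) * ∑ b, d b := Nat.mul_le_mul_left _ h5
  omega

end Pool.Agent.H39.SY
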