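import Pool.Agent.H5.DG3.Into
import Pool.Agent.H5.DG3.Points
import Pool.Agent.H5.DG2.IntSec
import Pool.Agent.H13.SM.Cone

/-!
# Project SY: smooth varieties with a finite morphism onto a fixed variety

Definitions.  `X` is the projective variety given by `I`, `Y` the projective variety given by `P`,
`F` is a finite morphism from `X` to `Y`.
-/

open MvPolynomial Filter Topology
open Pool.Agent.H17LG.Variety (FunField)
open Pool.Agent.H13.SM (conTan)
open Pool.Agent.H5.DG (Homog)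

noncomputable section

namespace Pool.Agent.H39.SY

variable {N M n s : ℕ}

/-- The cone of the variety given by `I`. -/
def Zer (I : Ideal (MvPolynomial (Fin (N + 1)) ℂ)) : Set (Fin (N + 1) → ℂ) :=
  {x | ∀ Q ∈ I, eval x Q = 0}

/-- The affine coordinates of the image of `x` under the tuple `F`; the coordinate `b` is `1`. -/
def aff (F : Fin (M + 1) → MvPolynomial (Fin (N + 1)) ℂ) (b : Fin (M + 1))
    (x : Fin (N + 1) → ℂ) : Fin (M + 1) → ℂ := fun a => eval x (F a) / eval x (F b)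

/-- `σ` is a chart of the variety at `x`, `x l ≠ 0`, with linear coordinates. -/
structure Chart (I : Ideal (MvPolynomial (Fin (N + 1)) ℂ)) (x : Fin (N + 1) → ℂ)
    (l : Fin (N + 1)) (J : Fin n → Fin (N + 1)) (σ : (Fin n → ℂ) → Fin (N + 1) → ℂ) : Prop where
  ne : x l ≠ 0
  an : AnalyticAt ℂ σ 0
  zero : σ 0 = x
  coord : ∀ᶠ u in 𝓝 0, σ u ∈ Zer I ∧ σ u l = x l ∧ ∀ k, σ u (J k) = x (J k) + x l * u k
  near : ∀ᶠ y in 𝓝 x, y ∈ Zer I →
    y = (y l / x l) • σ (fun k => y (J k) / y l - x (J k) / x l)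
  nz : ∀ (d : ℕ) (Q : MvPolynomial (Fin (N + 1)) ℂ), Q.IsHomogeneous d → Q ∉ I →
    ¬ ∀ᶠ u in 𝓝 0, eval (σ u) Q = 0

/-- `W` is a local expression of the morphism given by the tuples `F α` at a point over `y`. -/
def IsPiece (I : Ideal (MvPolynomial (Fin (N + 1)) ℂ))
    (F : Fin s → Fin (M + 1) → MvPolynomial (Fin (N + 1)) ℂ) (b : Fin (M + 1))
    (y : Fin (M + 1) → ℂ) (W : (Fin n → ℂ) → Fin (M + 1) → ℂ) : Prop :=
  ∃ (x : Fin (N + 1) → ℂ) (l : Fin (N + 1)) (J : Fin n → Fin (N + 1))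
    (σ : (Fin n → ℂ) → Fin (N + 1) → ℂ) (α : Fin s), Chart I x l J σ ∧ eval x (F α b) ≠ 0 ∧
    (W = fun u => aff (F α) b (σ u)) ∧ W 0 = y

end Pool.Agent.H39.SY
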