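import Pool.Agent.H5.DG2.IntSec
import Pool.Agent.H5.DG2.TrLt

/-!
# Project SY, module Distinct: different sections have different supports

`Q` is the prime ideal of the section `G = 0`, `Q'` that of `G' = 0`.  Suppose `G' ∈ Q`.  Then
`Q' ≤ Q` (`X i ^ k * T ∈ P ⊔ span {G'} ≤ Q` for `T ∈ Q'`, with `X i ∉ Q`), and `Q' = Q`: otherwise
`P < Q' < Q` (`G' ∉ P`), but in the domain `ℂ[y] ⧸ P` the prime `Q ⧸ P` is minimal over the principal
ideal `(G)` (a prime `𝔭` with `P ⊔ span {G} ≤ 𝔭 ≤ Q` contains `Q` by `hsat`, as `X i ∉ Q`), so its height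
is at most `1` (Krull's Hauptidealsatz, `Ideal.height_le_one_of_isPrincipal_of_mem_minimalPrimes`).
So `G ∈ Q'`: for every `j` there are `k` and `h'` with `X j ^ k * G - h' * G' ∈ P`, and the same with
`G`, `G'` exchanged.  Let `S = ℂ[y] ⧸ P`, `L` its field of fractions.  We may suppose `e ≤ e'` (the
hypotheses are symmetric), `δ = e' - e`.  Let `X i ∉ P`.  The element `t = X i ^ δ * G / G'` of `L`
satisfies: for all `j` some `X j ^ k * t` is in the image of the forms of degree `k` (`P` is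
homogeneous: replace `h'` by a homogeneous component); so there is `K` (`K ≥ (M + 1) k`: every monomial
of degree `K` is divisible by some `X j ^ k`) such that multiplication by `t` maps the image `S_K` of
the forms of degree `K` to itself, so `t` is a root of a monic polynomial over `ℂ` (Cayley–Hamilton,
`S_K ≠ 0` is finite dimensional; or `isIntegral_of_smul_mem_submodule`), so `t = c ∈ ℂ`:
`X i ^ δ * G - c G' ∈ P`.  If `δ = 0` this contradicts `hne`.  If `δ > 0`: for all `i` there is `c i` with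
`X i ^ δ * G - c i * G' ∈ P`, so `c i' * X i ^ δ - c i * X i' ^ δ ∈ P` (`G ∉ P`, `P` is prime), some
`c i ≠ 0` (`X i ∉ P`), so for all `i'` the form `X i' ^ δ - c X i ^ δ ∈ P` for some `c`, so all `X i'`
are modulo `P` multiples of `X i` (the factors of `X i' ^ δ - c X i ^ δ` are linear), so `TD P 1`, which
contradicts `hdim`.
-/

open MvPolynomial
open Pool.Agent.H5.DG (Homog TD)

noncomputable section

namespace Pool.Agent.H39.SY

/-- Homogeneous components of a product with a form. -/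
private theorem Distinct_hc_mul {M : ℕ} {e' m : ℕ} {h G' : MvPolynomial (Fin (M + 1)) ℂ}
    (hG' : G'.IsHomogeneous e') :
    homogeneousComponent (m + e') (h * G') = homogeneousComponent m h * G' := by
  have h0 : ∀ i, homogeneousComponent (m + e') (homogeneousComponent i h * G') =
      if i = m then homogeneousComponent m h * G' else 0 := by
    intro i
    have h1 : homogeneousComponent i h * G' ∈ homogeneousSubmodule (Fin (M + 1)) ℂ (i + e') :=
      (homogeneousComponent_isHomogeneous i h).mul hG'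
    rw [homogeneousComponent_of_mem h1]
    by_cases him : i = m
    · subst him
      simp
    · rw [if_neg (by omega), if_neg him]
  conv_lhs => rw [← sum_homogeneousComponent h, Finset.sum_mul, map_sum]
  rw [Finset.sum_congr rfl fun i _ => h0 i]
  rw [Finset.sum_ite_eq' (Finset.range (h.totalDegree + 1)) m]
  split_ifs with hm
  · rfl
  · rw [homogeneousComponent_eq_zero m h (by
      rw [Finset.mem_range, not_lt] at hm; omega), zero_mul]

/-- An integral element of a domain over `ℂ` is a constant. -/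
private theorem Distinct_const {L : Type} [Field L] [Algebra ℂ L] {t : L} (ht : IsIntegral ℂ t) :
    ∃ c : ℂ, algebraMap ℂ L c = t := by
  have h1 : Irreducible (minpoly ℂ t) := minpoly.irreducible ht
  have h2 := IsAlgClosed.degree_eq_one_of_irreducible ℂ h1
  exact minpoly.mem_range_of_degree_eq_one ℂ t h2

/-- Krull's principal ideal theorem: the two primes agree. -/
private theorem Distinct_eq {M : ℕ} {P Q Q' : Ideal (MvPolynomial (Fin (M + 1)) ℂ)}
    (hPp : P.IsPrime) (hQp : Q.IsPrime) (hQ'p : Q'.IsPrime)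
    {G G' : MvPolynomial (Fin (M + 1)) ℂ} (hGP' : G' ∉ P) (hPQ : P ≤ Q) (hGQ : G ∈ Q)
    (hPQ' : P ≤ Q') (hGQ' : G' ∈ Q') (hX : ∃ i, X i ∉ Q)
    (hsat : ∀ T ∈ Q, ∀ i, ∃ k : ℕ, X i ^ k * T ∈ P ⊔ Ideal.span {G}) (hle : Q' ≤ Q) :
    Q' = Q := by
  by_contra hne
  have hlt : Q' < Q := lt_of_le_of_ne hle hne
  obtain ⟨i, hi⟩ := hX
  set π := Ideal.Quotient.mk P with hπ
  have hsurj : Function.Surjective π := Ideal.Quotient.mk_surjective
  have hker : RingHom.ker π = P := Ideal.mk_ker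
  have hcm : ∀ J : Ideal (MvPolynomial (Fin (M + 1)) ℂ), P ≤ J → (J.map π).comap π = J := by
    intro J hJ
    rw [Ideal.comap_map_of_surjective' π hsurj, hker, sup_eq_left.2 hJ]
  have hq : (Q.map π).IsPrime := Ideal.map_isPrime_of_surjective hsurj (by rw [hker]; exact hPQ)
  have hq' : (Q'.map π).IsPrime :=
    Ideal.map_isPrime_of_surjective hsurj (by rw [hker]; exact hPQ')
  have hlt1 : Q'.map π < Q.map π := by
    refine lt_of_le_of_ne (Ideal.map_mono hle) fun h => ?_
    have h1 := congrArg (Ideal.comap π) h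
    rw [hcm Q' hPQ', hcm Q hPQ] at h1
    exact hne h1
  have hlt0 : (⊥ : Ideal (MvPolynomial (Fin (M + 1)) ℂ ⧸ P)) < Q'.map π := by
    refine lt_of_le_of_ne bot_le fun h => ?_
    have h1 : π G' ∈ Q'.map π := Ideal.mem_map_of_mem π hGQ'
    rw [← h, Ideal.mem_bot, Ideal.Quotient.eq_zero_iff_mem] at h1
    exact hGP' h1
  have hmin : Q.map π ∈ (Ideal.span {π G}).minimalPrimes := by
    refine ⟨⟨hq, ?_⟩, ?_⟩
    · rw [Ideal.span_singleton_le_iff_mem]
      exact Ideal.mem_map_of_mem π hGQ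
    · rintro J ⟨hJ, hGJ⟩ hJQ
      rw [Ideal.map_le_iff_le_comap]
      intro T hT
      obtain ⟨k, hk⟩ := hsat T hT i
      have h1 : π (X i ^ k * T) ∈ J := by
        have h2 : (P ⊔ Ideal.span {G}).map π ≤ J := by
          rw [Ideal.map_sup, Ideal.map_span, Set.image_singleton]
          refine sup_le ?_ hGJ
          rw [Ideal.map_le_iff_le_comap]
          intro p hp
          show π p ∈ J
          rw [Ideal.Quotient.eq_zero_iff_mem.2 hp]
          exact J.zero_mem
        exact h2 (Ideal.mem_map_of_mem π hk)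
      rw [map_mul, map_pow] at h1
      rcases hJ.mem_or_mem h1 with h2 | h2
      · exfalso
        have h3 : π (X i) ∈ Q.map π := hJQ (hJ.mem_of_pow_mem k h2)
        have h4 : X i ∈ (Q.map π).comap π := h3
        rw [hcm Q hPQ] at h4
        exact hi h4
      · exact h2
  have : (Ideal.span {π G}).IsPrincipal := ⟨π G, rfl⟩
  have hh1 : (Q.map π).height ≤ 1 :=
    Ideal.height_le_one_of_isPrincipal_of_mem_minimalPrimes _ _ hmin
  have hbot : (⊥ : Ideal (MvPolynomial (Fin (M + 1)) ℂ ⧸ P)).IsPrime := Ideal.isPrime_bot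
  have hh2 := Ideal.height_add_one_le_of_lt_of_isPrime hlt0
  have hh3 := Ideal.height_add_one_le_of_lt_of_isPrime hlt1
  have hh4 : (⊥ : Ideal (MvPolynomial (Fin (M + 1)) ℂ ⧸ P)).height + 1 + 1 ≤ 1 :=
    (add_le_add_left hh2 1).trans (hh3.trans hh1)
  rw [Ideal.height_bot, zero_add] at hh4
  exact absurd hh4 (by decide)

/-- If all coordinates are multiples of one coordinate, the dimension is at most one. -/
private theorem Distinct_TD {M : ℕ} {P : Ideal (MvPolynomial (Fin (M + 1)) ℂ)}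
    (i₀ : Fin (M + 1)) (h : ∀ i, ∃ a : ℂ, X i - C a * X i₀ ∈ P) : TD P 1 := by
  intro f hf
  choose a ha using h
  let x := Ideal.Quotient.mkₐ ℂ P (X i₀)
  let ψ : Polynomial ℂ →ₐ[ℂ] (MvPolynomial (Fin (M + 1)) ℂ ⧸ P) := Polynomial.aeval x
  have hψ : Function.Surjective ψ := by
    intro s
    obtain ⟨p, rfl⟩ := Ideal.Quotient.mkₐ_surjective ℂ P s
    refine ⟨aeval (fun i => Polynomial.C (a i) * Polynomial.X) p, ?_⟩
    have h1 : ψ.comp (aeval (fun i => Polynomial.C (a i) * Polynomial.X)) =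
        Ideal.Quotient.mkₐ ℂ P := by
      refine MvPolynomial.algHom_ext fun i => ?_
      rw [AlgHom.comp_apply, aeval_X, map_mul]
      show ψ (Polynomial.C (a i)) * ψ Polynomial.X = _
      have h2 : ψ Polynomial.X = x := Polynomial.aeval_X x
      have h3 : ψ (Polynomial.C (a i)) = Ideal.Quotient.mkₐ ℂ P (C (a i)) := by
        have h4 : ψ (Polynomial.C (a i)) = algebraMap ℂ _ (a i) := Polynomial.aeval_C x (a i)
        rw [h4]
        rfl
      rw [h2, h3, ← map_mul, eq_comm, ← sub_eq_zero, ← map_sub]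
      exact Ideal.Quotient.eq_zero_iff_mem.2 (ha i)
    exact congrArg (fun φ => φ p) h1
  choose q hq using hψ
  have h1 : AlgebraicIndependent ℂ fun i => q (Ideal.Quotient.mkₐ ℂ P (f i)) := by
    refine AlgebraicIndependent.of_comp ψ ?_
    have h2 : (⇑ψ ∘ fun i => q (Ideal.Quotient.mkₐ ℂ P (f i))) =
        fun i => Ideal.Quotient.mkₐ ℂ P (f i) := by
      funext i
      exact hq _
    rw [h2]
    exact hf
  have h2 := h1.cardinalMk_le_trdeg
  rw [Polynomial.trdeg_of_isDomain, Cardinal.mk_fin] at h2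
  have h3 : (1 + 1 : ℕ) ≤ 1 := by exact_mod_cast h2
  omega

/-- The main step: a rational function which is regular in this sense is a constant. -/
private theorem Distinct_frac {M e δ : ℕ} {P : Ideal (MvPolynomial (Fin (M + 1)) ℂ)}
    (hPp : P.IsPrime) (hP : Homog P) {G G' : MvPolynomial (Fin (M + 1)) ℂ}
    (hG : G.IsHomogeneous e) (hG' : G'.IsHomogeneous (e + δ)) (hGP' : G' ∉ P)
    {i₀ : Fin (M + 1)} (hi₀ : X i₀ ∉ P)
    (hcov : ∀ j, ∃ k : ℕ, ∃ h : MvPolynomial (Fin (M + 1)) ℂ, X j ^ k * G - h * G' ∈ P)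
    (i : Fin (M + 1)) : ∃ c : ℂ, X i ^ δ * G - C c * G' ∈ P := by
  choose k0 h0 hk0 using hcov
  obtain ⟨k, hkδ, hk⟩ : ∃ k : ℕ, δ ≤ k ∧ ∀ j, k0 j ≤ k := by
    refine ⟨δ + ∑ j, k0 j, by omega, fun j => ?_⟩
    exact (Finset.single_le_sum (f := k0) (fun _ _ => Nat.zero_le _) (Finset.mem_univ j)).trans
      (by omega)
  have hcov1 : ∀ j, ∃ h : MvPolynomial (Fin (M + 1)) ℂ, h.IsHomogeneous (k - δ) ∧
      X j ^ k * G - h * G' ∈ P := by
    intro j
    refine ⟨homogeneousComponent (k - δ) (X j ^ (k - k0 j) * h0 j),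
      homogeneousComponent_isHomogeneous _ _, ?_⟩
    have h1 : X j ^ k * G - (X j ^ (k - k0 j) * h0 j) * G' ∈ P := by
      have h2 : X j ^ k * G - (X j ^ (k - k0 j) * h0 j) * G' =
          X j ^ (k - k0 j) * (X j ^ (k0 j) * G - h0 j * G') := by
        have h3 : (X j : MvPolynomial (Fin (M + 1)) ℂ) ^ k =
            X j ^ (k - k0 j) * X j ^ (k0 j) := by
          rw [← pow_add]; congr 1; have := hk j; omega
        rw [h3]; ring
      rw [h2]
      exact P.mul_mem_left _ (hk0 j)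
    have h4 := hP _ h1 (k - δ + (e + δ))
    rw [map_sub, Distinct_hc_mul hG'] at h4
    have h5 : (X j ^ k * G).IsHomogeneous (k - δ + (e + δ)) := by
      have h6 := ((isHomogeneous_X ℂ j).pow k).mul hG
      have h7 : 1 * k + e = k - δ + (e + δ) := by omega
      rw [h7] at h6
      exact h6
    rw [homogeneousComponent_eq_self h5] at h4
    exact h4
  choose h hhom hcov2 using hcov1
  let S := MvPolynomial (Fin (M + 1)) ℂ ⧸ P
  let L := FractionRing S
  let ι : MvPolynomial (Fin (M + 1)) ℂ →ₐ[ℂ] L :=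
    (IsScalarTower.toAlgHom ℂ S L).comp (Ideal.Quotient.mkₐ ℂ P)
  have hι : ∀ p, ι p = 0 ↔ p ∈ P := by
    intro p
    have h1 : ι p = algebraMap S L (Ideal.Quotient.mk P p) := rfl
    rw [h1, (IsFractionRing.injective S L).eq_iff' (map_zero _), Ideal.Quotient.eq_zero_iff_mem]
  have hg' : ι G' ≠ 0 := fun hh => hGP' ((hι _).1 hh)
  let K := (M + 1) * k
  let t : L := ι (X i) ^ δ * ι G / ι G'
  let N : Submodule ℂ L := Submodule.span ℂ
    ((fun d : Fin (M + 1) →₀ ℕ => ι (monomial d 1)) '' {d | d.degree = K})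
  have hNmem : ∀ p : MvPolynomial (Fin (M + 1)) ℂ, p.IsHomogeneous K → ι p ∈ N := by
    intro p hp
    rw [p.as_sum, map_sum]
    refine N.sum_mem fun d hd => ?_
    have h1 : monomial d (coeff d p) = coeff d p • monomial d (1 : ℂ) := by
      rw [smul_monomial, smul_eq_mul, mul_one]
    rw [h1, map_smul]
    refine N.smul_mem _ (Submodule.subset_span ⟨d, ?_, rfl⟩)
    have h2 := hp (mem_support_iff.1 hd)
    rw [Finsupp.degree_eq_weight_one]
    exact h2
  have hfin : {d : Fin (M + 1) →₀ ℕ | d.degree = K}.Finite := by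
    have h1 : {d : Fin (M + 1) →₀ ℕ | d.degree = K} ⊆ {d | d.degree ≤ K} := fun d hd => by
      have h2 : d.degree = K := hd
      exact h2.le
    exact (Finsupp.finite_of_degree_le K).subset h1
  have hNfg : N.FG := Submodule.fg_span (hfin.image _)
  have hN0 : N ≠ ⊥ := by
    intro hN
    have h1 : ι (X i₀ ^ K) ∈ N := hNmem _ (by
      have h2 := (isHomogeneous_X ℂ i₀).pow K
      rw [one_mul] at h2
      exact h2)
    rw [hN, Submodule.mem_bot, hι] at h1
    exact hi₀ (hPp.mem_of_pow_mem K h1)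
  have hNt : ∀ n ∈ N, t • n ∈ N := by
    intro n hn
    induction hn using Submodule.span_induction with
    | zero => rw [smul_zero]; exact N.zero_mem
    | add a b _ _ ha hb => rw [smul_add]; exact N.add_mem ha hb
    | smul c a _ ha => rw [smul_comm]; exact N.smul_mem _ ha
    | mem a ha =>
      obtain ⟨d, hd, rfl⟩ := ha
      have hd1 : d.degree = K := hd
      obtain ⟨j, hj⟩ : ∃ j, k ≤ d j := by
        by_contra hcon
        push Not at hcon
        have h1 : ∑ j, d j < ∑ _j : Fin (M + 1), k :=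
          Finset.sum_lt_sum_of_nonempty Finset.univ_nonempty fun j _ => hcon j
        rw [Finset.sum_const, Finset.card_univ, Fintype.card_fin, smul_eq_mul] at h1
        rw [Finsupp.degree_eq_sum] at hd1
        omega
      have h2 : monomial d (1 : ℂ) = X j ^ k * monomial (d - Finsupp.single j k) 1 := by
        rw [X_pow_eq_monomial, monomial_mul, one_mul]
        congr 2
        exact (add_tsub_cancel_of_le (Finsupp.single_le_iff.2 hj)).symm
      have h3 : t • ι (monomial d 1) =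
          ι (X i ^ δ * h j * monomial (d - Finsupp.single j k) 1) := by
        have h4 : ι (X j) ^ k * ι G = ι (h j) * ι G' := by
          have h5 := (hι _).2 (hcov2 j)
          rw [map_sub, map_mul, map_mul, map_pow, sub_eq_zero] at h5
          exact h5
        rw [smul_eq_mul, h2, map_mul, map_mul, map_mul, map_pow, map_pow]
        show ι (X i) ^ δ * ι G / ι G' * _ = _
        rw [div_mul_eq_mul_div, div_eq_iff hg']
        linear_combination (ι (X i) ^ δ * ι (monomial (d - Finsupp.single j k) 1)) * h4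
      show t • ι (monomial d 1) ∈ N
      rw [h3]
      apply hNmem
      have h4 : (monomial (d - Finsupp.single j k) (1 : ℂ)).IsHomogeneous (K - k) := by
        apply isHomogeneous_monomial
        have h5 : (d - Finsupp.single j k + Finsupp.single j k).degree = K := by
          rw [tsub_add_cancel_of_le (Finsupp.single_le_iff.2 hj)]
          exact hd1
        rw [map_add, Finsupp.degree_single] at h5
        omega
      have h5 := (((isHomogeneous_X ℂ i).pow δ).mul (hhom j)).mul h4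
      have h6 : k ≤ K := Nat.le_mul_of_pos_left k (Nat.succ_pos M)
      have h7 : 1 * δ + (k - δ) + (K - k) = K := by omega
      rw [h7] at h5
      exact h5
  have hint : IsIntegral ℂ t := isIntegral_of_smul_mem_submodule N hN0 hNfg t hNt
  obtain ⟨c, hc⟩ := Distinct_const hint
  refine ⟨c, ?_⟩
  rw [← hι, map_sub, map_mul, map_mul, map_pow]
  have h1 : ι (C c) = algebraMap ℂ L c := ι.commutes c
  rw [h1, hc]
  show ι (X i) ^ δ * ι G - ι (X i) ^ δ * ι G / ι G' * ι G' = 0
  rw [div_mul_cancel₀ _ hg', sub_self]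

private theorem Distinct_core {M e δ : ℕ} {P : Ideal (MvPolynomial (Fin (M + 1)) ℂ)}
    (hPp : P.IsPrime) (hP : Homog P) (hdim : ¬ TD P 1) {G G' : MvPolynomial (Fin (M + 1)) ℂ}
    (hG : G.IsHomogeneous e) (hG' : G'.IsHomogeneous (e + δ)) (hGP : G ∉ P) (hGP' : G' ∉ P)
    (hne : ∀ c : ℂ, G - C c * G' ∉ P) {i₀ : Fin (M + 1)} (hi₀ : X i₀ ∉ P)
    (hcov : ∀ j, ∃ k : ℕ, ∃ h : MvPolynomial (Fin (M + 1)) ℂ, X j ^ k * G - h * G' ∈ P) :
    False := by
  have key := Distinct_frac hPp hP hG hG' hGP' hi₀ hcov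
  rcases Nat.eq_zero_or_pos δ with hδ | hδ
  · subst hδ
    obtain ⟨c, hc⟩ := key i₀
    rw [pow_zero, one_mul] at hc
    exact hne c hc
  · choose c hc using key
    have hc0 : c i₀ ≠ 0 := by
      intro h0
      have h1 := hc i₀
      rw [h0, C_0, zero_mul, sub_zero] at h1
      rcases hPp.mem_or_mem h1 with h2 | h2
      · exact hi₀ (hPp.mem_of_pow_mem δ h2)
      · exact hGP h2
    refine hdim (Distinct_TD i₀ fun i => ?_)
    have h1 : C (c i₀) * X i ^ δ - C (c i) * X i₀ ^ δ ∈ P := by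
      have h2 : (C (c i₀) * X i ^ δ - C (c i) * X i₀ ^ δ) * G ∈ P := by
        have h3 : (C (c i₀) * X i ^ δ - C (c i) * X i₀ ^ δ) * G =
            C (c i₀) * (X i ^ δ * G - C (c i) * G') -
              C (c i) * (X i₀ ^ δ * G - C (c i₀) * G') := by ring
        rw [h3]
        exact P.sub_mem (P.mul_mem_left _ (hc i)) (P.mul_mem_left _ (hc i₀))
      rcases hPp.mem_or_mem h2 with h3 | h3
      · exact h3
      · exact absurd h3 hGP
    let S := MvPolynomial (Fin (M + 1)) ℂ ⧸ P
    let L := FractionRing S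
    let ι : MvPolynomial (Fin (M + 1)) ℂ →ₐ[ℂ] L :=
      (IsScalarTower.toAlgHom ℂ S L).comp (Ideal.Quotient.mkₐ ℂ P)
    have hι : ∀ p, ι p = 0 ↔ p ∈ P := by
      intro p
      have h1 : ι p = algebraMap S L (Ideal.Quotient.mk P p) := rfl
      rw [h1, (IsFractionRing.injective S L).eq_iff' (map_zero _), Ideal.Quotient.eq_zero_iff_mem]
    have hx0 : ι (X i₀) ≠ 0 := fun hh => hi₀ ((hι _).1 hh)
    have hC : ∀ a : ℂ, ι (C a) = algebraMap ℂ L a := fun a => ι.commutes a
    have h2 : (ι (X i) / ι (X i₀)) ^ δ = algebraMap ℂ L (c i / c i₀) := by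
      have h3 := (hι _).2 h1
      rw [map_sub, map_mul, map_mul, map_pow, map_pow, hC, hC, sub_eq_zero] at h3
      have h4 : algebraMap ℂ L (c i₀) ≠ 0 := by
        rw [Ne, map_eq_zero]
        exact hc0
      rw [div_pow, map_div₀, div_eq_div_iff (pow_ne_zero _ hx0) h4]
      linear_combination h3
    have h3 : IsIntegral ℂ (ι (X i) / ι (X i₀)) :=
      IsIntegral.of_pow hδ (by rw [h2]; exact isIntegral_algebraMap)
    obtain ⟨a, ha⟩ := Distinct_const h3
    refine ⟨a, ?_⟩
    rw [← hι, map_sub, map_mul, hC, ha, div_mul_cancel₀ _ hx0, sub_self]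

theorem not_mem_of_ne {M e e' : ℕ} {P Q Q' : Ideal (MvPolynomial (Fin (M + 1)) ℂ)}
    (hPp : P.IsPrime) (hP : Homog P) (hdim : ¬ TD P 1) (hQp : Q.IsPrime) (hQ'p : Q'.IsPrime)
    {G G' : MvPolynomial (Fin (M + 1)) ℂ} (hG : G.IsHomogeneous e) (hG' : G'.IsHomogeneous e')
    (hGP : G ∉ P) (hGP' : G' ∉ P) (hne : ∀ c : ℂ, G - C c * G' ∉ P)
    (hne' : ∀ c : ℂ, G' - C c * G ∉ P) (hPQ : P ≤ Q) (hGQ : G ∈ Q) (hPQ' : P ≤ Q')
    (hGQ' : G' ∈ Q') (hX : ∃ i, X i ∉ Q) (hX' : ∃ i, X i ∉ Q')
    (hsat : ∀ T ∈ Q, ∀ i, ∃ k : ℕ, X i ^ k * T ∈ P ⊔ Ideal.span {G})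
    (hsat' : ∀ T ∈ Q', ∀ i, ∃ k : ℕ, X i ^ k * T ∈ P ⊔ Ideal.span {G'}) : G' ∉ Q := by
  intro hG'Q
  have hle : Q' ≤ Q := by
    intro T hT
    obtain ⟨i, hi⟩ := hX
    obtain ⟨k, hk⟩ := hsat' T hT i
    have h1 : P ⊔ Ideal.span {G'} ≤ Q :=
      sup_le hPQ ((Ideal.span_singleton_le_iff_mem Q).2 hG'Q)
    rcases hQp.mem_or_mem (h1 hk) with h2 | h2
    · exact absurd (hQp.mem_of_pow_mem k h2) hi
    · exact h2
  have heq : Q' = Q := Distinct_eq hPp hQp hQ'p hGP' hPQ hGQ hPQ' hGQ' hX hsat hle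
  subst heq
  obtain ⟨i₀, hi₀⟩ := hX
  have hi₀P : X i₀ ∉ P := fun h => hi₀ (hPQ h)
  have hcov : ∀ A B : MvPolynomial (Fin (M + 1)) ℂ,
      (∀ i, ∃ k : ℕ, X i ^ k * A ∈ P ⊔ Ideal.span {B}) →
      ∀ j, ∃ k : ℕ, ∃ h : MvPolynomial (Fin (M + 1)) ℂ, X j ^ k * A - h * B ∈ P := by
    intro A B hAB j
    obtain ⟨k, hk⟩ := hAB j
    rw [Submodule.mem_sup] at hk
    obtain ⟨p, hp, q, hq, hpq⟩ := hk
    rw [Ideal.mem_span_singleton'] at hq
    obtain ⟨a, rfl⟩ := hq
    refine ⟨k, a, ?_⟩
    rw [← hpq, add_sub_cancel_right]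
    exact hp
  rcases le_total e e' with hee | hee
  · obtain ⟨δ, rfl⟩ := Nat.exists_eq_add_of_le hee
    exact Distinct_core hPp hP hdim hG hG' hGP hGP' hne hi₀P (hcov G G' (hsat' G hGQ))
  · obtain ⟨δ, rfl⟩ := Nat.exists_eq_add_of_le hee
    exact Distinct_core hPp hP hdim hG' hG hGP' hGP hne' hi₀P (hcov G' G (hsat G' hG'Q))

end Pool.Agent.H39.SY
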