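import Pool.Agent.H5.DG2.IntSec
import Pool.Agent.H5.DG2.TrLt
import Pool.Agent.H13.SM.Grad

/-!
# Project SY, module GenSm: integral sections are generically smooth

`exists_jac`: for a prime ideal `Q` of transcendence degree at most `n` (`TD`, module DG2.TrLt) there is
`g ∉ Q` such that the tangent space at all zeros `y` of `Q` with `g (y) ≠ 0` has dimension at most `n`;
`g` is homogeneous if `Q` is.  PROOF.  `R = ℂ[y] ⧸ Q`, `K` its field of fractions.  The module
`Ω[K⁄ℂ]` has dimension `n' ≤ n` over `K` (characteristic zero; `Pool.Agent.H23.exists_basis_kaehler`),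
it is generated by the `d y i`, and the relations are generated by the `∑ i, (∂ f / ∂ y i) d y i`,
`f ∈ Q` (`KaehlerDifferential.exact_kerCotangentToTensor_mapBaseChange`, or: derivations `R → K` are
the vectors `v : Fin (M + 1) → K` with `∑ i, v i * ∂ f / ∂ y i = 0` for all `f ∈ Q`; such a vector gives
a derivation of `K`, and the space of derivations of `K` has dimension `n'`).  So the matrix with the
rows `(∂ f / ∂ y i)_i`, `f ∈ Q`, has rank `M + 1 - n'` over `K`; choose `c = M + 1 - n'` elements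
`f k` of `Q` and a set of `c` columns whose minor `g` is not zero in `K`.  For homogeneous `Q` the `f k`
can be taken homogeneous (the homogeneous components of the elements of `Q` have gradients which span
the same space), then the minor is homogeneous.

`exists_generic`: `Q` from `IntegralSection`, `g` from `exists_jac`, multiplied by nothing.  If
`y ≠ 0` is a zero of `P` and of `G` then it is a zero of `Q` (choose `i` with `y i ≠ 0`,
`X i ^ k * T ∈ P ⊔ span {G}`).  `P < Q` since `G ∉ P`, so `TD Q (n + 1)` by `TD.lt`.  If `y ≠ 0` is a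
zero of `Q` then `conTan (P ⊔ span {G}) y ≤ conTan Q y`: for `T ∈ Q` and `y i ≠ 0`,
`X i ^ k * T ∈ P ⊔ span {G}`, and the gradient of `X i ^ k * T` at `y` is `y i ^ k` times the gradient
of `T`.
-/

open MvPolynomial
open Pool.Agent.H5.DG (Homog IntegralSection TD)
open Pool.Agent.H13.SM (conTan)

noncomputable section

namespace Pool.Agent.H39.SY

/-- A nonzero minor of independent rows. -/
private theorem GenSm_minor {K : Type} [Field K] {c m : ℕ} {N : Fin c → Fin m → K}
    (h : LinearIndependent K N) :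
    ∃ e : Fin c → Fin m, (Matrix.of fun k l => N k (e l)).det ≠ 0 := by
  classical
  let A : Matrix (Fin c) (Fin m) K := Matrix.of N
  have hA : LinearIndependent K A.row := h
  have hrk : A.rank = c := by
    have h1 := hA.rank_matrix
    rwa [Fintype.card_fin] at h1
  obtain ⟨κ, a, ha, hsp, hlin⟩ := exists_linearIndependent' K A.col
  have hfk : Finite κ := Finite.of_injective a ha
  have : Fintype κ := Fintype.ofFinite κ
  have hcard : Fintype.card κ = c := by
    have h1 := finrank_span_eq_card hlin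
    rw [hsp, ← Matrix.rank_eq_finrank_span_cols, hrk] at h1
    exact h1.symm
  let e : Fin c ≃ κ := (Fintype.equivFinOfCardEq hcard).symm
  refine ⟨fun l => a (e l), ?_⟩
  have h2 : LinearIndependent K (A.submatrix id (fun l => a (e l))).col :=
    hlin.comp e e.injective
  rw [Matrix.linearIndependent_cols_iff_isUnit, Matrix.isUnit_iff_isUnit_det] at h2
  exact h2.ne_zero

/-- The derivation given by a vector. -/
private def GenSm_D {σ : Type} [Fintype σ] {K : Type} [Field K] [Algebra ℂ K]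
    (a : MvPolynomial σ ℂ →ₐ[ℂ] K) (v : σ → K) (f : MvPolynomial σ ℂ) : K :=
  ∑ i, v i * a (pderiv i f)

section

variable {σ : Type} [Fintype σ] {K : Type} [Field K] [Algebra ℂ K]
  (a : MvPolynomial σ ℂ →ₐ[ℂ] K) (v : σ → K)

private theorem GenSm_D_add (f g : MvPolynomial σ ℂ) :
    GenSm_D a v (f + g) = GenSm_D a v f + GenSm_D a v g := by
  unfold GenSm_D
  rw [← Finset.sum_add_distrib]
  refine Finset.sum_congr rfl fun i _ => ?_
  rw [map_add, map_add, mul_add]

private theorem GenSm_D_zero : GenSm_D a v 0 = 0 := by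
  unfold GenSm_D
  refine Finset.sum_eq_zero fun i _ => ?_
  rw [map_zero, map_zero, mul_zero]

private theorem GenSm_D_sum {ι : Type} (s : Finset ι) (F : ι → MvPolynomial σ ℂ) :
    GenSm_D a v (∑ j ∈ s, F j) = ∑ j ∈ s, GenSm_D a v (F j) := by
  classical
  induction s using Finset.induction_on with
  | empty => rw [Finset.sum_empty, Finset.sum_empty, GenSm_D_zero]
  | insert j s hj ih => rw [Finset.sum_insert hj, Finset.sum_insert hj, GenSm_D_add, ih]

private theorem GenSm_D_mul (f g : MvPolynomial σ ℂ) :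
    GenSm_D a v (f * g) = a f * GenSm_D a v g + a g * GenSm_D a v f := by
  unfold GenSm_D
  rw [Finset.mul_sum, Finset.mul_sum, ← Finset.sum_add_distrib]
  refine Finset.sum_congr rfl fun i _ => ?_
  rw [Derivation.leibniz, smul_eq_mul, smul_eq_mul, map_add, map_mul, map_mul]
  ring

private theorem GenSm_D_C (c : ℂ) : GenSm_D a v (C c) = 0 := by
  unfold GenSm_D
  refine Finset.sum_eq_zero fun i _ => ?_
  rw [pderiv_C, map_zero, mul_zero]

private theorem GenSm_D_X [DecidableEq σ] (j : σ) : GenSm_D a v (X j) = v j := by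
  unfold GenSm_D
  rw [Finset.sum_eq_single j]
  · rw [pderiv_X_self, map_one, mul_one]
  · intro i _ hi
    rw [pderiv_X_of_ne hi.symm, map_zero, mul_zero]
  · intro h
    exact absurd (Finset.mem_univ _) h

private theorem GenSm_D_pow (f : MvPolynomial σ ℂ) (n : ℕ) :
    GenSm_D a v (f ^ n) = (n : K) * a f ^ (n - 1) * GenSm_D a v f := by
  unfold GenSm_D
  rw [Finset.mul_sum]
  refine Finset.sum_congr rfl fun i _ => ?_
  rw [pderiv_pow, map_mul, map_mul, map_pow, map_natCast]
  ring

private theorem GenSm_D_theta {D : ℕ} (θ : MvPolynomial (Fin D) ℂ →ₐ[ℂ] MvPolynomial σ ℂ)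
    (h : ∀ i, GenSm_D a v (θ (X i)) = 0) (b : MvPolynomial (Fin D) ℂ) :
    GenSm_D a v (θ b) = 0 := by
  induction b using MvPolynomial.induction_on with
  | C c =>
    have h1 : θ (C c) = C c := θ.commutes c
    rw [h1, GenSm_D_C]
  | add p q hp hq => rw [map_add, GenSm_D_add, hp, hq, add_zero]
  | mul_X p i hp => rw [map_mul, GenSm_D_mul, hp, h, mul_zero, mul_zero, add_zero]

private theorem GenSm_D_eval {D : ℕ} (θ : MvPolynomial (Fin D) ℂ →ₐ[ℂ] MvPolynomial σ ℂ)
    (h : ∀ i, GenSm_D a v (θ (X i)) = 0) (r : MvPolynomial σ ℂ)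
    (p : Polynomial (MvPolynomial (Fin D) ℂ)) :
    GenSm_D a v (Polynomial.eval₂ θ.toRingHom r p) =
      a (Polynomial.eval₂ θ.toRingHom r (Polynomial.derivative p)) * GenSm_D a v r := by
  induction p using Polynomial.induction_on' with
  | add p q hp hq =>
    rw [Polynomial.eval₂_add, GenSm_D_add, hp, hq, map_add, Polynomial.eval₂_add, map_add,
      add_mul]
  | monomial n b =>
    rw [Polynomial.eval₂_monomial, GenSm_D_mul, Polynomial.derivative_monomial,
      Polynomial.eval₂_monomial]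
    have h1 : GenSm_D a v (θ.toRingHom b) = 0 := GenSm_D_theta a v θ h b
    rw [h1, mul_zero, add_zero, GenSm_D_pow, map_mul, map_mul, map_mul, map_pow, map_natCast,
      map_natCast]
    ring

private theorem GenSm_inj {Q : Ideal (MvPolynomial σ ℂ)} (ha : ∀ f, a f = 0 ↔ f ∈ Q)
    {D : ℕ} (hD : TD Q D) {z : Fin D → MvPolynomial σ ℂ}
    (hz : AlgebraicIndependent ℂ fun i => Ideal.Quotient.mkₐ ℂ Q (z i))
    (hv : ∀ f ∈ Q, GenSm_D a v f = 0) (hvz : ∀ i, GenSm_D a v (z i) = 0)
    (r : MvPolynomial σ ℂ) : GenSm_D a v r = 0 := by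
  classical
  let θ : MvPolynomial (Fin D) ℂ →ₐ[ℂ] MvPolynomial σ ℂ := aeval z
  have hθ : ∀ i, GenSm_D a v (θ (X i)) = 0 := by
    intro i
    have h1 : θ (X i) = z i := aeval_X _ _
    rw [h1, hvz]
  -- the relation
  have hnot : ¬ Transcendental (Algebra.adjoin ℂ (Set.range fun i => Ideal.Quotient.mkₐ ℂ Q (z i)))
      (Ideal.Quotient.mkₐ ℂ Q r) := by
    intro ht
    have ho := (hz.option_iff_transcendental _).2 ht
    refine hD (fun i => ((finSuccEquivLast i).elim r z)) ?_
    have he := (algebraicIndependent_equiv (R := ℂ) (finSuccEquivLast (n := D))).2 ho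
    convert he using 1
    funext i
    simp only [Function.comp_apply]
    cases finSuccEquivLast i <;> rfl
  have hex : ∃ n : ℕ, ∃ p : Polynomial (MvPolynomial (Fin D) ℂ), p ≠ 0 ∧ p.natDegree = n ∧
      Polynomial.eval₂ θ.toRingHom r p ∈ Q := by
    have halg : IsAlgebraic (Algebra.adjoin ℂ (Set.range fun i => Ideal.Quotient.mkₐ ℂ Q (z i)))
        (Ideal.Quotient.mkₐ ℂ Q r) := by
      by_contra h1
      exact hnot h1
    obtain ⟨P, hP0, hP⟩ := halg
    let e := hz.aevalEquiv
    let es := e.symm.toAlgHom.toRingHom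
    refine ⟨_, P.map es, ?_, rfl, ?_⟩
    · intro h1
      apply hP0
      exact (Polynomial.map_eq_zero_iff (f := es) e.symm.injective).1 h1
    · rw [← Ideal.Quotient.eq_zero_iff_mem]
      rw [← hP, Polynomial.aeval_def, Polynomial.eval₂_map, Polynomial.hom_eval₂]
      congr 1
      refine RingHom.ext fun b => ?_
      obtain ⟨b, rfl⟩ := e.surjective b
      show Ideal.Quotient.mk Q (aeval z (e.symm (e b))) = _
      rw [AlgEquiv.symm_apply_apply]
      have h2 := hz.algebraMap_aevalEquiv b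
      rw [h2]
      exact (comp_aeval_apply (f := z) (Ideal.Quotient.mkₐ ℂ Q) b)
  obtain ⟨p, hp0, hpn, hpQ⟩ := Nat.find_spec hex
  have hmin : ∀ q : Polynomial (MvPolynomial (Fin D) ℂ), q ≠ 0 → q.natDegree < p.natDegree →
      Polynomial.eval₂ θ.toRingHom r q ∉ Q := by
    intro q hq0 hq hqQ
    rw [hpn] at hq
    exact Nat.find_min hex hq ⟨q, hq0, rfl, hqQ⟩
  have hdeg : p.natDegree ≠ 0 := by
    intro h0
    obtain ⟨b, rfl⟩ := Polynomial.natDegree_eq_zero.1 h0
    rw [Polynomial.eval₂_C] at hpQ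
    have hb : aeval (fun i => Ideal.Quotient.mkₐ ℂ Q (z i)) b = 0 := by
      rw [← comp_aeval_apply (f := z) (Ideal.Quotient.mkₐ ℂ Q) b]
      exact Ideal.Quotient.eq_zero_iff_mem.2 hpQ
    have hb0 := hz.eq_zero_of_aeval_eq_zero b hb
    apply hp0
    rw [hb0, Polynomial.C_0]
  have hder : Polynomial.derivative p ≠ 0 := by
    intro h0
    exact hdeg (Polynomial.derivative_eq_zero.1 h0)
  have hnQ := hmin _ hder (Polynomial.natDegree_derivative_lt hdeg)
  have h3 := GenSm_D_eval a v θ hθ r p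
  rw [hv _ hpQ] at h3
  rcases mul_eq_zero.1 h3.symm with h4 | h4
  · exact absurd ((ha _).1 h4) hnQ
  · exact h4

/-- The tangent space at the generic point. -/
private def GenSm_W (Q : Ideal (MvPolynomial σ ℂ)) : Submodule K (σ → K) where
  carrier := {v | ∀ f ∈ Q, GenSm_D a v f = 0}
  add_mem' := by
    intro u w hu hw f hf
    have h1 := hu f hf
    have h2 := hw f hf
    unfold GenSm_D at h1 h2 ⊢
    simp only [Pi.add_apply, add_mul, Finset.sum_add_distrib, h1, h2, add_zero]
  zero_mem' := by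
    intro f _
    unfold GenSm_D
    simp
  smul_mem' := by
    intro c u hu f hf
    have h1 := hu f hf
    unfold GenSm_D at h1 ⊢
    simp only [Pi.smul_apply, smul_eq_mul, mul_assoc, ← Finset.mul_sum, h1, mul_zero]

private theorem GenSm_finrank {Q : Ideal (MvPolynomial σ ℂ)} (hQ : Q.IsPrime)
    (ha : ∀ f, a f = 0 ↔ f ∈ Q) {n : ℕ} (hTD : TD Q n) :
    Module.finrank K (GenSm_W a Q) ≤ n := by
  classical
  obtain ⟨D, hD, z, hz⟩ := Pool.Agent.H5.DG.exists_TD hQ
  have hDn : D ≤ n := by
    by_contra hlt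
    refine hTD (fun i => z (Fin.castLE (by omega) i)) ?_
    exact hz.comp (Fin.castLE (by omega : n + 1 ≤ D)) (Fin.castLE_injective _)
  let φ : GenSm_W a Q →ₗ[K] (Fin D → K) :=
    { toFun := fun v i => GenSm_D a v.1 (z i)
      map_add' := by
        intro u w
        funext i
        show GenSm_D a (u.1 + w.1) (z i) = GenSm_D a u.1 (z i) + GenSm_D a w.1 (z i)
        unfold GenSm_D
        simp only [Pi.add_apply, add_mul, Finset.sum_add_distrib]
      map_smul' := by
        intro c u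
        funext i
        show GenSm_D a (c • u.1) (z i) = c * GenSm_D a u.1 (z i)
        unfold GenSm_D
        simp only [Pi.smul_apply, smul_eq_mul, mul_assoc, ← Finset.mul_sum] }
  have hφ : Function.Injective φ := by
    rw [← LinearMap.ker_eq_bot, LinearMap.ker_eq_bot']
    intro v hv
    have h1 : ∀ i, GenSm_D a v.1 (z i) = 0 := fun i => congrFun hv i
    apply Subtype.ext
    funext j
    rw [← GenSm_D_X a v.1 j]
    exact GenSm_inj a v.1 ha hD hz v.2 h1 (X j)
  have h2 := LinearMap.finrank_le_finrank_of_injective hφ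
  rw [Module.finrank_fin_fun] at h2
  exact h2.trans hDn

end

private theorem GenSm_indep {M n : ℕ} {K : Type} [Field K] [Algebra ℂ K]
    (a : MvPolynomial (Fin (M + 1)) ℂ →ₐ[ℂ] K) {Q : Ideal (MvPolynomial (Fin (M + 1)) ℂ)}
    (hQh : Homog Q) (hW : Module.finrank K (GenSm_W a Q) ≤ n) :
    ∃ f : Fin (M + 1 - n) → MvPolynomial (Fin (M + 1)) ℂ,
      (∀ j, f j ∈ Q ∧ ∃ d, (f j).IsHomogeneous d) ∧
      LinearIndependent K fun (j : Fin (M + 1 - n)) (i : Fin (M + 1)) => a (pderiv i (f j)) := by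
  classical
  obtain ⟨b, hbS, hspan, hli⟩ := exists_linearIndependent K
    {u : Fin (M + 1) → K | ∃ f : MvPolynomial (Fin (M + 1)) ℂ,
      (f ∈ Q ∧ ∃ d, f.IsHomogeneous d) ∧ (fun i => a (pderiv i f)) = u}
  have hfin : Finite b := hli.finite
  have : Fintype b := Fintype.ofFinite b
  let φ : (Fin (M + 1) → K) →ₗ[K] (b → K) :=
    LinearMap.pi fun u => ∑ i, (u : Fin (M + 1) → K) i • (LinearMap.proj i)
  have hφ : ∀ v (u : b), φ v u = ∑ i, (u : Fin (M + 1) → K) i * v i := by
    intro v u
    simp [φ, LinearMap.sum_apply]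
  have hker : LinearMap.ker φ ≤ GenSm_W a Q := by
    intro v hv
    have hv' : ∀ u : b, ∑ i, (u : Fin (M + 1) → K) i * v i = 0 := fun u => by
      rw [← hφ, LinearMap.mem_ker.mp hv, Pi.zero_apply]
    let ψ : (Fin (M + 1) → K) →ₗ[K] K := ∑ i, v i • (LinearMap.proj i)
    have hψ : ∀ u, ψ u = ∑ i, v i * u i := by
      intro u
      simp [ψ, LinearMap.sum_apply]
    have h1 : Submodule.span K b ≤ LinearMap.ker ψ := by
      rw [Submodule.span_le]
      intro u hu
      rw [SetLike.mem_coe, LinearMap.mem_ker, hψ, ← hv' ⟨u, hu⟩]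
      exact Finset.sum_congr rfl fun i _ => mul_comm _ _
    have h0 : ∀ f ∈ Q, ∀ d, f.IsHomogeneous d → GenSm_D a v f = 0 := by
      intro f hf d hd
      have h2 : (fun i => a (pderiv i f)) ∈ Submodule.span K b := by
        rw [hspan]
        exact Submodule.subset_span ⟨f, ⟨hf, d, hd⟩, rfl⟩
      have h3 := LinearMap.mem_ker.mp (h1 h2)
      rwa [hψ] at h3
    intro f hf
    rw [← sum_homogeneousComponent f, GenSm_D_sum]
    exact Finset.sum_eq_zero fun k _ =>
      h0 _ (hQh f hf k) k (homogeneousComponent_isHomogeneous k f)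
  have hrk := LinearMap.finrank_range_add_finrank_ker φ
  have h1 : Module.finrank K (LinearMap.range φ) ≤ Fintype.card b := by
    have h2 := Submodule.finrank_le (LinearMap.range φ)
    rwa [Module.finrank_fintype_fun_eq_card] at h2
  have h2 := Submodule.finrank_mono hker
  rw [Module.finrank_fintype_fun_eq_card, Fintype.card_fin] at hrk
  have hcard : Fintype.card (Fin (M + 1 - n)) ≤ Fintype.card b := by
    rw [Fintype.card_fin]
    omega
  obtain ⟨e⟩ := Function.Embedding.nonempty_of_card_le hcard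
  choose g hg using fun u : b => hbS u.2
  refine ⟨fun j => g (e j), fun j => (hg (e j)).1, ?_⟩
  have h3 := hli.comp e e.injective
  have h4 : (fun (j : Fin (M + 1 - n)) (i : Fin (M + 1)) => a (pderiv i (g (e j)))) =
      (Subtype.val : b → Fin (M + 1) → K) ∘ e := by
    funext j
    exact (hg (e j)).2
  rw [h4]
  exact h3

private theorem GenSm_det_hom {τ : Type} {c : ℕ} {A : Matrix (Fin c) (Fin c) (MvPolynomial τ ℂ)}
    {d : Fin c → ℕ} (h : ∀ k l, (A k l).IsHomogeneous (d k)) :
    A.det.IsHomogeneous (∑ k, d k) := by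
  classical
  rw [Matrix.det_apply]
  refine MvPolynomial.IsHomogeneous.sum _ _ _ fun π _ => ?_
  have h1 : (∏ i, A (π i) i).IsHomogeneous (∑ k, d k) := by
    have h2 := MvPolynomial.IsHomogeneous.prod Finset.univ (fun i => A (π i) i)
      (fun i => d (π i)) (fun i _ => h (π i) i)
    rwa [Equiv.sum_comp π d] at h2
  rcases Int.units_eq_one_or (Equiv.Perm.sign π) with h3 | h3
  · rw [h3, one_smul]
    exact h1
  · rw [h3]
    have h4 : (-1 : ℤˣ) • (∏ i, A (π i) i) = -(∏ i, A (π i) i) := by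
      rw [Units.neg_smul, one_smul]
    rw [h4]
    exact h1.neg

theorem exists_jac {M n : ℕ} {Q : Ideal (MvPolynomial (Fin (M + 1)) ℂ)} (hQ : Q.IsPrime)
    (hQh : Homog Q) (hTD : TD Q n) :
    ∃ (g : MvPolynomial (Fin (M + 1)) ℂ) (d : ℕ), g.IsHomogeneous d ∧ g ∉ Q ∧
      ∀ y : Fin (M + 1) → ℂ, (∀ T ∈ Q, eval y T = 0) → eval y g ≠ 0 →
        Module.finrank ℂ (conTan Q y) ≤ n := by
  classical
  have : IsDomain (MvPolynomial (Fin (M + 1)) ℂ ⧸ Q) := Ideal.Quotient.isDomain Q
  let R := MvPolynomial (Fin (M + 1)) ℂ ⧸ Q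
  let K := FractionRing R
  let a : MvPolynomial (Fin (M + 1)) ℂ →ₐ[ℂ] K :=
    (IsScalarTower.toAlgHom ℂ R K).comp (Ideal.Quotient.mkₐ ℂ Q)
  have ha : ∀ f, a f = 0 ↔ f ∈ Q := by
    intro f
    rw [← Ideal.Quotient.eq_zero_iff_mem]
    exact map_eq_zero_iff (algebraMap R K) (IsFractionRing.injective R K)
  obtain ⟨f, hf, hli⟩ := GenSm_indep a hQh (GenSm_finrank a hQ ha hTD)
  obtain ⟨e, he⟩ := GenSm_minor hli
  choose hfQ d hd using hf
  let A : Matrix (Fin (M + 1 - n)) (Fin (M + 1 - n)) (MvPolynomial (Fin (M + 1)) ℂ) :=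
    Matrix.of fun k l => pderiv (e l) (f k)
  refine ⟨A.det, ∑ k, (d k - 1), GenSm_det_hom fun k l => (hd k).pderiv, ?_, ?_⟩
  · intro h
    apply he
    have h1 := (ha _).2 h
    have h2 : a A.det = (A.map a).det := (a : _ →+* K).map_det A
    rw [h2] at h1
    exact h1
  · intro y hy hyg
    have h1 : eval y A.det = (A.map (eval y)).det := (eval y).map_det A
    rw [h1] at hyg
    let B : Matrix (Fin (M + 1 - n)) (Fin (M + 1)) ℂ := Matrix.of fun k i => eval y (pderiv i (f k))
    have hB : LinearIndependent ℂ B.row := by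
      rw [Fintype.linearIndependent_iff]
      intro c hc k
      have h2 : Matrix.vecMul c (A.map (eval y)) = 0 := by
        funext l
        have h3 := congrFun hc (e l)
        rw [Finset.sum_apply] at h3
        exact h3
      exact congrFun (Matrix.eq_zero_of_vecMul_eq_zero hyg h2) k
    have hrk : B.rank = M + 1 - n := by
      have h2 := hB.rank_matrix
      rwa [Fintype.card_fin] at h2
    have hle : conTan Q y ≤ LinearMap.ker B.mulVecLin := by
      intro v hv
      rw [LinearMap.mem_ker, Matrix.mulVecLin_apply]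
      funext k
      have h2 := hv (f k) (hfQ k)
      show ∑ i, B k i * v i = 0
      rw [← h2]
      exact Finset.sum_congr rfl fun i _ => mul_comm _ _
    have h2 := Submodule.finrank_mono hle
    have h3 := LinearMap.finrank_range_add_finrank_ker B.mulVecLin
    rw [Module.finrank_fintype_fun_eq_card, Fintype.card_fin] at h3
    have h4 : Module.finrank ℂ (LinearMap.range B.mulVecLin) = M + 1 - n := hrk
    omega

theorem exists_generic {M n : ℕ} {P : Ideal (MvPolynomial (Fin (M + 1)) ℂ)} (hP : P.IsPrime)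
    (hTD : TD P (n + 2)) {G : MvPolynomial (Fin (M + 1)) ℂ} (hGP : G ∉ P)
    (hint : IntegralSection P G) :
    ∃ (Q : Ideal (MvPolynomial (Fin (M + 1)) ℂ)) (g : MvPolynomial (Fin (M + 1)) ℂ) (d : ℕ),
      Q.IsPrime ∧ Homog Q ∧ P < Q ∧ G ∈ Q ∧ (∃ i, X i ∉ Q) ∧
      (∀ T ∈ Q, ∀ i, ∃ k : ℕ, X i ^ k * T ∈ P ⊔ Ideal.span {G}) ∧
      g.IsHomogeneous d ∧ g ∉ Q ∧
      (∀ y : Fin (M + 1) → ℂ, y ≠ 0 → (∀ T ∈ P, eval y T = 0) → eval y G = 0 →
        ∀ T ∈ Q, eval y T = 0) ∧
      ∀ y : Fin (M + 1) → ℂ, y ≠ 0 → (∀ T ∈ Q, eval y T = 0) → eval y g ≠ 0 →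
        Module.finrank ℂ (conTan (P ⊔ Ideal.span {G}) y) ≤ n + 1 := by
  obtain ⟨Q, hQ, hQh, hPQ, hGQ, hX, hsat⟩ := hint
  have hlt : P < Q := lt_of_le_of_ne hPQ fun h => hGP (h ▸ hGQ)
  have hTQ : TD Q (n + 1) := hTD.lt hP hQ hlt
  obtain ⟨g, d, hg, hgQ, hjac⟩ := exists_jac hQ hQh hTQ
  refine ⟨Q, g, d, hQ, hQh, hlt, hGQ, hX, hsat, hg, hgQ, ?_, ?_⟩
  · intro y hy0 hyP hyG T hT
    obtain ⟨i, hi⟩ := Function.ne_iff.1 hy0
    obtain ⟨k, hk⟩ := hsat T hT i
    obtain ⟨p, hp, q, hq, hpq⟩ := Submodule.mem_sup.1 hk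
    obtain ⟨q', rfl⟩ := Ideal.mem_span_singleton'.1 hq
    have h1 := congrArg (eval y) hpq
    rw [map_add, map_mul, map_mul, map_pow, eval_X, hyP p hp, hyG, mul_zero, add_zero] at h1
    rcases mul_eq_zero.1 h1.symm with h2 | h2
    · exact absurd h2 (pow_ne_zero k hi)
    · exact h2
  · intro y hy0 hyQ hyg
    refine le_trans (Submodule.finrank_mono ?_) (hjac y hyQ hyg)
    intro v hv T hT
    obtain ⟨i, hi⟩ := Function.ne_iff.1 hy0
    obtain ⟨k, hk⟩ := hsat T hT i
    have h1 := hv _ hk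
    have h2 : ∀ j, eval y (pderiv j (X i ^ k * T)) = y i ^ k * eval y (pderiv j T) := by
      intro j
      rw [Derivation.leibniz, smul_eq_mul, smul_eq_mul, map_add, map_mul, map_mul, hyQ T hT,
        zero_mul, add_zero, map_pow, eval_X]
    have h3 : y i ^ k * ∑ j, v j * eval y (pderiv j T) = 0 := by
      rw [Finset.mul_sum, ← h1]
      refine Finset.sum_congr rfl fun j _ => ?_
      rw [h2]
      ring
    rcases mul_eq_zero.1 h3 with h4 | h4
    · exact absurd h4 (pow_ne_zero k hi)
    · exact h4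

end Pool.Agent.H39.SY
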