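import Pool.Agent.H39.SX.Grad
import Pool.Agent.H13.SM.Inv
import Pool.Agent.H13.SM.Grad

/-!
# Project SY, module Jac3: the Jacobian determinant near a hypersurface whose preimage is critical

`W` maps `ℂ ^ (n + 1)` to the zero set of `P`, and the tangent space of `P + (G)` at `W u₀` has
dimension at most `n`.

PROOF.  If `eval (W u₀) G ≠ 0` use continuity of the determinant.  Let `eval (W u₀) G = 0`,
`γ u = ‖eval (W u) G‖`.  By `norm_fderiv_sq_le` (module SX.Grad) for `u ↦ eval (W u) G` (`h0`) there is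
`A` with `‖fderiv ℂ (fun u => eval (W u) G) u‖ ^ 2 ≤ A γ u` near `u₀`.  Choose `f : Fin (M + 1 - n) → _`
in `P ⊔ span {G}` with linearly independent gradients at `W u₀` (see the proof of
`Pool.Agent.H13.SM.exists_indep`: the gradients of the elements of the ideal span a space of dimension
at least `M + 1 - n`), `f j = p j + a j * G`, so `eval (W u) (f j) = eval (W u) (a j) * eval (W u) G`
near `u₀` and `‖fderiv (fun u => eval (W u) (f j)) u‖ ^ 2 ≤ A' γ u` (`γ u ≤ 1` near `u₀`, so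
`γ ^ 2 ≤ γ`).  By `Inv_exists_coords` (module H13.SM.Inv) there are `n` coordinates `y (I k)` such that
the gradients of the `f j` at `W u₀` and the coordinate functions `y (I k)` have no common zero, so the
gradients of the `f j` and the coordinate vectors `e (I k)` span `ℂ ^ (M + 1)` at `W u₀`, hence also at
`W u` for `u` near `u₀`, with bounded coefficients (Cramer's rule: the matrix is invertible near `u₀`
and its inverse is continuous).  So for every polynomial `B a`: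
`fderiv (fun u => eval (W u) (B a)) u = ∑ k, c a k • fderiv (fun u => W u (I k)) u + R a`, with bounded
`c a k` and `‖R a‖ ^ 2 ≤ A'' γ u`.  The determinant of the matrix without `R` is zero (its `n + 1` rows
are combinations of `n` vectors), all entries are bounded, so `‖det‖ ≤ A''' * ∑ ‖R a‖` (the determinant
is a polynomial; or multilinearity in the rows: `det` is the sum over the subsets of the rows).
The gradient of `g` at `y` is `fun i => eval y (pderiv i g)`, `Inv_hasFDerivAt_eval`.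
-/

open MvPolynomial Filter Topology
open Pool.Agent.H13.SM (conTan)

noncomputable section

namespace Pool.Agent.H39.SY

/-- the gradient as a functional -/
private def jac3_grd {M : ℕ} (g : MvPolynomial (Fin (M + 1)) ℂ) (y : Fin (M + 1) → ℂ) :
    (Fin (M + 1) → ℂ) →L[ℂ] ℂ :=
  ∑ i, eval y (pderiv i g) • (ContinuousLinearMap.proj i : (Fin (M + 1) → ℂ) →L[ℂ] ℂ)

private theorem jac3_grd_cont {M : ℕ} (g : MvPolynomial (Fin (M + 1)) ℂ) :
    Continuous (jac3_grd g) := by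
  unfold jac3_grd
  exact continuous_finsetSum _ fun i _ => (MvPolynomial.continuous_eval _).smul continuous_const

private theorem jac3_grd_apply {M : ℕ} (g : MvPolynomial (Fin (M + 1)) ℂ) (y v : Fin (M + 1) → ℂ) :
    jac3_grd g y v = ∑ i, eval y (pderiv i g) * v i := by
  unfold jac3_grd
  rw [sum_apply]
  exact Finset.sum_congr rfl fun i _ => rfl

/-- enough independent gradients -/
private theorem jac3_indep {M n : ℕ} {Q : Ideal (MvPolynomial (Fin (M + 1)) ℂ)} {x : Fin (M + 1) → ℂ}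
    (h : Module.finrank ℂ (conTan Q x) ≤ n) :
    ∃ (c k : ℕ) (f : Fin c → MvPolynomial (Fin (M + 1)) ℂ), c + k = M + 1 ∧ k ≤ n ∧ (∀ j, f j ∈ Q) ∧
      LinearIndependent ℂ fun (j : Fin c) (i : Fin (M + 1)) => eval x (pderiv i (f j)) := by
  classical
  obtain ⟨b, hbS, hspan, hli⟩ := exists_linearIndependent ℂ
    {u : Fin (M + 1) → ℂ | ∃ T ∈ Q, (fun i => eval x (pderiv i T)) = u}
  have hfin : Finite b := hli.finite
  have : Fintype b := Fintype.ofFinite b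
  let φ : (Fin (M + 1) → ℂ) →ₗ[ℂ] (b → ℂ) :=
    LinearMap.pi fun u => ∑ i, (u : Fin (M + 1) → ℂ) i • (LinearMap.proj i)
  have hφ : ∀ v (u : b), φ v u = ∑ i, (u : Fin (M + 1) → ℂ) i * v i := by
    intro v u
    simp [φ, LinearMap.sum_apply]
  have hker : LinearMap.ker φ ≤ conTan Q x := by
    intro v hv T hT
    have hv' : ∀ u : b, ∑ i, (u : Fin (M + 1) → ℂ) i * v i = 0 := fun u => by
      rw [← hφ, LinearMap.mem_ker.mp hv, Pi.zero_apply]
    let ψ : (Fin (M + 1) → ℂ) →ₗ[ℂ] ℂ := ∑ i, v i • (LinearMap.proj i)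
    have hψ : ∀ u, ψ u = ∑ i, v i * u i := by
      intro u
      simp [ψ, LinearMap.sum_apply]
    have h1 : Submodule.span ℂ b ≤ LinearMap.ker ψ := by
      rw [Submodule.span_le]
      intro u hu
      rw [SetLike.mem_coe, LinearMap.mem_ker, hψ, ← hv' ⟨u, hu⟩]
      exact Finset.sum_congr rfl fun i _ => mul_comm _ _
    have h2 : (fun i => eval x (pderiv i T)) ∈ Submodule.span ℂ b := by
      rw [hspan]
      exact Submodule.subset_span ⟨T, hT, rfl⟩
    have h3 := LinearMap.mem_ker.mp (h1 h2)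
    rwa [hψ] at h3
  have hrk := LinearMap.finrank_range_add_finrank_ker φ
  have h1 : Module.finrank ℂ (LinearMap.range φ) ≤ Fintype.card b := by
    have := Submodule.finrank_le (LinearMap.range φ)
    rwa [Module.finrank_fintype_fun_eq_card] at this
  have h2 := Submodule.finrank_mono hker
  rw [Module.finrank_fintype_fun_eq_card, Fintype.card_fin] at hrk
  have hcard : Fintype.card (Fin (M + 1 - n)) ≤ Fintype.card b := by
    rw [Fintype.card_fin]
    omega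
  obtain ⟨e⟩ := Function.Embedding.nonempty_of_card_le hcard
  choose g hg using fun u : b => hbS u.2
  refine ⟨M + 1 - n, M + 1 - (M + 1 - n), fun j => g (e j), by omega, by omega, fun j => (hg (e j)).1, ?_⟩
  have h3 := hli.comp e e.injective
  have h4 : (fun (j : Fin (M + 1 - n)) (i : Fin (M + 1)) => eval x (pderiv i (g (e j)))) =
      (Subtype.val : b → Fin (M + 1) → ℂ) ∘ e := by
    funext j
    exact (hg (e j)).2
  rw [h4]
  exact h3

/-- the determinant is Lipschitz on bounded sets -/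
private theorem jac3_det_lip (m : ℕ) (K : ℝ) : ∃ C : ℝ, 0 ≤ C ∧
    ∀ A F : (Fin m → ℂ) →L[ℂ] (Fin m → ℂ), ‖A‖ ≤ K → ‖F‖ ≤ K → ‖A.det - F.det‖ ≤ C * ‖A - F‖ := by
  classical
  let μ : ContinuousMultilinearMap ℂ (fun _ : Fin m => Fin m → ℂ) ℂ :=
    { toMultilinearMap := (Matrix.detRowAlternating : (Fin m → ℂ) [⋀^Fin m]→ₗ[ℂ] ℂ).toMultilinearMap
      cont := by
        have : Continuous fun N : Matrix (Fin m) (Fin m) ℂ => N.det := Continuous.matrix_det continuous_id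
        exact this }
  have hμ : ∀ A : (Fin m → ℂ) →L[ℂ] (Fin m → ℂ),
      A.det = μ (fun i j => A (Pi.single j 1) i) := by
    intro A
    have h1 : A.det = (LinearMap.toMatrix' (A : (Fin m → ℂ) →ₗ[ℂ] (Fin m → ℂ))).det := by
      rw [LinearMap.det_toMatrix']
    rw [h1]
    rfl
  have hn : ∀ A : (Fin m → ℂ) →L[ℂ] (Fin m → ℂ),
      ‖(fun i j => A (Pi.single j 1) i : Fin m → Fin m → ℂ)‖ ≤ ‖A‖ := by
    intro A
    refine (pi_norm_le_iff_of_nonneg (norm_nonneg _)).2 fun i => ?_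
    refine (pi_norm_le_iff_of_nonneg (norm_nonneg _)).2 fun j => ?_
    calc ‖A (Pi.single j 1) i‖ ≤ ‖A (Pi.single j 1)‖ := norm_le_pi_norm _ _
      _ ≤ ‖A‖ * ‖(Pi.single j 1 : Fin m → ℂ)‖ := ContinuousLinearMap.le_opNorm _ _
      _ ≤ ‖A‖ * 1 := by
          refine mul_le_mul_of_nonneg_left ?_ (norm_nonneg _)
          refine (pi_norm_le_iff_of_nonneg zero_le_one).2 fun i => ?_
          rcases eq_or_ne i j with h | h
          · subst h
            rw [Pi.single_eq_same, norm_one]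
          · rw [Pi.single_eq_of_ne h, norm_zero]
            exact zero_le_one
      _ = ‖A‖ := mul_one _
  refine ⟨‖μ‖ * m * (|K|) ^ (m - 1), by positivity, fun A F hA hF => ?_⟩
  have h1 := μ.norm_image_sub_le (fun i j => A (Pi.single j 1) i) (fun i j => F (Pi.single j 1) i)
  rw [← hμ, ← hμ, Fintype.card_fin] at h1
  refine h1.trans ?_
  have h2 : ‖(fun i j => A (Pi.single j 1) i : Fin m → Fin m → ℂ) -
      (fun i j => F (Pi.single j 1) i : Fin m → Fin m → ℂ)‖ ≤ ‖A - F‖ := hn (A - F)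
  have h3 : max ‖(fun i j => A (Pi.single j 1) i : Fin m → Fin m → ℂ)‖
      ‖(fun i j => F (Pi.single j 1) i : Fin m → Fin m → ℂ)‖ ≤ |K| :=
    max_le (((hn A).trans hA).trans (le_abs_self K)) (((hn F).trans hF).trans (le_abs_self K))
  have h4 : max ‖(fun i j => A (Pi.single j 1) i : Fin m → Fin m → ℂ)‖
      ‖(fun i j => F (Pi.single j 1) i : Fin m → Fin m → ℂ)‖ ^ (m - 1) ≤ |K| ^ (m - 1) :=
    pow_le_pow_left₀ (le_max_of_le_left (norm_nonneg _)) h3 _
  have h5 : (0 : ℝ) ≤ ‖μ‖ * m := by positivity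
  exact mul_le_mul (mul_le_mul_of_nonneg_left h4 h5) h2 (norm_nonneg _) (by positivity)

/-- the derivatives of the elements of the ideal -/
private theorem jac3_ideal {n M : ℕ} {P : Ideal (MvPolynomial (Fin (M + 1)) ℂ)}
    {W : (Fin (n + 1) → ℂ) → Fin (M + 1) → ℂ} {u₀ : Fin (n + 1) → ℂ} (hW : AnalyticAt ℂ W u₀)
    (hWP : ∀ᶠ u in 𝓝 u₀, ∀ T ∈ P, eval (W u) T = 0) {G : MvPolynomial (Fin (M + 1)) ℂ}
    (h0 : ∀ᶠ u in 𝓝 u₀, eval (W u) G = 0 → fderiv ℂ (fun u' => eval (W u') G) u = 0)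
    {f : MvPolynomial (Fin (M + 1)) ℂ} (hf : f ∈ P ⊔ Ideal.span {G}) :
    ∃ C : ℝ, 0 ≤ C ∧ ∀ᶠ u in 𝓝 u₀, ‖fderiv ℂ (fun u' => eval (W u') f) u‖ ^ 2 ≤ C * ‖eval (W u) G‖ := by
  have han : ∀ g : MvPolynomial (Fin (M + 1)) ℂ, AnalyticAt ℂ (fun u => eval (W u) g) u₀ := by
    intro g
    exact AnalyticAt.comp (g := fun y => eval y g) (AnalyticOnNhd.eval_mvPolynomial g _ (Set.mem_univ _)) hW
  obtain ⟨A, hA0, hA⟩ := Pool.Agent.H39.SX.norm_fderiv_sq_le (han G) h0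
  obtain ⟨p, hp, q, hq, hpq⟩ := Submodule.mem_sup.1 hf
  obtain ⟨a, ha⟩ := Ideal.mem_span_singleton'.1 hq
  subst ha
  subst hpq
  -- bounds
  set K : ℝ := ‖eval (W u₀) a‖ + 1 with hK
  set K1 : ℝ := ‖fderiv ℂ (fun u => eval (W u) a) u₀‖ + 1 with hK1
  set K2 : ℝ := ‖eval (W u₀) G‖ + 1 with hK2
  have e1 : ∀ᶠ u in 𝓝 u₀, ‖eval (W u) a‖ ≤ K := by
    have h1 : ContinuousAt (fun u => ‖eval (W u) a‖) u₀ := (han a).continuousAt.norm
    filter_upwards [h1.eventually (Iio_mem_nhds (lt_add_one (‖eval (W u₀) a‖)))] with w hw using le_of_lt hw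
  have e2 : ∀ᶠ u in 𝓝 u₀, ‖fderiv ℂ (fun u => eval (W u) a) u‖ ≤ K1 := by
    have h1 : ContinuousAt (fun u => ‖fderiv ℂ (fun u => eval (W u) a) u‖) u₀ := (han a).fderiv.continuousAt.norm
    filter_upwards [h1.eventually (Iio_mem_nhds (lt_add_one (‖fderiv ℂ (fun u => eval (W u) a) u₀‖)))] with w hw
      using le_of_lt hw
  have e3 : ∀ᶠ u in 𝓝 u₀, ‖eval (W u) G‖ ≤ K2 := by
    have h1 : ContinuousAt (fun u => ‖eval (W u) G‖) u₀ := (han G).continuousAt.norm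
    filter_upwards [h1.eventually (Iio_mem_nhds (lt_add_one (‖eval (W u₀) G‖)))] with w hw using le_of_lt hw
  have hK0 : 0 ≤ K := by positivity
  have hK10 : 0 ≤ K1 := by positivity
  have hK20 : 0 ≤ K2 := by positivity
  refine ⟨2 * (K ^ 2 * A + K1 ^ 2 * K2), by positivity, ?_⟩
  filter_upwards [hWP.eventually_nhds, (han a).eventually_analyticAt, (han G).eventually_analyticAt, hA, e1, e2, e3]
    with u h1 h2 h3 h4 h5 h6 h7
  have h8 : (fun u' => eval (W u') (p + a * G)) =ᶠ[𝓝 u] fun u' => eval (W u') a * eval (W u') G := by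
    filter_upwards [h1] with w hw
    rw [map_add, map_mul, hw p hp, zero_add]
  have h9 : fderiv ℂ (fun u' => eval (W u') (p + a * G)) u =
      eval (W u) a • fderiv ℂ (fun u' => eval (W u') G) u + eval (W u) G • fderiv ℂ (fun u' => eval (W u') a) u := by
    rw [h8.fderiv_eq]
    exact (h2.differentiableAt.hasFDerivAt.mul h3.differentiableAt.hasFDerivAt).fderiv
  rw [h9]
  set D1 := ‖fderiv ℂ (fun u' => eval (W u') G) u‖ with hD1
  set D2 := ‖fderiv ℂ (fun u' => eval (W u') a) u‖ with hD2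
  set γ := ‖eval (W u) G‖ with hγ
  have h10 : ‖eval (W u) a • fderiv ℂ (fun u' => eval (W u') G) u + eval (W u) G • fderiv ℂ (fun u' => eval (W u') a) u‖
      ≤ K * D1 + γ * K1 := by
    refine (norm_add_le _ _).trans ?_
    rw [norm_smul, norm_smul]
    exact add_le_add (mul_le_mul_of_nonneg_right h5 (norm_nonneg _)) (mul_le_mul_of_nonneg_left h6 (norm_nonneg _))
  have hD10 : 0 ≤ D1 := norm_nonneg _
  have hγ0 : 0 ≤ γ := norm_nonneg _
  calc ‖eval (W u) a • fderiv ℂ (fun u' => eval (W u') G) u + eval (W u) G • fderiv ℂ (fun u' => eval (W u') a) u‖ ^ 2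
      ≤ (K * D1 + γ * K1) ^ 2 := pow_le_pow_left₀ (norm_nonneg _) h10 2
    _ ≤ 2 * ((K * D1) ^ 2 + (γ * K1) ^ 2) := by nlinarith [sq_nonneg (K * D1 - γ * K1)]
    _ = 2 * (K ^ 2 * D1 ^ 2 + K1 ^ 2 * (γ * γ)) := by ring
    _ ≤ 2 * (K ^ 2 * (A * γ) + K1 ^ 2 * (K2 * γ)) := by
        refine mul_le_mul_of_nonneg_left (add_le_add ?_ ?_) (by norm_num)
        · exact mul_le_mul_of_nonneg_left h4 (sq_nonneg _)
        · exact mul_le_mul_of_nonneg_left (mul_le_mul_of_nonneg_right h7 hγ0) (sq_nonneg _)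
    _ = 2 * (K ^ 2 * A + K1 ^ 2 * K2) * γ := by ring


theorem jac_sq_le3 {n M : ℕ} {P : Ideal (MvPolynomial (Fin (M + 1)) ℂ)}
    {W : (Fin (n + 1) → ℂ) → Fin (M + 1) → ℂ} {u₀ : Fin (n + 1) → ℂ} (hW : AnalyticAt ℂ W u₀)
    (hWP : ∀ᶠ u in 𝓝 u₀, ∀ T ∈ P, eval (W u) T = 0) {G : MvPolynomial (Fin (M + 1)) ℂ}
    (hdim : Module.finrank ℂ (conTan (P ⊔ Ideal.span {G}) (W u₀)) ≤ n)
    (h0 : ∀ᶠ u in 𝓝 u₀, eval (W u) G = 0 → fderiv ℂ (fun u' => eval (W u') G) u = 0)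
    (B : Fin (n + 1) → MvPolynomial (Fin (M + 1)) ℂ) :
    ∃ C : ℝ, 0 ≤ C ∧ ∀ᶠ u in 𝓝 u₀,
      ‖(fderiv ℂ (fun u' a => eval (W u') (B a)) u).det‖ ^ 2 ≤ C * ‖eval (W u) G‖ := by
  classical
  obtain ⟨c, k, f, hckM, hkn, hfQ, hfli⟩ := jac3_indep hdim
  have hck : c + k = Fintype.card (Fin (M + 1)) := by
    rw [Fintype.card_fin]
    exact hckM
  obtain ⟨I, hI⟩ := Pool.Agent.H13.SM.Inv_exists_coords hck hfli
  choose Cf hCf0 hCf using fun j => jac3_ideal hW hWP h0 (hfQ j)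
  have hWc : ContinuousAt W u₀ := hW.continuousAt
  -- the map `Φ`
  let Φ : (Fin (M + 1) → ℂ) → ((Fin (M + 1) → ℂ) →L[ℂ] (Fin c → ℂ) × (Fin k → ℂ)) := fun y =>
    (ContinuousLinearMap.pi fun j => jac3_grd (f j) y).prod
      (ContinuousLinearMap.pi fun i => (ContinuousLinearMap.proj (I i) : (Fin (M + 1) → ℂ) →L[ℂ] ℂ))
  have hΦc : Continuous Φ := by
    have h1 : Continuous fun y => (ContinuousLinearMap.pi fun j => jac3_grd (f j) y :
        (Fin (M + 1) → ℂ) →L[ℂ] (Fin c → ℂ)) := by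
      have h2 : Continuous fun y : Fin (M + 1) → ℂ => (fun j => jac3_grd (f j) y) :=
        continuous_pi fun j => jac3_grd_cont (f j)
      exact (ContinuousLinearMap.piEquivL (𝕜 := ℂ) (E := Fin (M + 1) → ℂ) (fun _ : Fin c => ℂ)).continuous.comp h2
    exact (ContinuousLinearMap.prodₗᵢ ℂ :
      (((Fin (M + 1) → ℂ) →L[ℂ] (Fin c → ℂ)) × ((Fin (M + 1) → ℂ) →L[ℂ] (Fin k → ℂ))) ≃ₗᵢ[ℂ] _).continuous.comp
      (h1.prodMk continuous_const)
  have hΦinj : Function.Injective (Φ (W u₀) : (Fin (M + 1) → ℂ) →ₗ[ℂ] (Fin c → ℂ) × (Fin k → ℂ)) := by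
    rw [injective_iff_map_eq_zero]
    intro v hv
    apply hI v
    · intro j
      have h1 := congrFun (congrArg Prod.fst hv) j
      have h2 : jac3_grd (f j) (W u₀) v = 0 := h1
      rwa [jac3_grd_apply] at h2
    · intro i
      have h1 := congrFun (congrArg Prod.snd hv) i
      exact h1
  have hdimE : Module.finrank ℂ (Fin (M + 1) → ℂ) = Module.finrank ℂ ((Fin c → ℂ) × (Fin k → ℂ)) := by
    rw [Module.finrank_prod, Module.finrank_fintype_fun_eq_card, Module.finrank_fintype_fun_eq_card,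
      Module.finrank_fintype_fun_eq_card, Fintype.card_fin, Fintype.card_fin, Fintype.card_fin, hckM]
  let Lc : (Fin (M + 1) → ℂ) ≃L[ℂ] (Fin c → ℂ) × (Fin k → ℂ) :=
    (LinearEquiv.ofInjectiveOfFinrankEq (Φ (W u₀) : (Fin (M + 1) → ℂ) →ₗ[ℂ] (Fin c → ℂ) × (Fin k → ℂ))
      hΦinj hdimE).toContinuousLinearEquiv
  have hLc : (Lc : (Fin (M + 1) → ℂ) →L[ℂ] (Fin c → ℂ) × (Fin k → ℂ)) = Φ (W u₀) := by
    ext1 v
    rfl
  have hΦW : ContinuousAt (fun u => Φ (W u)) u₀ := hΦc.continuousAt.comp hWc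
  have hinv : ContinuousAt (fun u => ContinuousLinearMap.inverse (Φ (W u))) u₀ := by
    have h1 : ContinuousAt (ContinuousLinearMap.inverse :
        ((Fin (M + 1) → ℂ) →L[ℂ] (Fin c → ℂ) × (Fin k → ℂ)) → _) (Φ (W u₀)) := by
      rw [← hLc]
      exact (contDiffAt_map_inverse (n := 0) Lc).continuousAt
    exact ContinuousAt.comp (f := fun u => Φ (W u)) h1 hΦW
  have hrng : ∀ᶠ u in 𝓝 u₀, (ContinuousLinearMap.inverse (Φ (W u))).comp (Φ (W u)) = ContinuousLinearMap.id ℂ _ := by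
    have h1 : Set.range ((↑) : ((Fin (M + 1) → ℂ) ≃L[ℂ] (Fin c → ℂ) × (Fin k → ℂ)) → _) ∈ 𝓝 (Φ (W u₀)) := by
      rw [← hLc]
      exact ContinuousLinearEquiv.nhds Lc
    filter_upwards [hΦW.eventually h1] with u hu
    obtain ⟨e, he⟩ := hu
    have he' : (e : (Fin (M + 1) → ℂ) →L[ℂ] (Fin c → ℂ) × (Fin k → ℂ)) = Φ (W u) := he
    rw [← he', ContinuousLinearMap.inverse_equiv]
    exact e.coe_symm_comp_coe
  -- the bounded factor
  let Bg : (Fin (M + 1) → ℂ) → ((Fin (M + 1) → ℂ) →L[ℂ] (Fin (n + 1) → ℂ)) := fun y =>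
    ContinuousLinearMap.pi fun a => jac3_grd (B a) y
  have hBg : Continuous Bg := by
    have h2 : Continuous fun y : Fin (M + 1) → ℂ => (fun a => jac3_grd (B a) y) :=
      continuous_pi fun a => jac3_grd_cont (B a)
    exact (ContinuousLinearMap.piEquivL (𝕜 := ℂ) (E := Fin (M + 1) → ℂ) (fun _ : Fin (n + 1) => ℂ)).continuous.comp h2
  let Λ : (Fin (n + 1) → ℂ) → ((Fin c → ℂ) × (Fin k → ℂ) →L[ℂ] (Fin (n + 1) → ℂ)) := fun u =>
    (Bg (W u)).comp (ContinuousLinearMap.inverse (Φ (W u)))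
  have hΛ : ContinuousAt Λ u₀ := (hBg.continuousAt.comp hWc).clm_comp hinv
  have hD : ContinuousAt (fun u => fderiv ℂ W u) u₀ := hW.fderiv.continuousAt
  let R : (Fin (n + 1) → ℂ) → ((Fin (n + 1) → ℂ) →L[ℂ] (Fin c → ℂ)) := fun u =>
    ContinuousLinearMap.pi fun j => fderiv ℂ (fun u' => eval (W u') (f j)) u
  let S : (Fin (n + 1) → ℂ) → ((Fin (n + 1) → ℂ) →L[ℂ] (Fin k → ℂ)) := fun u =>
    (ContinuousLinearMap.pi fun i => (ContinuousLinearMap.proj (I i) : (Fin (M + 1) → ℂ) →L[ℂ] ℂ)).comp (fderiv ℂ W u)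
  have hS : ContinuousAt S u₀ := continuousAt_const.clm_comp hD
  let Em : (Fin (n + 1) → ℂ) → ((Fin (n + 1) → ℂ) →L[ℂ] (Fin (n + 1) → ℂ)) := fun u =>
    (Λ u).comp ((ContinuousLinearMap.inl ℂ (Fin c → ℂ) (Fin k → ℂ)).comp (R u))
  let Fm : (Fin (n + 1) → ℂ) → ((Fin (n + 1) → ℂ) →L[ℂ] (Fin (n + 1) → ℂ)) := fun u =>
    (Λ u).comp ((ContinuousLinearMap.inr ℂ (Fin c → ℂ) (Fin k → ℂ)).comp (S u))
  have hFm : ContinuousAt Fm u₀ := hΛ.clm_comp (continuousAt_const.clm_comp hS)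
  have hFdet : ∀ u, (Fm u).det = 0 := by
    intro u
    have h1 : LinearMap.ker (S u : (Fin (n + 1) → ℂ) →ₗ[ℂ] (Fin k → ℂ)) ≠ ⊥ := by
      apply LinearMap.ker_ne_bot_of_finrank_lt
      rw [Module.finrank_fintype_fun_eq_card, Module.finrank_fintype_fun_eq_card, Fintype.card_fin, Fintype.card_fin]
      omega
    obtain ⟨v, hv, hv0⟩ := (Submodule.ne_bot_iff _).1 h1
    by_contra hcon
    have h2 : LinearMap.det (Fm u : (Fin (n + 1) → ℂ) →ₗ[ℂ] (Fin (n + 1) → ℂ)) ≠ 0 := hcon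
    have h3 : LinearMap.ker (Fm u : (Fin (n + 1) → ℂ) →ₗ[ℂ] (Fin (n + 1) → ℂ)) = ⊥ := by
      by_contra h4
      exact h2 (LinearMap.det_eq_zero_iff_ker_ne_bot.2 h4)
    apply hv0
    have h4 : v ∈ LinearMap.ker (Fm u : (Fin (n + 1) → ℂ) →ₗ[ℂ] (Fin (n + 1) → ℂ)) := by
      rw [LinearMap.mem_ker]
      show (Λ u) ((ContinuousLinearMap.inr ℂ (Fin c → ℂ) (Fin k → ℂ)) (S u v)) = 0
      have h5 : S u v = 0 := hv
      rw [h5, map_zero, map_zero]
    rw [h3] at h4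
    exact (Submodule.mem_bot ℂ).1 h4
  -- the decomposition of the Jacobian matrix
  have hdec : ∀ᶠ u in 𝓝 u₀, fderiv ℂ (fun u' a => eval (W u') (B a)) u = Em u + Fm u := by
    filter_upwards [hrng, hW.eventually_analyticAt] with u h1 h2
    have hgr : ∀ g : MvPolynomial (Fin (M + 1)) ℂ,
        HasFDerivAt (fun u' => eval (W u') g) ((jac3_grd g (W u)).comp (fderiv ℂ W u)) u := by
      intro g
      exact (Pool.Agent.H13.SM.Inv_hasFDerivAt_eval g (W u)).comp u h2.differentiableAt.hasFDerivAt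
    have h3 : HasFDerivAt (fun u' a => eval (W u') (B a)) ((Bg (W u)).comp (fderiv ℂ W u)) u := by
      have h4 : HasFDerivAt (fun u' a => eval (W u') (B a))
          (ContinuousLinearMap.pi fun a => (jac3_grd (B a) (W u)).comp (fderiv ℂ W u)) u :=
        hasFDerivAt_pi.2 fun a => hgr (B a)
      exact h4
    rw [h3.fderiv]
    have h4 : (Bg (W u)).comp (fderiv ℂ W u) = (Λ u).comp ((Φ (W u)).comp (fderiv ℂ W u)) := by
      show _ = ((Bg (W u)).comp (ContinuousLinearMap.inverse (Φ (W u)))).comp ((Φ (W u)).comp (fderiv ℂ W u))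
      rw [ContinuousLinearMap.comp_assoc, ← ContinuousLinearMap.comp_assoc (ContinuousLinearMap.inverse (Φ (W u))), h1,
        ContinuousLinearMap.id_comp]
    rw [h4]
    ext v a
    have h5 : (Φ (W u)) (fderiv ℂ W u v) = (ContinuousLinearMap.inl ℂ (Fin c → ℂ) (Fin k → ℂ)) (R u v) +
        (ContinuousLinearMap.inr ℂ (Fin c → ℂ) (Fin k → ℂ)) (S u v) := by
      refine Prod.ext ?_ ?_
      · funext j
        have h6 : fderiv ℂ (fun u' => eval (W u') (f j)) u = (jac3_grd (f j) (W u)).comp (fderiv ℂ W u) := (hgr (f j)).fderiv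
        show jac3_grd (f j) (W u) (fderiv ℂ W u v) = fderiv ℂ (fun u' => eval (W u') (f j)) u v + 0
        rw [h6, add_zero]
        rfl
      · funext i
        show fderiv ℂ W u v (I i) = 0 + fderiv ℂ W u v (I i)
        rw [zero_add]
    show (Λ u) ((Φ (W u)) (fderiv ℂ W u v)) a = ((Λ u) ((ContinuousLinearMap.inl ℂ (Fin c → ℂ) (Fin k → ℂ)) (R u v)) +
      (Λ u) ((ContinuousLinearMap.inr ℂ (Fin c → ℂ) (Fin k → ℂ)) (S u v))) a
    rw [h5, map_add]
  -- bounds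
  set K1 : ℝ := ‖Λ u₀‖ + 1 with hK1
  set K2 : ℝ := ‖Fm u₀‖ + 1 with hK2
  have hR : ∀ᶠ u in 𝓝 u₀, ‖R u‖ ^ 2 ≤ (∑ j, Cf j) * ‖eval (W u) G‖ := by
    filter_upwards [eventually_all.2 hCf] with u hu
    have h1 : ‖R u‖ ≤ Real.sqrt ((∑ j, Cf j) * ‖eval (W u) G‖) := by
      refine ContinuousLinearMap.opNorm_le_bound _ (Real.sqrt_nonneg _) fun v => ?_
      refine (pi_norm_le_iff_of_nonneg (by positivity)).2 fun j => ?_
      show ‖fderiv ℂ (fun u' => eval (W u') (f j)) u v‖ ≤ _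
      refine (ContinuousLinearMap.le_opNorm _ _).trans (mul_le_mul_of_nonneg_right ?_ (norm_nonneg _))
      refine Real.le_sqrt_of_sq_le ((hu j).trans (mul_le_mul_of_nonneg_right ?_ (norm_nonneg _)))
      exact Finset.single_le_sum (fun i _ => hCf0 i) (Finset.mem_univ j)
    calc ‖R u‖ ^ 2 ≤ Real.sqrt ((∑ j, Cf j) * ‖eval (W u) G‖) ^ 2 := pow_le_pow_left₀ (norm_nonneg _) h1 2
      _ = (∑ j, Cf j) * ‖eval (W u) G‖ := Real.sq_sqrt (mul_nonneg (Finset.sum_nonneg fun i _ => hCf0 i) (norm_nonneg _))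
  have hCs : 0 ≤ ∑ j, Cf j := Finset.sum_nonneg fun i _ => hCf0 i
  have e1 : ∀ᶠ u in 𝓝 u₀, ‖Λ u‖ ≤ K1 := by
    filter_upwards [hΛ.norm.eventually (Iio_mem_nhds (lt_add_one (‖Λ u₀‖)))] with w hw using le_of_lt hw
  have e2 : ∀ᶠ u in 𝓝 u₀, ‖Fm u‖ ≤ K2 := by
    filter_upwards [hFm.norm.eventually (Iio_mem_nhds (lt_add_one (‖Fm u₀‖)))] with w hw using le_of_lt hw
  have e3 : ∀ᶠ u in 𝓝 u₀, ‖eval (W u) G‖ ≤ ‖eval (W u₀) G‖ + 1 := by
    have h1 : ContinuousAt (fun u => ‖eval (W u) G‖) u₀ :=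
      ((MvPolynomial.continuous_eval G).continuousAt.comp hWc).norm
    filter_upwards [h1.eventually (Iio_mem_nhds (lt_add_one (‖eval (W u₀) G‖)))] with w hw using le_of_lt hw
  have hK10 : 0 ≤ K1 := by positivity
  have hK20 : 0 ≤ K2 := by positivity
  set K3 : ℝ := Real.sqrt ((∑ j, Cf j) * (‖eval (W u₀) G‖ + 1)) with hK3
  have hK30 : 0 ≤ K3 := Real.sqrt_nonneg _
  obtain ⟨C, hC0, hC⟩ := jac3_det_lip (n + 1) (K1 * K3 + K2)
  refine ⟨C ^ 2 * K1 ^ 2 * ∑ j, Cf j, by positivity, ?_⟩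
  filter_upwards [hdec, hR, e1, e2, e3] with u h1 h2 h3 h4 h5
  have h6 : ‖R u‖ ≤ K3 := by
    refine Real.le_sqrt_of_sq_le (h2.trans (mul_le_mul_of_nonneg_left h5 hCs))
  have h7 : ‖Em u‖ ≤ K1 * ‖R u‖ := by
    refine ContinuousLinearMap.opNorm_le_bound _ (by positivity) fun v => ?_
    show ‖(Λ u) ((ContinuousLinearMap.inl ℂ (Fin c → ℂ) (Fin k → ℂ)) (R u v))‖ ≤ _
    have h8 : ‖(ContinuousLinearMap.inl ℂ (Fin c → ℂ) (Fin k → ℂ)) (R u v)‖ = ‖R u v‖ := by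
      rw [ContinuousLinearMap.inl_apply, Prod.norm_mk, norm_zero]
      exact max_eq_left (norm_nonneg _)
    calc ‖(Λ u) ((ContinuousLinearMap.inl ℂ (Fin c → ℂ) (Fin k → ℂ)) (R u v))‖
        ≤ ‖Λ u‖ * ‖(ContinuousLinearMap.inl ℂ (Fin c → ℂ) (Fin k → ℂ)) (R u v)‖ := ContinuousLinearMap.le_opNorm _ _
      _ ≤ K1 * (‖R u‖ * ‖v‖) := by
          rw [h8]
          exact mul_le_mul h3 (ContinuousLinearMap.le_opNorm _ _) (norm_nonneg _) hK10
      _ = K1 * ‖R u‖ * ‖v‖ := by ring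
  have h8 : ‖Em u‖ ≤ K1 * K3 := h7.trans (mul_le_mul_of_nonneg_left h6 hK10)
  have h9 : ‖Em u + Fm u‖ ≤ K1 * K3 + K2 := (norm_add_le _ _).trans (add_le_add h8 h4)
  have h10 : ‖Fm u‖ ≤ K1 * K3 + K2 := h4.trans (le_add_of_nonneg_left (by positivity))
  have h11 := hC (Em u + Fm u) (Fm u) h9 h10
  rw [hFdet u, sub_zero, add_sub_cancel_right] at h11
  rw [h1]
  calc ‖(Em u + Fm u).det‖ ^ 2 ≤ (C * (K1 * ‖R u‖)) ^ 2 :=
        pow_le_pow_left₀ (norm_nonneg _) (h11.trans (mul_le_mul_of_nonneg_left h7 hC0)) 2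
    _ = C ^ 2 * K1 ^ 2 * ‖R u‖ ^ 2 := by ring
    _ ≤ C ^ 2 * K1 ^ 2 * ((∑ j, Cf j) * ‖eval (W u) G‖) := mul_le_mul_of_nonneg_left h2 (by positivity)
    _ = C ^ 2 * K1 ^ 2 * (∑ j, Cf j) * ‖eval (W u) G‖ := by ring

end Pool.Agent.H39.SY
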