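import Pool.Agent.H39.SY.Aff

/-!
# Project SY, module Mult3: multiplicities along a chart

`x = σ u₀`.  The class of `x` is in `variety I \ ∅` (`Homog`, `vanishesAt_mk_iff`), `h.mult` gives a
tuple `α'`, not zero at `x`, and a form `T`, `T (x) ≠ 0`, with
`T * L ∈ radical (span {L} ⊔ I) ^ 2 ⊔ I`, `L = aeval (F α') (G j)`.  As in
`Pool.Agent.H39.SX.fderiv_eq_zero_of_ramM` (module SX.Ram, model): `eval (σ u₀) L = 0` (the values
`F α' a` at `x` are proportional to the values `F α a`; `eval_aff`), all elements of the radical vanish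
at `σ u₀`, so the derivative of `u ↦ eval (σ u) (T * L)` at `u₀` is zero, and so is that of
`u ↦ eval (σ u) L`.  Near `u₀` the function of the conclusion is `(eval (σ u) (F α' b))⁻¹ ^ d *
eval (σ u) L` (`base_ne`, `aff_eq`, `eval_aff`), so its derivative at `u₀` is zero.
-/

open MvPolynomial Filter Topology
open Pool.Agent.H5.DG (Homog)
open Pool.Agent.H5.DG3

noncomputable section

namespace Pool.Agent.H39.SY

variable {N M m s n : ℕ} {P : Ideal (MvPolynomial (Fin (M + 1)) ℂ)}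
  {G : Fin m → MvPolynomial (Fin (M + 1)) ℂ} {I : Ideal (MvPolynomial (Fin (N + 1)) ℂ)}
  {F : Fin s → Fin (M + 1) → MvPolynomial (Fin (N + 1)) ℂ}

private theorem Mult3_analytic {τ : (Fin n → ℂ) → Fin (N + 1) → ℂ} {u : Fin n → ℂ}
    (hτ : AnalyticAt ℂ τ u) (g : MvPolynomial (Fin (N + 1)) ℂ) :
    AnalyticAt ℂ (fun u' => eval (τ u') g) u := by
  have h := AnalyticAt.aeval_mvPolynomial (f := τ) (z := u) (analyticAt_pi_iff.1 hτ) g
  simpa only [MvPolynomial.aeval_eq_eval] using h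

private theorem Mult3_mul {τ : (Fin n → ℂ) → Fin (N + 1) → ℂ} {u : Fin n → ℂ}
    (hτ : AnalyticAt ℂ τ u) (a b : MvPolynomial (Fin (N + 1)) ℂ) :
    fderiv ℂ (fun u' => eval (τ u') (a * b)) u =
      eval (τ u) a • fderiv ℂ (fun u' => eval (τ u') b) u +
        eval (τ u) b • fderiv ℂ (fun u' => eval (τ u') a) u := by
  have h : (fun u' => eval (τ u') (a * b)) = (fun u' => eval (τ u') a * eval (τ u') b) := by
    funext u'
    rw [map_mul]
  rw [h]
  exact fderiv_fun_mul (Mult3_analytic hτ a).differentiableAt (Mult3_analytic hτ b).differentiableAt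

private theorem Mult3_add {τ : (Fin n → ℂ) → Fin (N + 1) → ℂ} {u : Fin n → ℂ}
    (hτ : AnalyticAt ℂ τ u) (a b : MvPolynomial (Fin (N + 1)) ℂ) :
    fderiv ℂ (fun u' => eval (τ u') (a + b)) u =
      fderiv ℂ (fun u' => eval (τ u') a) u + fderiv ℂ (fun u' => eval (τ u') b) u := by
  have h : (fun u' => eval (τ u') (a + b)) = (fun u' => eval (τ u') a + eval (τ u') b) := by
    funext u'
    rw [map_add]
  rw [h]
  exact fderiv_fun_add (Mult3_analytic hτ a).differentiableAt (Mult3_analytic hτ b).differentiableAt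

private theorem Mult3_form {τ : (Fin n → ℂ) → Fin (N + 1) → ℂ} {u : Fin n → ℂ}
    (hτ : AnalyticAt ℂ τ u) (hP : ∀ᶠ u' in 𝓝 u, ∀ Q ∈ I, eval (τ u') Q = 0)
    {L T : MvPolynomial (Fin (N + 1)) ℂ} (hT : eval (τ u) T ≠ 0)
    (hTL : T * L ∈ (Ideal.radical (Ideal.span {L} ⊔ I)) ^ 2 ⊔ I)
    (h : eval (τ u) L = 0) : fderiv ℂ (fun u' => eval (τ u') L) u = 0 := by
  classical
  have hP0 : ∀ Q ∈ I, eval (τ u) Q = 0 := hP.self_of_nhds
  have hrad : Ideal.radical (Ideal.span {L} ⊔ I) ≤ RingHom.ker (eval (τ u)) := by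
    refine ((RingHom.ker_isPrime (eval (τ u))).radical_le_iff).2 (sup_le ?_ fun Q hQ => ?_)
    · rw [Ideal.span_singleton_le_iff_mem]
      exact h
    · exact hP0 Q hQ
  have hsq : ∀ g ∈ Ideal.radical (Ideal.span {L} ⊔ I) * Ideal.radical (Ideal.span {L} ⊔ I),
      fderiv ℂ (fun u' => eval (τ u') g) u = 0 := by
    intro g hg
    induction hg using Submodule.mul_induction_on' with
    | mem_mul_mem a ha b hb =>
      have h1 : eval (τ u) a = 0 := hrad ha
      have h2 : eval (τ u) b = 0 := hrad hb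
      rw [Mult3_mul hτ, h1, h2]
      ext v
      simp
    | add a _ b _ ha hb => rw [Mult3_add hτ, ha, hb, add_zero]
  have hPd : ∀ g ∈ I, fderiv ℂ (fun u' => eval (τ u') g) u = 0 := by
    intro g hg
    have h1 : (fun u' => eval (τ u') g) =ᶠ[𝓝 u] fun _ => 0 := by
      filter_upwards [hP] with u' hu'
      exact hu' g hg
    rw [h1.fderiv_eq]
    exact fderiv_const_apply 0
  obtain ⟨g₁, hg₁, g₂, hg₂, hg⟩ := Submodule.mem_sup.1 hTL
  rw [sq] at hg₁
  have h1 : fderiv ℂ (fun u' => eval (τ u') (T * L)) u = 0 := by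
    rw [← hg, Mult3_add hτ, hsq g₁ hg₁, hPd g₂ hg₂, add_zero]
  rw [Mult3_mul hτ, h] at h1
  ext v
  have h2 := congrArg (fun L : (Fin n → ℂ) →L[ℂ] ℂ => L v) h1
  simpa [hT] using h2

theorem fderiv_eq_zero_of_mult {q : ℕ} (h : RamifiedMorphism q P G I ∅ ∅ F)
    {g : MvPolynomial (Fin (M + 1)) ℂ} {d : ℕ} (hG : g.IsHomogeneous d)
    {σ : (Fin n → ℂ) → Fin (N + 1) → ℂ} {u₀ : Fin n → ℂ} (hσ : AnalyticAt ℂ σ u₀)
    (hσI : ∀ᶠ u in 𝓝 u₀, σ u ∈ Zer I) (hσ0 : σ u₀ ≠ 0)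
    (hm : PullbackMult 2 I F g (Projectivization.mk ℂ (σ u₀) hσ0)) {α : Fin s}
    {b : Fin (M + 1)} (hb : eval (σ u₀) (F α b) ≠ 0) (h0 : eval (aff (F α) b (σ u₀)) g = 0) :
    fderiv ℂ (fun u => eval (aff (F α) b (σ u)) g) u₀ = 0 := by
  have hx : σ u₀ ∈ Zer I := hσI.self_of_nhds
  obtain ⟨β, ⟨a, ha⟩, T, e, hTe, hT, hTL⟩ := hm
  obtain ⟨eβ, heβ⟩ := h.morphism.hom β
  have ha' : eval (σ u₀) (F β a) ≠ 0 := by
    intro h1
    exact ha ((Pool.Agent.H17.vanishesAt_mk_iff (heβ a) _ _).2 h1)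
  have hT' : eval (σ u₀) T ≠ 0 := by
    intro h1
    exact hT ((Pool.Agent.H17.vanishesAt_mk_iff hTe _ _).2 h1)
  have hb' : eval (σ u₀) (F β b) ≠ 0 := base_ne h hx hb ha'
  have hL0 : eval (σ u₀) (aeval (F β) g) = 0 := by
    rw [aff_eq h hx hb hb', eval_aff hG hb'] at h0
    exact (mul_eq_zero.1 h0).resolve_left (pow_ne_zero _ (inv_ne_zero hb'))
  have hd := Mult3_form hσ hσI hT' hTL hL0
  have hc1 : ∀ᶠ u in 𝓝 u₀, eval (σ u) (F α b) ≠ 0 :=
    (Mult3_analytic hσ (F α b)).continuousAt.eventually_ne hb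
  have hc2 : ∀ᶠ u in 𝓝 u₀, eval (σ u) (F β b) ≠ 0 :=
    (Mult3_analytic hσ (F β b)).continuousAt.eventually_ne hb'
  have heq : (fun u => eval (aff (F α) b (σ u)) g) =ᶠ[𝓝 u₀]
      fun u => (eval (σ u) (F β b))⁻¹ ^ d * eval (σ u) (aeval (F β) g) := by
    filter_upwards [hσI, hc1, hc2] with u hu h1 h2
    rw [aff_eq h hu h1 h2, eval_aff hG h2]
  rw [heq.fderiv_eq]
  have hA : DifferentiableAt ℂ (fun u => (eval (σ u) (F β b))⁻¹ ^ d) u₀ :=
    (((Mult3_analytic hσ (F β b)).inv hb').pow d).differentiableAt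
  have hB : DifferentiableAt ℂ (fun u => eval (σ u) (aeval (F β) g)) u₀ :=
    (Mult3_analytic hσ _).differentiableAt
  rw [fderiv_fun_mul hA hB, hd, hL0]
  ext v
  simp only [ContinuousLinearMap.add_apply, ContinuousLinearMap.smul_apply, smul_eq_mul,
    ContinuousLinearMap.zero_apply, mul_zero, zero_mul, add_zero]

end Pool.Agent.H39.SY
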