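import Pool.Agent.H39.SY.RelA
import Pool.Agent.H39.SY.Aff

/-!
# Project SY, module RelB: a relation on the preimage of a set of codimension two

For every `α` and `b` let `𝔞 = I ⊔ span {aeval (F α) T | T ∈ Q} ⊔ span {aeval (F α) g}`.  Its minimal
primes `𝔮` are finitely many (`Ideal.finite_minimalPrimes_of_isNoetherianRing`) and homogeneous
(`𝔞` is homogeneous: `F α` are forms of the same degree, `Q` is homogeneous; for a prime `𝔮` the ideal
of the polynomials all of whose components are in `𝔮` is prime and contained in `𝔮`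
(`Ideal.homogeneousCore`, `Ideal.IsPrime.homogeneousCore`, or by hand), so a minimal prime is
homogeneous).  If `X l ∉ 𝔮` and `F α b ∉ 𝔮`: the `n` elements `aeval (fun i => algebraMap ℂ _ c *
ratio 𝔮 i l) (Λ a)` of `FunField 𝔮` are dependent (`no_indep`), which gives `R 𝔮 ≠ 0` such that
`aeval Λ (R 𝔮)` is zero at the point `c * ratio 𝔮 i l`.  If `x ∈ Zer 𝔮`, `x l = c` then
`eval (fun a => eval x (Λ a)) (R 𝔮) = 0`: a polynomial `T` which is zero at the point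
`(c * ratio 𝔮 i l)_i` is zero at `x` (`Pool.Agent.H13.SM.mem_pts_iff` for `c⁻¹ • x`, or
homogenise).  Otherwise (`X l ∈ 𝔮` or `F α b ∈ 𝔮`) take `R 𝔮 = 1`.  `R` = the product over all `α`, `b`
and `𝔮`.  If `x` is as in the statement then `aeval (F α) T` is zero at `x` for all `T ∈ Q` and for
`T = g` (`eval_aff`; `Q` is homogeneous), so the kernel of `eval x` contains `𝔞` and a minimal prime `𝔮`
(`Ideal.exists_minimalPrimes_le`), with `X l ∉ 𝔮` (`x l = c ≠ 0`) and `F α b ∉ 𝔮`.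
-/

open MvPolynomial
open Pool.Agent.H17GT (coordFun)
open Pool.Agent.H17LG.Variety (FunField ratio)
open Pool.Agent.H5.DG (Homog TD)
open Pool.Agent.H5.DG3

noncomputable section

namespace Pool.Agent.H39.SY

attribute [local instance] MvPolynomial.gradedAlgebra in
private theorem RelB_homog_iff {N : ℕ} {I : Ideal (MvPolynomial (Fin (N + 1)) ℂ)} :
    I.IsHomogeneous (homogeneousSubmodule (Fin (N + 1)) ℂ) ↔ Homog I := by
  constructor
  · intro h p hp k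
    have h1 := h k hp
    rw [← decomposition.decompose'_apply]
    exact h1
  · intro h k p hp
    have h1 := h p hp k
    rw [← decomposition.decompose'_apply] at h1
    exact h1

/-- Minimal primes of homogeneous ideals are homogeneous. -/
private theorem RelB_min_homog {N : ℕ} {I 𝔮 : Ideal (MvPolynomial (Fin (N + 1)) ℂ)} (hI : Homog I)
    (h𝔮 : 𝔮 ∈ I.minimalPrimes) : Homog 𝔮 := by
  let _ := MvPolynomial.gradedAlgebra (σ := Fin (N + 1)) (R := ℂ)
  rw [← RelB_homog_iff] at hI ⊢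
  have h1 : (𝔮.homogeneousCore (homogeneousSubmodule (Fin (N + 1)) ℂ)).toIdeal.IsPrime :=
    h𝔮.1.1.homogeneousCore
  have h2 : I ≤ (𝔮.homogeneousCore (homogeneousSubmodule (Fin (N + 1)) ℂ)).toIdeal :=
    hI.toIdeal_homogeneousCore_eq_self.symm.trans_le (Ideal.homogeneousCore_mono _ h𝔮.1.2)
  have h3 := h𝔮.2 ⟨h1, h2⟩ (Ideal.toIdeal_homogeneousCore_le _ 𝔮)
  have h4 : (𝔮.homogeneousCore (homogeneousSubmodule (Fin (N + 1)) ℂ)).toIdeal = 𝔮 :=
    le_antisymm (Ideal.toIdeal_homogeneousCore_le _ 𝔮) h3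
  rw [← h4]
  exact HomogeneousIdeal.isHomogeneous _

/-- An ideal generated by a homogeneous ideal and by forms is homogeneous. -/
private theorem RelB_sup_homog {N : ℕ} {I : Ideal (MvPolynomial (Fin (N + 1)) ℂ)} (hI : Homog I)
    {S : Set (MvPolynomial (Fin (N + 1)) ℂ)} (hS : ∀ p ∈ S, ∃ d, p.IsHomogeneous d) :
    Homog (I ⊔ Ideal.span S) := by
  let _ := MvPolynomial.gradedAlgebra (σ := Fin (N + 1)) (R := ℂ)
  rw [← RelB_homog_iff] at hI ⊢
  refine hI.sup (Ideal.homogeneous_span _ _ fun p hp => ?_)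
  obtain ⟨d, hd⟩ := hS p hp
  exact ⟨d, (mem_homogeneousSubmodule d p).2 hd⟩

/-- A relation between functions gives a relation at the points. -/
private theorem RelB_point {N n : ℕ} (𝔮 : Ideal (MvPolynomial (Fin (N + 1)) ℂ)) [𝔮.IsPrime]
    (h𝔮 : Homog 𝔮) {l : Fin (N + 1)} (hl : X l ∉ 𝔮) {c : ℂ} (hc : c ≠ 0)
    (Λ : Fin n → MvPolynomial (Fin (N + 1)) ℂ) {R : MvPolynomial (Fin n) ℂ}
    (hR : aeval (fun a => aeval (fun i => algebraMap ℂ (FunField 𝔮) c * ratio 𝔮 i l) (Λ a)) R = 0)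
    {x : Fin (N + 1) → ℂ} (hx : ∀ T ∈ 𝔮, eval x T = 0) (hxl : x l = c) :
    eval (fun a => eval x (Λ a)) R = 0 := by
  have hcf : coordFun 𝔮 l ≠ 0 := Pool.Agent.H17R.coordFun_ne_zero_iff.2 hl
  have h1 : aeval (fun i => algebraMap ℂ (FunField 𝔮) c * ratio 𝔮 i l) (aeval Λ R) = 0 := by
    rw [← hR, ← AlgHom.comp_apply, comp_aeval]
  have h2 : aeval (fun i => ratio 𝔮 i l)
      (aeval (fun i => (C c * X i : MvPolynomial (Fin (N + 1)) ℂ)) (aeval Λ R)) = 0 := by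
    rw [← AlgHom.comp_apply, comp_aeval]
    have h3 : (fun i => (aeval fun i => ratio 𝔮 i l : MvPolynomial (Fin (N + 1)) ℂ →ₐ[ℂ] _)
        (C c * X i)) = fun i => algebraMap ℂ (FunField 𝔮) c * ratio 𝔮 i l := by
      funext i
      rw [map_mul, aeval_X, aeval_C]
    rw [h3]
    exact h1
  have hw : (c⁻¹ • x) ∈ Pool.Agent.H13.SM.pts (fun i => ratio 𝔮 i l) := by
    refine (Pool.Agent.H13.SM.mem_pts_iff h𝔮 hcf).2 ⟨?_, ?_⟩
    · rw [Pi.smul_apply, smul_eq_mul, hxl, inv_mul_cancel₀ hc]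
    · exact Pool.Agent.H13.SM.cone_smul h𝔮 hx c⁻¹
  have h4 := hw _ h2
  have h5 : ∀ T : MvPolynomial (Fin (N + 1)) ℂ,
      eval (c⁻¹ • x) (aeval (fun i => (C c * X i : MvPolynomial (Fin (N + 1)) ℂ)) T) =
        eval x T := by
    intro T
    rw [← coe_aeval_eq_eval, ← coe_aeval_eq_eval]
    show aeval (c⁻¹ • x) (aeval (fun i => (C c * X i : MvPolynomial (Fin (N + 1)) ℂ)) T) =
      aeval x T
    rw [← AlgHom.comp_apply, comp_aeval]
    congr 2
    funext i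
    rw [map_mul, aeval_X, aeval_C, Pi.smul_apply, smul_eq_mul]
    show c * (c⁻¹ * x i) = x i
    rw [mul_inv_cancel_left₀ hc]
  rw [h5] at h4
  have h6 : eval x (aeval Λ R) = eval (fun a => eval x (Λ a)) R := by
    rw [← coe_aeval_eq_eval, ← coe_aeval_eq_eval]
    show aeval x (aeval Λ R) = aeval _ R
    rw [← AlgHom.comp_apply, comp_aeval]
    rfl
  rw [← h6]
  exact h4

theorem exists_rel3 {N M m s q n d : ℕ} {P : Ideal (MvPolynomial (Fin (M + 1)) ℂ)}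
    {G : Fin m → MvPolynomial (Fin (M + 1)) ℂ} {I : Ideal (MvPolynomial (Fin (N + 1)) ℂ)}
    {F : Fin s → Fin (M + 1) → MvPolynomial (Fin (N + 1)) ℂ} (hPp : P.IsPrime)
    (h : RamifiedMorphism q P G I ∅ ∅ F) (hTD : TD P (n + 2))
    {Q : Ideal (MvPolynomial (Fin (M + 1)) ℂ)} (hQp : Q.IsPrime) (hQ : Homog Q) (hPQ : P < Q)
    {g : MvPolynomial (Fin (M + 1)) ℂ} (hg : g.IsHomogeneous d) (hgQ : g ∉ Q)
    (l : Fin (N + 1)) {c : ℂ} (hc : c ≠ 0) (Λ : Fin n → MvPolynomial (Fin (N + 1)) ℂ) :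
    ∃ R : MvPolynomial (Fin n) ℂ, R ≠ 0 ∧ ∀ x ∈ Zer I, x l = c → ∀ α b, eval x (F α b) ≠ 0 →
      (∀ T ∈ Q, eval (aff (F α) b x) T = 0) → eval (aff (F α) b x) g = 0 →
      eval (fun a => eval x (Λ a)) R = 0 := by
  classical
  obtain ⟨S, hS⟩ : ∃ S : Fin s → Set (MvPolynomial (Fin (N + 1)) ℂ), ∀ α, S α =
      {p | ∃ T ∈ Q, (∃ k, T.IsHomogeneous k) ∧ p = aeval (F α) T} ∪ {aeval (F α) g} :=
    ⟨_, fun _ => rfl⟩
  have hSh : ∀ α, ∀ p ∈ S α, ∃ k, p.IsHomogeneous k := by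
    intro α p hp
    obtain ⟨e, he⟩ := h.morphism.hom α
    rw [hS α] at hp
    rcases hp with ⟨T, -, ⟨k, hk⟩, rfl⟩ | hp
    · exact ⟨_, hk.aeval (F α) he⟩
    · rw [Set.mem_singleton_iff.1 hp]
      exact ⟨_, hg.aeval (F α) he⟩
  have hhom : ∀ α, Homog (I ⊔ Ideal.span (S α)) := fun α => RelB_sup_homog h.homog (hSh α)
  have hfin : ∀ α, (I ⊔ Ideal.span (S α)).minimalPrimes.Finite := fun α =>
    Ideal.finite_minimalPrimes_of_isNoetherianRing _ _
  have key : ∀ (α : Fin s) (b : Fin (M + 1)) (𝔮 : Ideal (MvPolynomial (Fin (N + 1)) ℂ)),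
      ∃ R : MvPolynomial (Fin n) ℂ, R ≠ 0 ∧ (𝔮 ∈ (I ⊔ Ideal.span (S α)).minimalPrimes →
        ∀ x : Fin (N + 1) → ℂ, (∀ T ∈ 𝔮, eval x T = 0) → x l = c → eval x (F α b) ≠ 0 →
          eval (fun a => eval x (Λ a)) R = 0) := by
    intro α b 𝔮
    by_cases h𝔮 : 𝔮 ∈ (I ⊔ Ideal.span (S α)).minimalPrimes
    · by_cases hl : X l ∈ 𝔮
      · refine ⟨1, one_ne_zero, fun _ x hx hxl _ => ?_⟩
        have h1 := hx _ hl
        rw [eval_X, hxl] at h1
        exact absurd h1 hc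
      by_cases hb : F α b ∈ 𝔮
      · exact ⟨1, one_ne_zero, fun _ x hx _ hne => absurd (hx _ hb) hne⟩
      have : 𝔮.IsPrime := h𝔮.1.1
      have h𝔮h := RelB_min_homog (hhom α) h𝔮
      have hle : I ⊔ Ideal.span (S α) ≤ 𝔮 := h𝔮.1.2
      have hIle : I ≤ 𝔮 := le_sup_left.trans hle
      have hSle : ∀ p ∈ S α, p ∈ 𝔮 := fun p hp =>
        hle (Ideal.mem_sup_right (Ideal.subset_span hp))
      have hQ𝔮 : ∀ T ∈ Q, aeval (F α) T ∈ 𝔮 := by
        intro T hT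
        rw [← sum_homogeneousComponent T, map_sum]
        refine Ideal.sum_mem _ fun k _ => hSle _ ?_
        rw [hS α]
        exact Or.inl ⟨_, hQ T hT k, ⟨k, homogeneousComponent_isHomogeneous k T⟩, rfl⟩
      have hg𝔮 : aeval (F α) g ∈ 𝔮 := hSle _ (by rw [hS α]; exact Or.inr rfl)
      have h1 := no_indep hPp h hTD hQp hQ hPQ hg hgQ 𝔮 h𝔮h hIle ⟨l, hl⟩ hb hQ𝔮 hg𝔮
        (fun a => aeval (fun i => algebraMap ℂ (FunField 𝔮) c * ratio 𝔮 i l) (Λ a))
      rw [algebraicIndependent_iff] at h1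
      push Not at h1
      obtain ⟨R, hR0, hR⟩ := h1
      exact ⟨R, hR, fun _ x hx hxl _ => RelB_point 𝔮 h𝔮h hl hc Λ hR0 hx hxl⟩
    · exact ⟨1, one_ne_zero, fun h' => absurd h' h𝔮⟩
  choose R hR0 hR using key
  refine ⟨∏ α, ∏ b, ∏ 𝔮 ∈ (hfin α).toFinset, R α b 𝔮, ?_, ?_⟩
  · exact Finset.prod_ne_zero_iff.2 fun α _ => Finset.prod_ne_zero_iff.2 fun b _ =>
      Finset.prod_ne_zero_iff.2 fun 𝔮 _ => hR0 α b 𝔮
  · intro x hx hxl α b hb hQx hgx
    obtain ⟨e, he⟩ := h.morphism.hom α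
    have hform : ∀ (T : MvPolynomial (Fin (M + 1)) ℂ) (k : ℕ), T.IsHomogeneous k →
        eval (aff (F α) b x) T = 0 → eval x (aeval (F α) T) = 0 := by
      intro T k hT h0
      rw [eval_aff hT hb] at h0
      exact (mul_eq_zero.1 h0).resolve_left (pow_ne_zero _ (inv_ne_zero hb))
    have hker : I ⊔ Ideal.span (S α) ≤ RingHom.ker (eval x) := by
      refine sup_le (fun p hp => hx p hp) (Ideal.span_le.2 fun p hp => ?_)
      rw [hS α] at hp
      rcases hp with ⟨T, hT, ⟨k, hk⟩, rfl⟩ | hp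
      · exact hform T k hk (hQx T hT)
      · rw [Set.mem_singleton_iff.1 hp]
        exact hform g d hg hgx
    have : (RingHom.ker (eval x)).IsPrime := RingHom.ker_isPrime _
    obtain ⟨𝔮, h𝔮, h𝔮le⟩ := Ideal.exists_minimalPrimes_le hker
    have h1 := hR α b 𝔮 h𝔮 x (fun T hT => h𝔮le hT) hxl hb
    rw [map_prod]
    refine Finset.prod_eq_zero (Finset.mem_univ α) ?_
    rw [map_prod]
    refine Finset.prod_eq_zero (Finset.mem_univ b) ?_
    rw [map_prod]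
    exact Finset.prod_eq_zero ((hfin α).mem_toFinset.2 h𝔮) h1

end Pool.Agent.H39.SY
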