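import Pool.Agent.H13.SM.Grad
import Pool.Agent.H13.SM.Homog
import Pool.Agent.H5.DG.CoverDefs

/-!
# Project SY, module Slice: the tangent space of the slice `y b = 1`

`y` is in the tangent space `conTan (P ⊔ span {G}) y` of the cone (Euler's relation,
`Pool.Agent.H13.SM.euler` and `IsHomogeneous.sum_X_mul_pderiv` for `G`; note `eval y G = 0`), but not in
that of `P ⊔ span {X b - 1} ⊔ span {G}`, in which all vectors satisfy `v b = 0`.  So the second space,
which is contained in the first one, has a smaller dimension (`Submodule.finrank_lt_finrank_of_lt`).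
-/

open MvPolynomial
open Pool.Agent.H5.DG (Homog)
open Pool.Agent.H13.SM (conTan)

noncomputable section

namespace Pool.Agent.H39.SY

private theorem slice_mem_span {M : ℕ} {G : MvPolynomial (Fin (M + 1)) ℂ} {y v : Fin (M + 1) → ℂ}
    (hyG : eval y G = 0) (hv : ∑ i, v i * eval y (pderiv i G) = 0)
    {Q : MvPolynomial (Fin (M + 1)) ℂ} (hQ : Q ∈ Ideal.span {G}) :
    ∑ i, v i * eval y (pderiv i Q) = 0 := by
  obtain ⟨r, rfl⟩ := Ideal.mem_span_singleton'.1 hQ
  have h1 : ∀ i, v i * eval y (pderiv i (r * G)) = eval y r * (v i * eval y (pderiv i G)) := by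
    intro i
    rw [Derivation.leibniz, smul_eq_mul, smul_eq_mul, map_add, map_mul, map_mul, hyG, zero_mul, add_zero]
    ring
  rw [Finset.sum_congr rfl fun i _ => h1 i, ← Finset.mul_sum, hv, mul_zero]

theorem finrank_slice {M n d : ℕ} {P : Ideal (MvPolynomial (Fin (M + 1)) ℂ)} (hP : Homog P)
    {G : MvPolynomial (Fin (M + 1)) ℂ} (hG : G.IsHomogeneous d) {y : Fin (M + 1) → ℂ}
    (hy : ∀ T ∈ P, eval y T = 0) (hyG : eval y G = 0) {b : Fin (M + 1)} (hb : y b = 1)
    (h : Module.finrank ℂ (conTan (P ⊔ Ideal.span {G}) y) ≤ n + 1) :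
    Module.finrank ℂ (conTan (P ⊔ Ideal.span {X b - 1} ⊔ Ideal.span {G}) y) ≤ n := by
  have hle : conTan (P ⊔ Ideal.span {X b - 1} ⊔ Ideal.span {G}) y ≤ conTan (P ⊔ Ideal.span {G}) y :=
    fun v hv Q hQ => hv Q ((sup_le_sup_right le_sup_left _ :
      P ⊔ Ideal.span {G} ≤ P ⊔ Ideal.span {X b - 1} ⊔ Ideal.span {G}) hQ)
  have hmem : y ∈ conTan (P ⊔ Ideal.span {G}) y := by
    intro Q hQ
    obtain ⟨p, hp, r, hr, rfl⟩ := Submodule.mem_sup.1 hQ
    have h1 : ∑ i, y i * eval y (pderiv i p) = 0 := Pool.Agent.H13.SM.euler hP hy hp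
    have h2 : ∑ i, y i * eval y (pderiv i G) = 0 := by
      have h3 := congrArg (eval y) hG.sum_X_mul_pderiv
      rw [map_sum, map_nsmul, hyG, smul_zero] at h3
      simpa only [map_mul, eval_X] using h3
    have h3 := slice_mem_span hyG h2 hr
    simp only [map_add, mul_add, Finset.sum_add_distrib, h1, h3, add_zero]
  have hnot : y ∉ conTan (P ⊔ Ideal.span {X b - 1} ⊔ Ideal.span {G}) y := by
    intro h1
    have h2 := h1 (X b - 1) ((le_sup_right.trans le_sup_left :
      Ideal.span {(X b - 1 : MvPolynomial (Fin (M + 1)) ℂ)} ≤ _) (Ideal.mem_span_singleton_self _))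
    rw [Finset.sum_eq_single b] at h2
    · rw [map_sub, pderiv_X_self, pderiv_one, sub_zero, map_one, mul_one, hb] at h2
      exact one_ne_zero h2
    · intro i _ hi
      rw [map_sub, pderiv_X_of_ne hi.symm, pderiv_one, sub_zero, map_zero, mul_zero]
    · intro h3
      exact absurd (Finset.mem_univ b) h3
  have hlt : conTan (P ⊔ Ideal.span {X b - 1} ⊔ Ideal.span {G}) y < conTan (P ⊔ Ideal.span {G}) y :=
    lt_of_le_of_ne hle fun h1 => hnot (h1 ▸ hmem)
  have h1 := Submodule.finrank_lt_finrank_of_lt hlt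
  omega

end Pool.Agent.H39.SY
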