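import Pool.Agent.H39.SY.Aff
import Pool.Agent.H5.DG3.Dim3
import Pool.Agent.H13.SM.Pts
import Pool.Agent.H13.SM.Homog

/-!
# Project SY, module SurjA: a general point of `Y` is in the image

`X l ∉ I`; there are `α` and `a` with `F α a ∉ I` (`base` at a point of `variety I`), and then
`F α b ∉ I` (`aeval_notMem` below for the form `X b`).  `x i = ratio I i l`,
`u a = valAt I l (F α) a / valAt I l (F α) b`, `K = FunField I`.  There is an embedding of the ring
`A = ℂ[ratio P a b]` in `K` which maps `ratio P a b` to `u a`: a polynomial `T` is zero at `u` if and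
only if it is zero at `(ratio P a b)_a` (`⇒`: `aeval_notMem` after homogenisation, `exists_homogenise`;
`⇐`: `aeval_mem_of_maps`).  `K` is algebraic over `ℂ(u)` (`morph_algebraic`), so the finitely many
elements `x i` and `v = (aeval x (F α b))⁻¹` are integral over `A [1 / f (u)]` for some polynomial `f`,
`f (u) ≠ 0` (`exists_integral_multiple`; model: module `DG3.Spec` where the base is a polynomial ring).
Let `y ∈ Zer P`, `y b = 1`, `eval y f ≠ 0`.  The evaluation at `y` is a ring homomorphism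
`A [1 / f] → ℂ` (a polynomial which is zero at `u` is zero at `y`: `Pool.Agent.H13.SM.mem_pts_iff`),
which extends to the integral extension generated by the `x i` and `v` (`ℂ` is algebraically closed:
`RingHom.exists_extension`/`IsIntegral` lying over `Ideal.exists_ideal_over_maximal_of_isIntegral`, see
module `DG3.Spec` or `Pool.Agent.H13.SM.exists_lift`).  The images of the `x i` are the coordinates of a
point `x' ∈ Zer I` with `x' l = 1`, `eval x' (F α b) ≠ 0` (`v`), and `eval x' (F α a) = y a * eval x'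
(F α b)`.

`aeval_notMem`: the step `hΔI` in the proof of `not_subset_of_dim` (module DG3.Dim3, with
`B = Z = ∅`; `Dim3_notMem` is private there, copy it, or derive it from `not_subset_of_dim`: it gives a
point `x` of `variety I` with `¬ VanishesAt g (morph F x)`, so `aeval (F β) g ∉ I` for some `β`
(`vanishesAt_morph_iff`), and then for `α` by `compat`: `F α b ^ d * aeval (F β) g - F β b ^ d *
aeval (F α) g ∈ I`).
-/

open MvPolynomial
open Pool.Agent.H17LG.Variety (FunField ratio)
open Pool.Agent.H5.DG (Homog variety valAt eval_ratio_mem eval_ratio_zero_iff aeval_eq_pow_mul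
  exists_homogenise exists_X_notMem mem_of_forall)
open Pool.Agent.H5.DG3

noncomputable section

namespace Pool.Agent.H39.SY

/-! ### Specialisation -/

section Spec

/-- the extension of an evaluation to the integral closure -/
private theorem SurjA_ext {A K : Type} [CommRing A] [Field K] (φ : A →+* K)
    (hinj : Function.Injective φ) (ev : A →+* ℂ) (hev : Function.Surjective ev) (j : ℂ →+* A)
    (hj : ev.comp j = RingHom.id ℂ) :
    ∃ (B : Type) (_ : CommRing B) (_ : IsDomain B) (a : A →+* B) (b : B →+* K) (ψ : B →+* ℂ),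
      Function.Injective b ∧ b.comp a = φ ∧ ψ.comp a = ev ∧
      ∀ w : K, φ.IsIntegralElem w → ∃ w' : B, b w' = w := by
  let _ : Algebra A K := φ.toAlgebra
  have hmax : (RingHom.ker ev).IsMaximal := RingHom.ker_isMaximal_of_surjective ev hev
  have hker : RingHom.ker (algebraMap A (integralClosure A K)) ≤ RingHom.ker ev := by
    intro x hx
    rw [RingHom.mem_ker] at hx
    have h1 : φ x = 0 := congrArg (Subtype.val) hx
    rw [hinj (h1.trans (map_zero φ).symm), RingHom.mem_ker, map_zero]
  obtain ⟨Q, hQ, hQ2⟩ := Ideal.exists_ideal_over_maximal_of_isIntegral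
    (S := integralClosure A K) (RingHom.ker ev) hker
  have hQA : ∀ x : A, algebraMap A (integralClosure A K) x ∈ Q ↔ ev x = 0 := by
    intro x
    rw [← RingHom.mem_ker, ← hQ2, Ideal.mem_comap]
  let q : integralClosure A K →+* integralClosure A K ⧸ Q := Ideal.Quotient.mk Q
  let _ : Algebra ℂ (integralClosure A K ⧸ Q) :=
    ((q.comp (algebraMap A (integralClosure A K))).comp j).toAlgebra
  have hcomp : (algebraMap ℂ (integralClosure A K ⧸ Q)).comp ev =
      q.comp (algebraMap A (integralClosure A K)) := by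
    refine RingHom.ext fun x => ?_
    change q (algebraMap A (integralClosure A K) (j (ev x))) =
      q (algebraMap A (integralClosure A K) x)
    rw [← sub_eq_zero, ← map_sub, ← map_sub]
    refine Ideal.Quotient.eq_zero_iff_mem.2 ((hQA _).2 ?_)
    rw [map_sub, sub_eq_zero]
    exact RingHom.congr_fun hj (ev x)
  have hint : Algebra.IsIntegral ℂ (integralClosure A K ⧸ Q) := by
    refine ⟨fun y => ?_⟩
    obtain ⟨y, rfl⟩ := Ideal.Quotient.mk_surjective y
    have hy : IsIntegral A y := Algebra.IsIntegral.isIntegral y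
    obtain ⟨P, hP, hP2⟩ := hy
    refine ⟨P.map ev, hP.map ev, ?_⟩
    rw [Polynomial.eval₂_map, hcomp]
    change Polynomial.eval₂ (q.comp (algebraMap A (integralClosure A K))) (q y) P = 0
    rw [← Polynomial.hom_eval₂, hP2, map_zero]
  have hbij : Function.Bijective (algebraMap ℂ (integralClosure A K ⧸ Q)) :=
    IsAlgClosed.algebraMap_bijective_of_isIntegral
  refine ⟨integralClosure A K, inferInstance, inferInstance,
    algebraMap A (integralClosure A K), (integralClosure A K).val.toRingHom,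
    ((RingEquiv.ofBijective _ hbij).symm : _ →+* ℂ).comp q, Subtype.val_injective, rfl, ?_, ?_⟩
  · rw [RingHom.comp_assoc, ← hcomp]
    refine RingHom.ext fun x => ?_
    exact (RingEquiv.ofBijective _ hbij).symm_apply_apply (ev x)
  · intro w hw
    exact ⟨⟨w, hw⟩, rfl⟩

/-- the polynomials in `u` -/
private def SurjA_pi {K : Type} [Field K] [Algebra ℂ K] {ι : Type} (u : ι → K) :
    MvPolynomial ι ℂ →+* Algebra.adjoin ℂ (Set.range u) :=
  ((aeval u : MvPolynomial ι ℂ →ₐ[ℂ] K).codRestrict (Algebra.adjoin ℂ (Set.range u))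
    (Pool.Agent.H13.SM.aeval_mem_adjoin u)).toRingHom

private theorem SurjA_pi_coe {K : Type} [Field K] [Algebra ℂ K] {ι : Type} (u : ι → K)
    (Q : MvPolynomial ι ℂ) : (SurjA_pi u Q : K) = aeval u Q := rfl

private theorem SurjA_pi_surj {K : Type} [Field K] [Algebra ℂ K] {ι : Type} (u : ι → K) :
    Function.Surjective (SurjA_pi u) := by
  rintro ⟨x, hx⟩
  have h1 := hx
  rw [Algebra.adjoin_range_eq_range_aeval] at h1
  obtain ⟨Q, hQ⟩ := h1
  exact ⟨Q, Subtype.ext hQ⟩

open scoped IntermediateField.algebraAdjoinAdjoin in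
/-- a multiple of an algebraic element is integral over the polynomials in `u` -/
private theorem SurjA_int {K : Type} [Field K] [Algebra ℂ K] {ι : Type}
    (u : ι → K) (x : K)
    (halg : IsAlgebraic (IntermediateField.adjoin ℂ (Set.range u)) x) :
    ∃ f : MvPolynomial ι ℂ, aeval u f ≠ 0 ∧
      (algebraMap (Algebra.adjoin ℂ (Set.range u)) K).IsIntegralElem (aeval u f * x) := by
  have h1 : IsAlgebraic (Algebra.adjoin ℂ (Set.range u)) x :=
    (IsFractionRing.isAlgebraic_iff (Algebra.adjoin ℂ (Set.range u))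
      (IntermediateField.adjoin ℂ (Set.range u)) K).mpr halg
  obtain ⟨a, ha0, ha⟩ := h1.exists_integral_multiple
  obtain ⟨f, hf⟩ := SurjA_pi_surj u a
  have hfa : aeval u f = (a : K) := by rw [← SurjA_pi_coe, hf]
  refine ⟨f, ?_, ?_⟩
  · rw [hfa]
    exact fun h => ha0 (Subtype.ext h)
  · rw [hfa]
    exact ha

/-- Specialisation over a point of the variety with generic point `u`. -/
private theorem SurjA_spec {K : Type} [Field K] [Algebra ℂ K] {ι κ : Type} [Finite κ]
    (u : ι → K) (x : κ → K)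
    (halg : ∀ i, IsAlgebraic (IntermediateField.adjoin ℂ (Set.range u)) (x i)) :
    ∃ f : MvPolynomial ι ℂ, aeval u f ≠ 0 ∧ ∀ c ∈ Pool.Agent.H13.SM.pts u, eval c f ≠ 0 →
      ∃ y : κ → ℂ, ∀ R : MvPolynomial (ι ⊕ κ) ℂ,
        aeval (Sum.elim u x) R = 0 → eval (Sum.elim c y) R = 0 := by
  classical
  choose f hf0 hf using fun i => SurjA_int u (x i) (halg i)
  have := Fintype.ofFinite κ
  refine ⟨∏ i, f i, ?_, fun c hcp hc => ?_⟩
  · rw [map_prod]
    exact Finset.prod_ne_zero_iff.2 fun i _ => hf0 i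
  have hc' : ∀ i, eval c (f i) ≠ 0 := by
    rw [map_prod, Finset.prod_ne_zero_iff] at hc
    exact fun i => hc i (Finset.mem_univ i)
  -- the evaluation
  have hkle : RingHom.ker (SurjA_pi u) ≤ RingHom.ker (eval c : MvPolynomial ι ℂ →+* ℂ) := by
    intro Q hQ
    rw [RingHom.mem_ker] at hQ ⊢
    refine hcp Q ?_
    rw [← SurjA_pi_coe, hQ]
    rfl
  obtain ⟨ev, hev⟩ : ∃ ev : Algebra.adjoin ℂ (Set.range u) →+* ℂ, ∀ Q, ev (SurjA_pi u Q) = eval c Q := by
    refine ⟨RingHom.liftOfSurjective (SurjA_pi u) (SurjA_pi_surj u) ⟨eval c, hkle⟩, fun Q => ?_⟩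
    exact RingHom.liftOfRightInverse_comp_apply _ _ _ ⟨eval c, hkle⟩ Q
  have hpC : ∀ t : ℂ, SurjA_pi u (C t) = algebraMap ℂ (Algebra.adjoin ℂ (Set.range u)) t := by
    intro t
    apply Subtype.ext
    rw [SurjA_pi_coe, aeval_C]
    rfl
  obtain ⟨B, _, _, a, b, ψ, hb, hab, hψ, hw⟩ := SurjA_ext
    (algebraMap (Algebra.adjoin ℂ (Set.range u)) K) Subtype.val_injective ev
    (fun t => ⟨SurjA_pi u (C t), by rw [hev, eval_C]⟩)
    (algebraMap ℂ (Algebra.adjoin ℂ (Set.range u))) (RingHom.ext fun t => by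
      rw [RingHom.comp_apply, ← hpC, hev, eval_C]
      rfl)
  choose w hw' using fun i => hw _ (hf i)
  have hker : (RingHom.ker ψ).IsPrime := RingHom.ker_isPrime ψ
  obtain ⟨S, hS⟩ : ∃ S : Submonoid B, S = (RingHom.ker ψ).primeCompl := ⟨_, rfl⟩
  have hSm : ∀ s : B, s ∈ S ↔ ψ s ≠ 0 := by
    intro s
    rw [hS]
    exact Iff.rfl
  have hψS : ∀ s : S, IsUnit (ψ s) := fun s => isUnit_iff_ne_zero.2 ((hSm s).1 s.2)
  have hbS : ∀ s : S, IsUnit (b s) := by
    intro s
    refine isUnit_iff_ne_zero.2 fun h => (hSm s).1 s.2 ?_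
    rw [hb (h.trans (map_zero b).symm), map_zero]
  let φK : Localization S →+* K := IsLocalization.lift hbS
  let φC : Localization S →+* ℂ := IsLocalization.lift hψS
  have hSle : S ≤ nonZeroDivisors B := by
    intro s hs
    rw [mem_nonZeroDivisors_iff_ne_zero]
    rintro rfl
    exact (hSm 0).1 hs (map_zero ψ)
  have hφK : Function.Injective φK := by
    rw [IsLocalization.lift_injective_iff hbS]
    intro u v
    rw [(IsLocalization.injective (Localization S) hSle).eq_iff, hb.eq_iff]
  have hfS : ∀ i, a (SurjA_pi u (f i)) ∈ S := by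
    intro i
    rw [hSm]
    have h1 := RingHom.congr_fun hψ (SurjA_pi u (f i))
    rw [RingHom.comp_apply] at h1
    rw [h1, hev]
    exact hc' i
  -- the elements of the localization
  let zt : ι → Localization S := fun i => algebraMap B (Localization S) (a (SurjA_pi u (X i)))
  let xt : κ → Localization S := fun i => IsLocalization.mk' (Localization S) (w i) ⟨_, hfS i⟩
  have hzK : ∀ i, φK (zt i) = u i := by
    intro i
    have h1 := RingHom.congr_fun hab (SurjA_pi u (X i))
    rw [RingHom.comp_apply] at h1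
    rw [IsLocalization.lift_eq, h1]
    exact aeval_X u i
  have hzC : ∀ i, φC (zt i) = c i := by
    intro i
    have h1 := RingHom.congr_fun hψ (SurjA_pi u (X i))
    rw [RingHom.comp_apply] at h1
    rw [IsLocalization.lift_eq, h1, hev, eval_X]
  have hxK : ∀ i, φK (xt i) = x i := by
    intro i
    have h1 : b (a (SurjA_pi u (f i))) = aeval u (f i) := RingHom.congr_fun hab (SurjA_pi u (f i))
    have h4 : b (w i) = b (a (SurjA_pi u (f i))) * x i := by rw [hw' i, h1]
    refine (IsLocalization.lift_mk'_spec hbS (w i) (x i) ⟨_, hfS i⟩).2 ?_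
    exact h4
  let cB : ℂ →+* Localization S :=
    (algebraMap B (Localization S)).comp (a.comp ((SurjA_pi u).comp C))
  have hcK : φK.comp cB = algebraMap ℂ K := by
    refine RingHom.ext fun t => ?_
    change φK (algebraMap B (Localization S) (a (SurjA_pi u (C t)))) = _
    have h1 := RingHom.congr_fun hab (SurjA_pi u (C t))
    rw [RingHom.comp_apply] at h1
    rw [IsLocalization.lift_eq, h1]
    exact aeval_C u t
  have hcC : φC.comp cB = RingHom.id ℂ := by
    refine RingHom.ext fun t => ?_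
    change φC (algebraMap B (Localization S) (a (SurjA_pi u (C t)))) = _
    have h1 := RingHom.congr_fun hψ (SurjA_pi u (C t))
    rw [RingHom.comp_apply] at h1
    rw [IsLocalization.lift_eq, h1, hev, eval_C]
    rfl
  refine ⟨fun i => φC (xt i), fun R hR => ?_⟩
  have hR0 : eval₂ cB (Sum.elim zt xt) R = 0 := by
    apply hφK
    rw [map_zero, eval₂_comp_left, hcK, ← hR, aeval_def]
    congr 1
    funext i
    rcases i with i | i
    · exact hzK i
    · exact hxK i
  have h1 := congrArg φC hR0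
  rw [map_zero, eval₂_comp_left, hcC] at h1
  rw [← h1]
  change eval₂ (RingHom.id ℂ) (Sum.elim c fun i => φC (xt i)) R = _
  congr 1
  funext i
  rcases i with i | i
  · exact (hzC i).symm
  · rfl

end Spec

variable {N M m s q n : ℕ} {P : Ideal (MvPolynomial (Fin (M + 1)) ℂ)} [P.IsPrime]
  {G : Fin m → MvPolynomial (Fin (M + 1)) ℂ} {I : Ideal (MvPolynomial (Fin (N + 1)) ℂ)}
  [I.IsPrime] {F : Fin s → Fin (M + 1) → MvPolynomial (Fin (N + 1)) ℂ}

theorem aeval_notMem (hP : Homog P) (h : RamifiedMorphism q P G I ∅ ∅ F) (hn : 1 ≤ n)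
    (hz : ∃ z : Fin n → FunField I, IsTranscendenceBasis ℂ z)
    (hzP : ∃ z : Fin n → FunField P, IsTranscendenceBasis ℂ z)
    {g : MvPolynomial (Fin (M + 1)) ℂ} {d : ℕ} (hg : g.IsHomogeneous d) (hgP : g ∉ P)
    {α : Fin s} {a : Fin (M + 1)} (hα : F α a ∉ I) : aeval (F α) g ∉ I := by
  have hPr : I.IsPrime := inferInstance
  -- a point of the variety
  obtain ⟨i, hi⟩ := exists_X_notMem I hn hz
  have hne : ∃ v : Fin (N + 1) → ℂ, (∀ Q ∈ I, eval v Q = 0) ∧ v i ≠ 0 := by
    by_contra hcon
    push Not at hcon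
    exact hi (mem_of_forall I fun v hv => by rw [eval_X]; exact hcon v hv)
  obtain ⟨v₀, hv₀, hv₀i⟩ := hne
  have hv₀0 : v₀ ≠ 0 := fun hcon => hv₀i (by rw [hcon]; rfl)
  have hZ : ¬ (variety I \ (∅ : Set (Pool.Agent.H17.PN N)) ⊆ ∅) := by
    intro hsub
    have h1 : Projectivization.mk ℂ v₀ hv₀0 ∈ variety I := by
      intro Q hQ k hQk
      rw [Pool.Agent.H17.vanishesAt_mk_iff hQk]
      exact hv₀ Q hQ
    exact hsub ⟨h1, fun h => h⟩
  obtain ⟨x, hx, hxE⟩ := Set.not_subset.1 (not_subset_of_dim hP h hn hz hzP hZ hg hgP)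
  have hxm : ¬ Pool.Agent.H17.VanishesAt g (morph F x) := fun hcon => hxE ⟨hx, Or.inr hcon⟩
  obtain ⟨β, hβ⟩ := h.morphism.base x hx
  rw [vanishesAt_morph h.morphism h.homog hx.1 hg hβ] at hxm
  obtain ⟨e, he⟩ := h.morphism.hom β
  have hgβ : aeval (F β) g ∉ I := fun hcon =>
    hxm (hx.1 _ hcon (e * d) (MvPolynomial.IsHomogeneous.aeval hg _ he))
  -- a point where `F α a` and `g (F β)` do not vanish
  have hprod : F α a * aeval (F β) g ∉ I := by
    intro hcon
    rcases hPr.mem_or_mem hcon with h1 | h1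
    · exact hα h1
    · exact hgβ h1
  have hv : ∃ v : Fin (N + 1) → ℂ, (∀ Q ∈ I, eval v Q = 0) ∧
      eval v (F α a * aeval (F β) g) ≠ 0 := by
    by_contra hcon
    push Not at hcon
    exact hprod (mem_of_forall I hcon)
  obtain ⟨v, hvI, hvne⟩ := hv
  rw [map_mul] at hvne
  have hva : eval v (F α a) ≠ 0 := left_ne_zero_of_mul hvne
  have hvg : eval v (aeval (F β) g) ≠ 0 := right_ne_zero_of_mul hvne
  intro hcon
  apply hvg
  have h1 := hvI _ hcon
  rw [Pool.Agent.H5.DG.eval_aeval] at h1 ⊢
  have h2 : ∀ c, eval v (F β c) = (eval v (F β a) / eval v (F α a)) * eval v (F α c) := by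
    intro c
    have h3 := hvI _ (h.morphism.compat α β a c)
    rw [map_sub, map_mul, map_mul, sub_eq_zero] at h3
    field_simp
    linear_combination h3
  have h4 := Pool.Agent.H5.DG.aeval_eq_pow_mul (K := ℂ) hg (x := fun c => eval v (F β c))
    (y := fun c => eval v (F α c)) h2
  rw [MvPolynomial.aeval_eq_eval, MvPolynomial.aeval_eq_eval] at h4
  refine h4.trans ?_
  rw [show eval (fun c => eval v (F α c)) g = 0 from h1, mul_zero]

theorem exists_pre_generic (hP : Homog P) (h : RamifiedMorphism q P G I ∅ ∅ F) (hn : 1 ≤ n)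
    (hz : ∃ z : Fin n → FunField I, IsTranscendenceBasis ℂ z)
    (hzP : ∃ z : Fin n → FunField P, IsTranscendenceBasis ℂ z) {b : Fin (M + 1)}
    (hb : X b ∉ P) :
    ∃ f : MvPolynomial (Fin (M + 1)) ℂ, aeval (fun a => ratio P a b) f ≠ 0 ∧
      ∀ y ∈ Zer P, y b = 1 → eval y f ≠ 0 →
        ∃ x ∈ Zer I, x ≠ 0 ∧ ∃ α, eval x (F α b) ≠ 0 ∧ aff (F α) b x = y := by
  have hPr : I.IsPrime := inferInstance
  -- a point of the variety
  obtain ⟨l, hl⟩ := exists_X_notMem I hn hz
  have hcl : Pool.Agent.H17GT.coordFun I l ≠ 0 := by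
    intro hcon
    apply hl
    rw [← Pool.Agent.H92.GT.Proj.aeval_coordFun_eq_zero_iff, aeval_X]
    exact hcon
  have hcb : Pool.Agent.H17GT.coordFun P b ≠ 0 := by
    intro hcon
    apply hb
    rw [← Pool.Agent.H92.GT.Proj.aeval_coordFun_eq_zero_iff, aeval_X]
    exact hcon
  have hne : ∃ v : Fin (N + 1) → ℂ, (∀ Q ∈ I, eval v Q = 0) ∧ v l ≠ 0 := by
    by_contra hcon
    push Not at hcon
    exact hl (mem_of_forall I fun v hv => by rw [eval_X]; exact hcon v hv)
  obtain ⟨v₀, hv₀, hv₀l⟩ := hne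
  have hv₀0 : v₀ ≠ 0 := fun hcon => hv₀l (by rw [hcon]; rfl)
  have hmem₀ : Projectivization.mk ℂ v₀ hv₀0 ∈ variety I \ (∅ : Set (Pool.Agent.H17.PN N)) := by
    refine ⟨?_, fun h => h⟩
    intro Q hQ k hQk
    rw [Pool.Agent.H17.vanishesAt_mk_iff hQk]
    exact hv₀ Q hQ
  have hZ : ¬ (variety I \ (∅ : Set (Pool.Agent.H17.PN N)) ⊆ ∅) := fun hsub => hsub hmem₀
  obtain ⟨α, a₀, hαa⟩ := h.morphism.base _ hmem₀
  obtain ⟨e, he⟩ := h.morphism.hom α
  have hαI : F α a₀ ∉ I := fun hcon => hαa (hmem₀.1 _ hcon e (he a₀))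
  have hFb : F α b ∉ I := by
    have h1 := aeval_notMem hP h hn hz hzP (isHomogeneous_X ℂ b) hb hαI
    rwa [aeval_X] at h1
  have hvb : valAt I l (F α) b ≠ 0 := fun hcon => hFb ((eval_ratio_zero_iff I hcl (he b)).1 hcon)
  have halg := morph_algebraic h.homog h.closedB h.closedZ h.morphism h.finite I h.homog le_rfl
    hZ hz hcl hFb
  obtain ⟨u, hu⟩ : ∃ u : Fin (M + 1) → FunField I, u = fun a =>
    valAt I l (F α) a / valAt I l (F α) b := ⟨_, rfl⟩
  rw [← hu] at halg
  have hub : u b = 1 := by rw [hu]; exact div_self hvb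
  have huv : ∀ a, valAt I l (F α) a = valAt I l (F α) b * u a := by
    intro a
    rw [hu]
    exact (mul_div_cancel₀ _ hvb).symm
  -- forms which vanish at `u`
  have hform : ∀ {k : ℕ} {S : MvPolynomial (Fin (M + 1)) ℂ}, S.IsHomogeneous k →
      (aeval u S = 0 ↔ aeval (F α) S ∈ I) := by
    intro k S hS
    have h2 : aeval (fun i => ratio I i l) (aeval (F α) S) = aeval (valAt I l (F α)) S := by
      rw [← AlgHom.comp_apply, MvPolynomial.comp_aeval]
      rfl
    rw [← eval_ratio_zero_iff I hcl (MvPolynomial.IsHomogeneous.aeval hS _ he), h2,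
      aeval_eq_pow_mul hS huv, mul_eq_zero]
    constructor
    · exact fun h => Or.inr h
    · exact fun h => h.resolve_left (pow_ne_zero _ hvb)
  -- the elements
  obtain ⟨x, hx⟩ : ∃ x : Option (Fin (N + 1)) → FunField I, x = fun o =>
    o.elim (valAt I l (F α) b)⁻¹ (fun i => ratio I i l) := ⟨_, rfl⟩
  have hx0 : x none = (valAt I l (F α) b)⁻¹ := by rw [hx]; rfl
  have hx1 : ∀ i, x (some i) = ratio I i l := by intro i; rw [hx]; rfl
  obtain ⟨f, hf0, hf⟩ := SurjA_spec u x fun i => halg.isAlgebraic (x i)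
  refine ⟨f, ?_, ?_⟩
  · intro hcon
    apply hf0
    obtain ⟨S, hS, hSe⟩ := exists_homogenise b f
    have hr : (fun a => ratio P a b) b = 1 := Pool.Agent.H17R.ratio_self hcb
    have hr2 := hSe (fun a => ratio P a b) hr
    rw [← hr2] at hcon
    rw [← hSe u hub, hform hS]
    exact aeval_mem_of_maps hP h.homog h.closedB ⟨_, hmem₀⟩ h.morphism h.maps α
      ((eval_ratio_zero_iff P hcb hS).1 hcon)
  · intro y hy hyb hyf
    have hypts : y ∈ Pool.Agent.H13.SM.pts u := by
      intro T hT
      obtain ⟨S, hS, hSe⟩ := exists_homogenise b T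
      rw [← hSe u hub, hform hS] at hT
      have hSP : S ∈ P := by
        by_contra hcon
        exact aeval_notMem hP h hn hz hzP hS hcon hαI hT
      have h1 := hSe y hyb
      rw [MvPolynomial.aeval_eq_eval] at h1
      have h2 : eval y S = 0 := hy S hSP
      exact h1.symm.trans h2
    obtain ⟨w, hw⟩ := hf y hypts hyf
    obtain ⟨x', hx'⟩ : ∃ x' : Fin (N + 1) → ℂ, x' = fun i => w (some i) := ⟨_, rfl⟩
    -- relations between the coordinates
    have hrel : ∀ Q : MvPolynomial (Fin (N + 1)) ℂ, aeval (Sum.elim u x)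
        (rename (fun i => (Sum.inr (some i) : Fin (M + 1) ⊕ Option (Fin (N + 1)))) Q) =
          aeval (fun i => ratio I i l) Q := by
      intro Q
      rw [aeval_rename]
      congr 1
      congr 1
      funext i
      exact hx1 i
    have hrel' : ∀ Q : MvPolynomial (Fin (N + 1)) ℂ, eval (Sum.elim y w)
        (rename (fun i => (Sum.inr (some i) : Fin (M + 1) ⊕ Option (Fin (N + 1)))) Q) =
          eval x' Q := by
      intro Q
      rw [eval_rename, hx']
      rfl
    have hxZ : x' ∈ Zer I := by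
      intro Q hQ
      rw [← hrel' Q]
      refine hw _ ?_
      rw [hrel Q]
      exact eval_ratio_mem I h.homog hcl hQ
    have hxl : x' l = 1 := by
      have h1 := hw (rename (fun i => Sum.inr (some i)) (X l - 1)) (by
        rw [hrel, map_sub, aeval_X, map_one, Pool.Agent.H17R.ratio_self hcl, sub_self])
      rw [hrel', map_sub, eval_X, map_one, sub_eq_zero] at h1
      exact h1
    have hbne : w none * eval x' (F α b) = 1 := by
      have h1 := hw (X (Sum.inr none) * rename (fun i => Sum.inr (some i)) (F α b) - 1) (by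
        rw [map_sub, map_mul, aeval_X, map_one, hrel, Sum.elim_inr, hx0]
        change (valAt I l (F α) b)⁻¹ * valAt I l (F α) b - 1 = 0
        rw [inv_mul_cancel₀ hvb, sub_self])
      rw [map_sub, map_mul, eval_X, map_one, hrel', Sum.elim_inr, sub_eq_zero] at h1
      exact h1
    have hbne' : eval x' (F α b) ≠ 0 := right_ne_zero_of_mul (by rw [hbne]; exact one_ne_zero)
    refine ⟨x', hxZ, fun hcon => ?_, α, hbne', ?_⟩
    · rw [hcon] at hxl
      exact zero_ne_one hxl
    · funext a
      have h1 := hw (rename (fun i => Sum.inr (some i)) (F α a) -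
          rename (fun i => Sum.inr (some i)) (F α b) * X (Sum.inl a)) (by
        rw [map_sub, map_mul, aeval_X, hrel, hrel, Sum.elim_inl]
        change valAt I l (F α) a - valAt I l (F α) b * u a = 0
        rw [huv a, sub_self])
      rw [map_sub, map_mul, eval_X, hrel', hrel', Sum.elim_inl, sub_eq_zero] at h1
      change eval x' (F α a) / eval x' (F α b) = y a
      rw [h1, mul_div_cancel_left₀ _ hbne']

end Pool.Agent.H39.SY
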