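import Pool.Agent.H39.SX.Hartogs
import Pool.Agent.H39.SX.Dens
import Pool.Agent.H39.SY.Mult3
import Pool.Agent.H39.SY.Jac3
import Pool.Agent.H39.SY.RelB
import Pool.Agent.H39.SY.GenSm
import Pool.Agent.H39.SY.Slice
import Pool.Agent.H39.SY.Distinct
import Pool.Agent.H39.SY.SurjA

/-!
# Project SY, module JacB3: the square of the Jacobian is divisible by the product of the ramified
divisors
-/

open Topology Filter MvPolynomial
open Pool.Agent.H17LG.Variety (FunField)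
open Pool.Agent.H5.DG (Homog IntegralSection TD)
open Pool.Agent.H5.DG3
open Pool.Agent.H13.SM (conTan)
open Pool.Agent.H39.SX (hartogs linMod linMod_add dense_lines)

noncomputable section

namespace Pool.Agent.H39.SY

private theorem JacB3_bound {E : Type*} [TopologicalSpace E] {w H : E → ℂ} {u : E}
    (hw : ContinuousAt w u) (hH : ContinuousAt H u) (hne : H u ≠ 0) :
    ∃ C : ℝ, 0 ≤ C ∧ ∀ᶠ u' in 𝓝 u, ‖w u'‖ ≤ C * ‖H u'‖ := by
  have h1 : ∀ᶠ u' in 𝓝 u, ‖w u'‖ < ‖w u‖ + 1 := hw.norm.eventually_lt_const (lt_add_one _)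
  have hpos : 0 < ‖H u‖ := norm_pos_iff.2 hne
  have h2 : ∀ᶠ u' in 𝓝 u, ‖H u‖ / 2 < ‖H u'‖ := hH.norm.eventually_const_lt (half_lt_self hpos)
  refine ⟨(‖w u‖ + 1) / (‖H u‖ / 2), by positivity, ?_⟩
  filter_upwards [h1, h2] with u' h3 h4
  calc ‖w u'‖ ≤ ‖w u‖ + 1 := h3.le
    _ = (‖w u‖ + 1) / (‖H u‖ / 2) * (‖H u‖ / 2) := by field_simp
    _ ≤ (‖w u‖ + 1) / (‖H u‖ / 2) * ‖H u'‖ :=
      mul_le_mul_of_nonneg_left h4.le (by positivity)

private theorem JacB3_det {n : ℕ} {Φ : (Fin n → ℂ) → Fin n → ℂ} {u : Fin n → ℂ}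
    (h : AnalyticAt ℂ Φ u) : AnalyticAt ℂ (fun u' => (fderiv ℂ Φ u').det) u := by
  have h1 : ∀ u', (fderiv ℂ Φ u').det =
      (Matrix.of fun c k => fderiv ℂ Φ u' (Pi.single k 1) c).det := by
    intro u'
    rw [ContinuousLinearMap.det, ← LinearMap.det_toMatrix']
    congr 1
  have h2 : (fun u' => (fderiv ℂ Φ u').det) = fun u' =>
      ∑ σ : Equiv.Perm (Fin n), ((Equiv.Perm.sign σ : ℤ) : ℂ) *
        ∏ k, fderiv ℂ Φ u' (Pi.single k 1) (σ k) := by
    funext u'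
    rw [h1, Matrix.det_apply']
    rfl
  rw [h2]
  refine Finset.analyticAt_fun_sum _ fun σ _ => ?_
  refine analyticAt_const.mul (Finset.analyticAt_fun_prod _ fun k _ => ?_)
  have h3 := h.fderiv
  have h4 : AnalyticAt ℂ (fun u' => fderiv ℂ Φ u' (Pi.single k 1)) u :=
    ((ContinuousLinearMap.apply ℂ (Fin n → ℂ) (Pi.single k (1 : ℂ) : Fin n → ℂ)).analyticAt _).comp
      h3
  exact (ContinuousLinearMap.proj (R := ℂ) (φ := fun _ : Fin n => ℂ) (σ k)).analyticAt _ |>.comp h4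

private theorem JacB3_eval {N n : ℕ} {σ : (Fin n → ℂ) → Fin (N + 1) → ℂ} {u : Fin n → ℂ}
    (hσ : AnalyticAt ℂ σ u) (T : MvPolynomial (Fin (N + 1)) ℂ) :
    AnalyticAt ℂ (fun u' => eval (σ u') T) u := by
  have h1 : AnalyticAt ℂ (fun y : Fin (N + 1) → ℂ => eval y T) (σ u) :=
    AnalyticOnNhd.eval_mvPolynomial T _ (Set.mem_univ _)
  exact h1.comp hσ

/-- The affine expression of the morphism along a chart is analytic. -/
theorem analyticAt_aff {N M n : ℕ} {σ : (Fin n → ℂ) → Fin (N + 1) → ℂ} {u : Fin n → ℂ}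
    (hσ : AnalyticAt ℂ σ u) {A : Fin (M + 1) → MvPolynomial (Fin (N + 1)) ℂ} {b : Fin (M + 1)}
    (hb : eval (σ u) (A b) ≠ 0) : AnalyticAt ℂ (fun u' => aff A b (σ u')) u :=
  AnalyticAt.pi fun a => (JacB3_eval hσ (A a)).div (JacB3_eval hσ (A b)) hb

theorem jac_bound3 {N M s n k q : ℕ} {P : Ideal (MvPolynomial (Fin (M + 1)) ℂ)} [P.IsPrime]
    {G : Fin k → MvPolynomial (Fin (M + 1)) ℂ} {I : Ideal (MvPolynomial (Fin (N + 1)) ℂ)}
    [I.IsPrime] {F : Fin s → Fin (M + 1) → MvPolynomial (Fin (N + 1)) ℂ} (hP : Homog P)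
    (hTD : TD P (n + 2)) (hTD1 : ¬ TD P 1) (h : RamifiedMorphism q P G I ∅ ∅ F)
    (hz : ∃ z : Fin (n + 1) → FunField I, IsTranscendenceBasis ℂ z)
    (hzP : ∃ z : Fin (n + 1) → FunField P, IsTranscendenceBasis ℂ z)
    (hGh : ∀ j, ∃ d, (G j).IsHomogeneous d) (hGP : ∀ j, G j ∉ P)
    (hne : ∀ i j, i ≠ j → ∀ c : ℂ, G i - C c * G j ∉ P) (hint : ∀ j, IntegralSection P (G j))
    {x : Fin (N + 1) → ℂ} {l : Fin (N + 1)} {J : Fin (n + 1) → Fin (N + 1)}
    {σ : (Fin (n + 1) → ℂ) → Fin (N + 1) → ℂ} (hc : Chart I x l J σ) {α : Fin s}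
    {b : Fin (M + 1)} (hb : eval x (F α b) ≠ 0)
    (hm : ∀ᶠ u in 𝓝 0, ∀ (hu : σ u ≠ 0) (j : Fin k),
      PullbackMult 2 I F (G j) (Projectivization.mk ℂ (σ u) hu))
    (B : Fin (n + 1) → MvPolynomial (Fin (M + 1)) ℂ) :
    ∃ C : ℝ, 0 ≤ C ∧ ∀ᶠ u in 𝓝 0,
      ‖(fderiv ℂ (fun u' a => eval (aff (F α) b (σ u')) (B a)) u).det‖ ^ 2 ≤
        C * ∏ j, ‖eval (aff (F α) b (σ u)) (G j)‖ := by
  classical
  obtain ⟨W, hWdef⟩ : ∃ W : (Fin (n + 1) → ℂ) → Fin (M + 1) → ℂ,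
    W = fun u => aff (F α) b (σ u) := ⟨_, rfl⟩
  have hWu : ∀ u, W u = aff (F α) b (σ u) := fun u => congrFun hWdef u
  obtain ⟨Φ, hΦdef⟩ : ∃ Φ : (Fin (n + 1) → ℂ) → Fin (n + 1) → ℂ,
    Φ = fun u a => eval (W u) (B a) := ⟨_, rfl⟩
  have hPp : P.IsPrime := inferInstance
  have hIp : I.IsPrime := inferInstance
  -- analyticity
  have hWan : ∀ u, AnalyticAt ℂ σ u → eval (σ u) (F α b) ≠ 0 → AnalyticAt ℂ W u := by
    intro u hu hbu
    rw [hWdef]
    exact analyticAt_aff hu hbu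
  have hevan : ∀ u, AnalyticAt ℂ W u → ∀ T : MvPolynomial (Fin (M + 1)) ℂ,
      AnalyticAt ℂ (fun u' => eval (W u') T) u := fun u hu T => JacB3_eval hu T
  have hΦan : ∀ u, AnalyticAt ℂ W u → AnalyticAt ℂ Φ u := by
    intro u hu
    rw [hΦdef]
    exact AnalyticAt.pi fun a => hevan u hu (B a)
  -- the point `x`
  have hx : x ∈ Zer I := by
    have h1 := hc.coord.self_of_nhds.1
    rwa [hc.zero] at h1
  have hbI : F α b ∉ I := fun hcon => hb (hx _ hcon)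
  have hb0 : eval (σ 0) (F α b) ≠ 0 := by
    rw [hc.zero]
    exact hb
  have hbne : ∀ᶠ u in 𝓝 (0 : Fin (n + 1) → ℂ), eval (σ u) (F α b) ≠ 0 :=
    (JacB3_eval hc.an (F α b)).continuousAt.eventually_ne hb0
  -- the sections
  choose d hd using hGh
  choose Q g dg hQp hQh hPQ hGQ hXQ hsat hgh hgQ hzero hfin using
    fun j => exists_generic hPp hTD (hGP j) (hint j)
  have hnotin : ∀ i j, i ≠ j → G i ∉ Q j := by
    intro i j hij
    exact not_mem_of_ne hPp hP hTD1 (hQp j) (hQp i) (hd j) (hd i) (hGP j) (hGP i)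
      (hne j i (Ne.symm hij)) (hne i j hij) (hPQ j).le (hGQ j) (hPQ i).le (hGQ i) (hXQ j) (hXQ i)
      (hsat j) (hsat i)
  -- the values
  have hWP : ∀ u, σ u ∈ Zer I → σ u l = x l → eval (σ u) (F α b) ≠ 0 → W u ∈ Zer P := by
    intro u h1 h2 h3
    rw [hWu]
    refine aff_mem hP h h1 ?_ h3
    intro h4
    rw [h4] at h2
    exact hc.ne h2.symm
  have hWb : ∀ u, eval (σ u) (F α b) ≠ 0 → W u b = 1 := by
    intro u h3
    rw [hWu]
    exact aff_self h3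
  have hW0 : ∀ u, eval (σ u) (F α b) ≠ 0 → W u ≠ 0 := by
    intro u h3 h4
    have h5 := hWb u h3
    rw [h4, Pi.zero_apply] at h5
    exact zero_ne_one h5
  -- the bad set
  obtain ⟨bad, hbad⟩ : ∃ bad : (Fin (M + 1) → ℂ) → Prop, ∀ v, bad v ↔
      ∃ j, eval v (G j) = 0 ∧ ((∃ i, i ≠ j ∧ eval v (G i) = 0) ∨ eval v (g j) = 0) :=
    ⟨_, fun v => Iff.rfl⟩
  obtain ⟨Z, hZdef⟩ : ∃ Z : Set (Fin (n + 1) → ℂ), ∀ u, u ∈ Z ↔
      (σ u ∈ Zer I ∧ σ u l = x l ∧ ∀ k, σ u (J k) = x (J k) + x l * u k) ∧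
        eval (σ u) (F α b) ≠ 0 ∧ bad (W u) := ⟨{u | _}, fun u => Iff.rfl⟩
  have hW00 : AnalyticAt ℂ W 0 := hWan 0 hc.an hb0
  have hw : AnalyticAt ℂ (fun u => (fderiv ℂ Φ u).det ^ 2) 0 := (JacB3_det (hΦan 0 hW00)).pow 2
  have hHan : ∀ u, AnalyticAt ℂ W u → AnalyticAt ℂ (fun u => ∏ j, eval (W u) (G j)) u := by
    intro u hu
    exact Finset.analyticAt_fun_prod _ fun j _ => hevan u hu (G j)
  have hHne : ¬ ∀ᶠ u in 𝓝 (0 : Fin (n + 1) → ℂ), ∏ j, eval (W u) (G j) = 0 := by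
    intro hcon
    have hT : ∏ j, aeval (F α) (G j) ∉ I := by
      rw [hIp.prod_mem_iff]
      rintro ⟨j, -, hj⟩
      exact aeval_notMem hP h (by omega) hz hzP (hd j) (hGP j) hbI hj
    obtain ⟨e, he⟩ := h.morphism.hom α
    have hTh : (∏ j, aeval (F α) (G j)).IsHomogeneous (∑ j, e * d j) :=
      IsHomogeneous.prod _ _ _ fun j _ => (hd j).aeval _ he
    refine hc.nz _ _ hTh hT ?_
    filter_upwards [hcon, hbne] with u h1 h2
    rw [map_prod, Finset.prod_eq_zero_iff]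
    rw [Finset.prod_eq_zero_iff] at h1
    obtain ⟨j, hj, h3⟩ := h1
    refine ⟨j, hj, ?_⟩
    rw [hWu, eval_aff (hd j) h2] at h3
    exact (mul_eq_zero.1 h3).resolve_left (pow_ne_zero _ (inv_ne_zero h2))
  have hloc : ∀ᶠ u in 𝓝 (0 : Fin (n + 1) → ℂ), u ∉ Z → ∃ C : ℝ, ∀ᶠ u' in 𝓝 u,
      ‖(fderiv ℂ Φ u').det ^ 2‖ ≤ C * ‖∏ j, eval (W u') (G j)‖ := by
    filter_upwards [hc.an.eventually_analyticAt,
      eventually_eventually_nhds.2 hc.an.eventually_analyticAt,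
      eventually_eventually_nhds.2 hbne, eventually_eventually_nhds.2 hc.coord,
      eventually_eventually_nhds.2 hm] with u h1 h1' h2 h3 hmu hu
    have h2u := h2.self_of_nhds
    have h3u := h3.self_of_nhds
    have hWuan : AnalyticAt ℂ W u := hWan u h1 h2u
    by_cases hH0 : ∏ j, eval (W u) (G j) = 0
    · rw [Finset.prod_eq_zero_iff] at hH0
      obtain ⟨j, -, hj⟩ := hH0
      have hnb : ¬ bad (W u) := fun hcon => hu ((hZdef u).2 ⟨h3u, h2u, hcon⟩)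
      rw [hbad] at hnb
      push Not at hnb
      obtain ⟨hn1, hn2⟩ := hnb j hj
      have hWuP : W u ∈ Zer P := hWP u h3u.1 h3u.2.1 h2u
      have hslice := finrank_slice (b := b) hP (hd j) hWuP hj (hWb u h2u)
        (hfin j (W u) (hW0 u h2u) (hzero j (W u) (hW0 u h2u) hWuP hj) hn2)
      obtain ⟨C₁, hC₁, h5⟩ := jac_sq_le3 (P := P ⊔ Ideal.span {X b - 1}) (G := G j) hWuan (by
        filter_upwards [h2, h3] with u' h6 h7 T hT
        obtain ⟨T₁, hT₁, T₂, hT₂, rfl⟩ := Submodule.mem_sup.1 hT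
        obtain ⟨T₃, rfl⟩ := Ideal.mem_span_singleton'.1 hT₂
        rw [map_add, hWP u' h7.1 h7.2.1 h6 T₁ hT₁, map_mul, map_sub, eval_X, hWb u' h6, map_one,
          sub_self, mul_zero, add_zero]) hslice (by
        filter_upwards [h1', h2, eventually_eventually_nhds.2 h3, hmu] with u' h6 h7 h8 hm' h9
        have h10 := h8.self_of_nhds
        have hσne : σ u' ≠ 0 := fun h12 => hc.ne (by
          have h13 := h10.2.1
          rw [h12, Pi.zero_apply] at h13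
          exact h13.symm)
        have h11 := fderiv_eq_zero_of_mult h (hd j) h6 (h8.mono fun _ h => h.1) hσne
          (hm' hσne j) h7 (by
            rw [← hWu]
            exact h9)
        have h12 : (fun u' => eval (W u') (G j)) = fun u => eval (aff (F α) b (σ u)) (G j) :=
          funext fun u' => by rw [hWu]
        rw [h12]
        exact h11) B
      have hrest : ∏ i ∈ Finset.univ.erase j, eval (W u) (G i) ≠ 0 :=
        Finset.prod_ne_zero_iff.2 fun i hi => hn1 i (Finset.ne_of_mem_erase hi)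
      have hcont : ContinuousAt (fun u => ∏ i ∈ Finset.univ.erase j, eval (W u) (G i)) u :=
        (Finset.analyticAt_fun_prod _ fun i _ => hevan u hWuan (G i)).continuousAt
      obtain ⟨C₂, hC₂, h6⟩ := JacB3_bound (w := fun _ => (1 : ℂ)) continuousAt_const hcont hrest
      refine ⟨C₁ * C₂, ?_⟩
      filter_upwards [h5, h6] with u' h7 h8
      rw [norm_one] at h8
      rw [norm_pow, ← Finset.mul_prod_erase Finset.univ _ (Finset.mem_univ j), norm_mul, hΦdef]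
      calc ‖(fderiv ℂ (fun u a => eval (W u) (B a)) u').det‖ ^ 2 ≤ C₁ * ‖eval (W u') (G j)‖ := h7
        _ = C₁ * ‖eval (W u') (G j)‖ * 1 := (mul_one _).symm
        _ ≤ C₁ * ‖eval (W u') (G j)‖ *
            (C₂ * ‖∏ i ∈ Finset.univ.erase j, eval (W u') (G i)‖) :=
          mul_le_mul_of_nonneg_left h8 (mul_nonneg hC₁ (norm_nonneg _))
        _ = _ := by ring
    · obtain ⟨C, -, hC⟩ := JacB3_bound (w := fun u => (fderiv ℂ Φ u).det ^ 2)
        ((JacB3_det (hΦan u hWuan)).pow 2).continuousAt (hHan u hWuan).continuousAt hH0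
      exact ⟨C, hC⟩
  have hZ : ∀ v : Fin (n + 1) → ℂ, v ≠ 0 → ∃ D : Set (Fin (n + 1) → ℂ), Dense D ∧
      ∀ u ∈ D, ∀ t : ℂ, u + t • v ∉ Z := by
    intro v hv
    obtain ⟨b', hb'⟩ : ∃ b', v b' ≠ 0 := Function.ne_iff.1 hv
    obtain ⟨Λ, hΛ⟩ : ∃ Λ : Fin n → MvPolynomial (Fin (N + 1)) ℂ, Λ = fun a =>
      C (x l)⁻¹ * (X (J (b'.succAbove a)) - C (v (b'.succAbove a) / v b') * X (J b')) :=
      ⟨_, rfl⟩
    have hR1 : ∀ i j, ∃ R : MvPolynomial (Fin n) ℂ, R ≠ 0 ∧ (i ≠ j →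
        ∀ y ∈ Zer I, y l = x l → ∀ α b, eval y (F α b) ≠ 0 →
          (∀ T ∈ Q j, eval (aff (F α) b y) T = 0) → eval (aff (F α) b y) (G i) = 0 →
          eval (fun a => eval y (Λ a)) R = 0) := by
      intro i j
      by_cases hij : i = j
      · exact ⟨1, one_ne_zero, fun h => absurd hij h⟩
      · obtain ⟨R, hR, h⟩ := exists_rel3 hPp h hTD (hQp j) (hQh j) (hPQ j) (hd i)
          (hnotin i j hij) l hc.ne Λ
        exact ⟨R, hR, fun _ => h⟩
    choose R₁ hR₁ hR₁' using hR1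
    choose R₂ hR₂ hR₂' using fun j => exists_rel3 hPp h hTD (hQp j) (hQh j) (hPQ j) (hgh j)
      (hgQ j) l hc.ne Λ
    obtain ⟨R, hRdef⟩ : ∃ R, R = (∏ i, ∏ j, R₁ i j) * ∏ j, R₂ j := ⟨_, rfl⟩
    have hR : R ≠ 0 := by
      rw [hRdef]
      exact mul_ne_zero (Finset.prod_ne_zero_iff.2 fun i _ => Finset.prod_ne_zero_iff.2
        fun j _ => hR₁ i j) (Finset.prod_ne_zero_iff.2 fun j _ => hR₂ j)
    refine ⟨_, dense_lines hb' hR (fun a => eval x (Λ a)), ?_⟩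
    intro u hu t hcon
    apply hu
    obtain ⟨⟨h1, h1', h2⟩, h3, h4⟩ := (hZdef _).1 hcon
    have h5 : (fun a => eval x (Λ a) + linMod v b' u a) =
        fun a => eval (σ (u + t • v)) (Λ a) := by
      funext a
      rw [← linMod_add hb' u t, hΛ]
      simp only [map_sub, map_mul, eval_X, eval_C, h2, linMod]
      have hxl := hc.ne
      field_simp
      ring
    obtain ⟨j, h6, h7⟩ := (hbad _).1 h4
    have h8 : ∀ T ∈ Q j, eval (aff (F α) b (σ (u + t • v))) T = 0 := by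
      rw [← hWu]
      exact hzero j _ (hW0 _ h3) (hWP _ h1 h1' h3) h6
    rw [hWu] at h7
    rw [h5, hRdef, map_mul, map_prod, map_prod]
    rcases h7 with ⟨i, hij, h7⟩ | h7
    · refine mul_eq_zero_of_left (Finset.prod_eq_zero (Finset.mem_univ i) ?_) _
      rw [map_prod]
      exact Finset.prod_eq_zero (Finset.mem_univ j) (hR₁' i j hij _ h1 h1' _ _ h3 h8 h7)
    · exact mul_eq_zero_of_right _ (Finset.prod_eq_zero (Finset.mem_univ j)
        (hR₂' j _ h1 h1' _ _ h3 h8 h7))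
  obtain ⟨C, hC0, hC⟩ := hartogs hw (hHan 0 hW00) hHne Z hloc hZ
  refine ⟨C, hC0, ?_⟩
  filter_upwards [hC] with u hu
  rw [norm_pow, norm_prod] at hu
  simp only [hΦdef, hWu] at hu
  exact hu

end Pool.Agent.H39.SY
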