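import Pool.Agent.H39.SY.Count3
import Pool.Agent.H5.DG3.Main3

/-!
# Project SY, module Main: the theorem on morphisms without a hypothesis on the position

`Y` is a projective variety of dimension `r`, given by `P`, and the `G j = 0` are integral sections of
`Y`.  The main theorem on morphisms to `Y` (module `Pool.Agent.H5.DG3.Main3`) is true without any
hypothesis on the number of the `G j` which vanish at a point of `Y` if for every point `y` of `Y`
where more than `k` of the `G j` vanish there is a *model*: a projective variety `X` of dimension `r`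
and a finite morphism `f : X → Y` such that the inverse images of all the `G j = 0` have
multiplicities at least two outside of a closed subset `B` of `X`, `X` is smooth at all points
over `y` and `B` has no points over `y`.
-/

open MvPolynomial
open Pool.Agent.H17 (PN VanishesAt ZariskiClosedIn)
open Pool.Agent.H17LG.Variety (FunField)
open Pool.Agent.H5.DG (Homog IntegralSection AtMostThrough variety)
open Pool.Agent.H5.DG3
open Pool.Agent.H13.SM (conTan)

noncomputable section

namespace Pool.Agent.H39.SY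

variable {N M m s : ℕ}

/-- The variety of dimension `r` given by `I` is smooth at the point `x`: the Zariski tangent space
of its cone at a representative of `x` has dimension at most `r + 1`. -/
def SmoothAt (I : Ideal (MvPolynomial (Fin (N + 1)) ℂ)) (r : ℕ) (x : PN N) : Prop :=
  Module.finrank ℂ (conTan I x.rep) ≤ r + 1

/-- The projective variety `X` of dimension `r` given by `I`, with the finite morphism `F` to the
variety `Y` given by `P`, is a model at the point `y` of `Y`: the inverse images of the hypersurfaces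
`G j = 0` have multiplicities at least two outside of the closed set `B`, and the points over `y` are
smooth points of `X` and are not in `B`. -/
structure ModelAt (r : ℕ) (P : Ideal (MvPolynomial (Fin (M + 1)) ℂ))
    (G : Fin m → MvPolynomial (Fin (M + 1)) ℂ) (y : PN M)
    (I : Ideal (MvPolynomial (Fin (N + 1)) ℂ)) [I.IsPrime] (B : Set (PN N))
    (F : Fin s → Fin (M + 1) → MvPolynomial (Fin (N + 1)) ℂ) : Prop where
  homog : Homog I
  dim : ∃ z : Fin r → FunField I, IsTranscendenceBasis ℂ z
  closed : ZariskiClosedIn Set.univ B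
  morphism : IsMorphism I (variety I) F
  maps : ∀ x ∈ variety I, morph F x ∈ variety P
  finite : ∀ y' : PN M, {x | x ∈ variety I ∧ morph F x = y'}.Finite
  mult : ∀ x ∈ variety I, x ∉ B → ∀ j, PullbackMult 2 I F (G j) x
  smooth : ∀ x ∈ variety I, morph F x = y → x ∉ B ∧ SmoothAt I r x

/-- There are models at all points where more than `k` of the forms vanish. -/
def HasModels (k r : ℕ) (P : Ideal (MvPolynomial (Fin (M + 1)) ℂ))
    (G : Fin m → MvPolynomial (Fin (M + 1)) ℂ) : Prop :=
  ∀ y ∈ variety P, k < {j | VanishesAt (G j) y}.ncard →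
    ∃ (N s : ℕ) (I : Ideal (MvPolynomial (Fin (N + 1)) ℂ)) (_ : I.IsPrime) (B : Set (PN N))
      (F : Fin s → Fin (M + 1) → MvPolynomial (Fin (N + 1)) ℂ), ModelAt r P G y I B F

private theorem Main_empty {N : ℕ} : ZariskiClosedIn Set.univ (∅ : Set (PN N)) := by
  refine ⟨{1}, ?_, ?_⟩
  · intro T hT
    rw [Set.mem_singleton_iff] at hT
    subst hT
    exact ⟨0, isHomogeneous_one _ _⟩
  · ext x
    simp [VanishesAt]

theorem ModelAt.ramified {r : ℕ} {P : Ideal (MvPolynomial (Fin (M + 1)) ℂ)}
    {G : Fin m → MvPolynomial (Fin (M + 1)) ℂ} {y : PN M}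
    {I : Ideal (MvPolynomial (Fin (N + 1)) ℂ)} [I.IsPrime] {B : Set (PN N)}
    {F : Fin s → Fin (M + 1) → MvPolynomial (Fin (N + 1)) ℂ} (h : ModelAt r P G y I B F) :
    RamifiedMorphism 0 P G I ∅ ∅ F where
  homog := h.homog
  closedB := Main_empty
  closedZ := Main_empty
  morphism := ⟨h.morphism.hom, fun x hx => h.morphism.base x hx.1, h.morphism.compat⟩
  maps := fun x hx => h.maps x hx.1
  finite := fun y => (h.finite y).subset fun _ hx => ⟨hx.1.1, hx.2.2⟩
  mult := fun x hx j => by
    obtain ⟨α, a, ha⟩ := h.morphism.base x hx.1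
    refine ⟨α, ⟨a, ha⟩, 1, 0, isHomogeneous_one _ _, ?_, ?_⟩
    · simp [VanishesAt]
    · rw [pow_zero, Ideal.one_eq_top, top_sup_eq]
      trivial

/-- Smooth projective varieties of the dimension of `Y` with a finite morphism to `Y` such that all
the multiplicities are at least two are models at all points. -/
theorem hasModels_of_smooth {r : ℕ} {P : Ideal (MvPolynomial (Fin (M + 1)) ℂ)}
    {G : Fin m → MvPolynomial (Fin (M + 1)) ℂ} {I : Ideal (MvPolynomial (Fin (N + 1)) ℂ)}
    [hI : I.IsPrime] {F : Fin s → Fin (M + 1) → MvPolynomial (Fin (N + 1)) ℂ}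
    (hz : ∃ z : Fin r → FunField I, IsTranscendenceBasis ℂ z) (h : RamifiedMorphism 2 P G I ∅ ∅ F)
    (hsm : ∀ x ∈ variety I, SmoothAt I r x) (k : ℕ) : HasModels k r P G := fun y _ _ =>
  ⟨N, s, I, hI, ∅, F, {
    homog := h.homog
    dim := hz
    closed := h.closedB
    morphism := ⟨h.morphism.hom, fun x hx => h.morphism.base x ⟨hx, fun h => h⟩,
      h.morphism.compat⟩
    maps := fun x hx => h.maps x ⟨hx, fun h => h⟩
    finite := fun y' => (h.finite y').subset fun _ hx => ⟨⟨hx.1, fun h => h⟩, fun h => h, hx.2⟩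
    mult := fun x hx _ j => h.mult x ⟨hx, fun h => h⟩ j
    smooth := fun x hx _ => ⟨fun h => h, hsm x hx⟩ }⟩

/-- **The main theorem on morphisms, models.** -/
theorem main_models {M r : ℕ} (hr : 1 ≤ r) (δ k : ℕ)
    (P : Ideal (MvPolynomial (Fin (M + 1)) ℂ)) [P.IsPrime] (hP : Homog P)
    (hzP : ∃ z : Fin r → FunField P, IsTranscendenceBasis ℂ z) :
    ∃ N₀ : ℕ, ∀ (m : ℕ) (G : Fin m → MvPolynomial (Fin (M + 1)) ℂ), N₀ ≤ m →
      (∀ j, ∃ e, 1 ≤ e ∧ e ≤ δ ∧ (G j).IsHomogeneous e) →
      (∀ i j, i ≠ j → ∀ c : ℂ, G i - C c * G j ∉ P) → (∀ j, IntegralSection P (G j)) →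
      HasModels k r P G → ∃ (d : ℕ) (Δ : MvPolynomial (Fin (M + 1)) ℂ), Δ ∉ P ∧
        Δ.IsHomogeneous d ∧ MorphismTheorem 2 P G Δ := by
  obtain ⟨κ, hκ⟩ := count_at hr P hP hzP
  obtain ⟨N₀, hN₀⟩ := main_morphisms M δ (max κ k)
  refine ⟨N₀, fun m G hm hdeg hne hint hmod => hN₀ m P G hm hP hdeg hne hint ?_⟩
  intro y hy
  by_cases hk : k < {j | VanishesAt (G j) y}.ncard
  · obtain ⟨N, s, I, hI, B, F, h⟩ := hmod y hy hk
    refine le_trans (hκ m G (fun j => ?_) hne hint N s 0 I B F h.dim h.ramified h.closed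
      (fun x hx => h.mult x hx.1 hx.2) y hy fun x hx hxy => h.smooth x hx hxy) (le_max_left _ _)
    obtain ⟨e, -, -, he⟩ := hdeg j
    exact ⟨e, he⟩
  · exact le_trans (not_lt.1 hk) (le_max_right _ _)

end Pool.Agent.H39.SY
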