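import Pool.Agent.H5.DG3.MorphAlg
import Pool.Agent.H5.DG2.TrLt
import Pool.Agent.H92.GT.Index

/-!
# Project SY, module RelA: the transcendence degree of the preimage of a set of codimension two

`X i₀ ∉ 𝔮`, `A a = X i₀ * F α a`, a form of degree `e + 1 ≥ 1`, `Q' = 𝔮.comap (aeval A)`: a homogeneous
prime ideal (`aeval A` multiplies the degree of forms by `e + 1` and `𝔮` is homogeneous).  For a form
`T` of degree `d` one has `aeval A T = X i₀ ^ d * aeval (F α) T`, so `Q ≤ Q'` (`Q` is homogeneous) and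
`g ∈ Q'`, `g ∉ Q`: `P < Q < Q'`, and `TD Q' n` by `TD.lt` twice.  Suppose that `f` is algebraically
independent.  `FunField 𝔮` is algebraic over the field generated by the `u a = valAt 𝔮 j₀ (F α) a /
valAt 𝔮 j₀ (F α) b` (`morph_algebraic` with `B = Z = ∅`; it has a finite transcendence basis: see the
uses of `FunField` in DG3/DG; `variety 𝔮 \ ∅` is not empty since `X i₀ ∉ 𝔮`), so by
`Pool.Agent.H92.GT.exists_index` some of them form a transcendence basis, so there is `J : Fin n → _`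
with `fun i => u (J i)` independent.  Then `X b, X (J 0), …` are independent modulo `Q'`: a relation
`R`, `R ≠ 0`, has a homogeneous component `R' ≠ 0` which is a relation too; `R' (A b, A (J i)) ∈ 𝔮`
gives `R' (1, u (J i)) = 0` (`eval_ratio_zero_iff`, divide by a power of the value of `A b`), so the
polynomial `R' (1, ·)` is zero, so `R' = 0`.  This contradicts `TD Q' n`.
-/

open MvPolynomial
open Pool.Agent.H17 (PN VanishesAt ZariskiClosedIn)
open Pool.Agent.H17GT (coordFun)
open Pool.Agent.H17LG.Variety (FunField ratio)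
open Pool.Agent.H5.DG (Homog TD variety valAt)
open Pool.Agent.H5.DG3

noncomputable section

namespace Pool.Agent.H39.SY

open scoped IntermediateField.algebraAdjoinAdjoin in
/-- A finite transcendence basis of the function field. -/
private theorem RelA_basis {N : ℕ} (𝔮 : Ideal (MvPolynomial (Fin (N + 1)) ℂ)) [𝔮.IsPrime]
    {j₀ : Fin (N + 1)} (hj₀ : coordFun 𝔮 j₀ ≠ 0) :
    ∃ (w : ℕ) (z : Fin w → FunField 𝔮), IsTranscendenceBasis ℂ z := by
  have hadj := Pool.Agent.H17R.adjoin_ratio hj₀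
  have halg : Algebra.IsAlgebraic (IntermediateField.adjoin ℂ (Set.range fun i => ratio 𝔮 i j₀))
      (FunField 𝔮) := by
    refine ⟨fun z => ?_⟩
    have hz : z ∈ IntermediateField.adjoin ℂ (Set.range fun i => ratio 𝔮 i j₀) := by
      rw [hadj]
      trivial
    exact isAlgebraic_algebraMap (A := FunField 𝔮)
      (⟨z, hz⟩ : IntermediateField.adjoin ℂ (Set.range fun i => ratio 𝔮 i j₀))
  have h1 : Algebra.IsAlgebraic (Algebra.adjoin ℂ (Set.range fun i => ratio 𝔮 i j₀))
      (FunField 𝔮) :=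
    (IsFractionRing.comap_isAlgebraic_iff
      (A := Algebra.adjoin ℂ (Set.range fun i => ratio 𝔮 i j₀))
      (K := IntermediateField.adjoin ℂ (Set.range fun i => ratio 𝔮 i j₀))
      (C := FunField 𝔮)).mpr halg
  obtain ⟨u, hu, hub⟩ := exists_isTranscendenceBasis_subset (R := ℂ)
    (Set.range fun i => ratio 𝔮 i j₀)
  have hfin : Finite u := ((Set.finite_range _).subset hu).to_subtype
  exact ⟨Nat.card u, fun i => (Finite.equivFin u).symm i,
    (isTranscendenceBasis_equiv (Finite.equivFin u).symm).2 hub⟩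

private theorem RelA_homComp_aeval {m k e : ℕ} {F : Fin m → MvPolynomial (Fin k) ℂ}
    (he : 1 ≤ e) (hF : ∀ a, (F a).IsHomogeneous e) (b : MvPolynomial (Fin m) ℂ) (j : ℕ) :
    homogeneousComponent (e * j) (aeval F b) = aeval F (homogeneousComponent j b) := by
  have h1 : homogeneousComponent (e * j) (aeval F b) =
      ∑ i ∈ Finset.range (b.totalDegree + 1),
        homogeneousComponent (e * j) (aeval F (homogeneousComponent i b)) := by
    rw [← map_sum, ← map_sum, sum_homogeneousComponent]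
  have h2 : ∀ i ∈ Finset.range (b.totalDegree + 1),
      homogeneousComponent (e * j) (aeval F (homogeneousComponent i b)) =
        if i = j then aeval F (homogeneousComponent j b) else 0 := by
    intro i _
    have h3 : (aeval F (homogeneousComponent i b)) ∈ homogeneousSubmodule (Fin k) ℂ
        (e * i) := (homogeneousComponent_isHomogeneous i b).aeval F hF
    rw [homogeneousComponent_of_mem h3]
    by_cases h : i = j
    · rw [if_pos (by rw [h]), if_pos h, h]
    · rw [if_neg (fun h4 => h (Nat.eq_of_mul_eq_mul_left (by omega) h4).symm), if_neg h]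
  rw [h1, Finset.sum_congr rfl h2, Finset.sum_ite_eq']
  split_ifs with h
  · rfl
  · rw [homogeneousComponent_eq_zero _ _ (by
      rw [Finset.mem_range] at h
      omega), map_zero]

/-- Values of forms at multiples. -/
private theorem RelA_scale {m : ℕ} {A : Type} [CommRing A] [Algebra ℂ A]
    {G : MvPolynomial (Fin m) ℂ} {n : ℕ} (hG : G.IsHomogeneous n) (c : A) (x : Fin m → A) :
    aeval (fun i => c * x i) G = c ^ n * aeval x G := by
  rw [aeval_def, aeval_def, eval₂_eq, eval₂_eq, Finset.mul_sum]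
  refine Finset.sum_congr rfl fun m hm => ?_
  have h5 : ∑ i ∈ m.support, m i = n := by
    have := hG (mem_support_iff.1 hm)
    rw [Finsupp.weight_apply, Finsupp.sum] at this
    simpa using this
  simp only [mul_pow, Finset.prod_mul_distrib]
  rw [Finset.prod_pow_eq_pow_sum, h5]
  ring

/-- A form which vanishes on the affine chart is zero. -/
private theorem RelA_dehom {n k : ℕ} {R : MvPolynomial (Fin (n + 1)) ℂ} (hR : R.IsHomogeneous k)
    (h : aeval (Fin.cons (1 : MvPolynomial (Fin n) ℂ) X) R = 0) : R = 0 := by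
  have h1 : (X 0 : MvPolynomial (Fin (n + 1)) ℂ) * R = 0 := by
    refine MvPolynomial.funext fun c => ?_
    rw [map_mul, eval_X, map_zero]
    by_cases hc : c 0 = 0
    · rw [hc, zero_mul]
    · have h2 : c = fun i => c 0 * (c i / c 0) := by
        funext i
        rw [mul_div_cancel₀ _ hc]
      have h3 : eval c R = c 0 ^ k * eval (fun i => c i / c 0) R := by
        conv_lhs => rw [h2]
        exact RelA_scale (A := ℂ) hR (c 0) fun i => c i / c 0
      have h4 : eval (fun i => c i / c 0) R = 0 := by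
        have h5 := congrArg (eval fun i : Fin n => c i.succ / c 0) h
        rw [map_zero] at h5
        rw [← h5]
        have h6 : ∀ q : MvPolynomial (Fin (n + 1)) ℂ,
            eval (fun i : Fin n => c i.succ / c 0) (aeval (Fin.cons (1 : MvPolynomial (Fin n) ℂ) X) q) =
              eval (fun i => c i / c 0) q := by
          intro q
          induction q using MvPolynomial.induction_on with
          | C a => simp
          | add p q hp hq => rw [map_add, map_add, map_add, hp, hq]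
          | mul_X p i hp =>
            rw [map_mul, map_mul, map_mul, hp, aeval_X, eval_X]
            congr 1
            refine Fin.cases ?_ (fun i => ?_) i
            · rw [Fin.cons_zero, map_one, div_self hc]
            · rw [Fin.cons_succ, eval_X]
        exact (h6 R).symm
      rw [h3, h4, mul_zero, mul_zero]
  exact (mul_eq_zero.1 h1).resolve_left (X_ne_zero 0)

theorem no_indep {N M m s q n d : ℕ} {P : Ideal (MvPolynomial (Fin (M + 1)) ℂ)}
    {G : Fin m → MvPolynomial (Fin (M + 1)) ℂ} {I : Ideal (MvPolynomial (Fin (N + 1)) ℂ)}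
    {F : Fin s → Fin (M + 1) → MvPolynomial (Fin (N + 1)) ℂ} (hPp : P.IsPrime)
    (h : RamifiedMorphism q P G I ∅ ∅ F) (hTD : TD P (n + 2))
    {Q : Ideal (MvPolynomial (Fin (M + 1)) ℂ)} (hQp : Q.IsPrime) (hQ : Homog Q) (hPQ : P < Q)
    {g : MvPolynomial (Fin (M + 1)) ℂ} (hg : g.IsHomogeneous d) (hgQ : g ∉ Q)
    (𝔮 : Ideal (MvPolynomial (Fin (N + 1)) ℂ)) [𝔮.IsPrime] (h𝔮 : Homog 𝔮) (hI𝔮 : I ≤ 𝔮)
    (hX : ∃ i, X i ∉ 𝔮) {α : Fin s} {b : Fin (M + 1)} (hb : F α b ∉ 𝔮)
    (hQ𝔮 : ∀ T ∈ Q, aeval (F α) T ∈ 𝔮) (hg𝔮 : aeval (F α) g ∈ 𝔮) (f : Fin n → FunField 𝔮) :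
    ¬ AlgebraicIndependent ℂ f := by
  classical
  intro hf
  obtain ⟨i₀, hi₀⟩ := hX
  have hj₀ : coordFun 𝔮 i₀ ≠ 0 := Pool.Agent.H17R.coordFun_ne_zero_iff.2 hi₀
  obtain ⟨e, he⟩ := h.morphism.hom α
  -- the forms `A a`
  obtain ⟨A, hA⟩ : ∃ A : Fin (M + 1) → MvPolynomial (Fin (N + 1)) ℂ,
    A = fun a => X i₀ * F α a := ⟨_, rfl⟩
  have hAh : ∀ a, (A a).IsHomogeneous (e + 1) := by
    intro a
    have h1 := (isHomogeneous_X ℂ i₀).mul (he a)
    rw [hA, add_comm e 1]
    exact h1
  have hAs : ∀ (T : MvPolynomial (Fin (M + 1)) ℂ) (k : ℕ), T.IsHomogeneous k →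
      aeval A T = X i₀ ^ k * aeval (F α) T := by
    intro T k hT
    rw [hA]
    exact RelA_scale hT (X i₀) (F α)
  -- the ideal `Q'`
  obtain ⟨Q', hQ'⟩ : ∃ Q' : Ideal (MvPolynomial (Fin (M + 1)) ℂ),
    Q' = 𝔮.comap (aeval A : MvPolynomial (Fin (M + 1)) ℂ →ₐ[ℂ] MvPolynomial (Fin (N + 1)) ℂ) :=
      ⟨_, rfl⟩
  have hmem : ∀ T, T ∈ Q' ↔ aeval A T ∈ 𝔮 := by
    intro T
    rw [hQ', Ideal.mem_comap]
  have hQ'p : Q'.IsPrime := by
    rw [hQ']
    exact Ideal.IsPrime.comap _
  have hle : Q ≤ Q' := by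
    intro T hT
    rw [hmem, ← sum_homogeneousComponent T, map_sum]
    refine Ideal.sum_mem _ fun k _ => ?_
    rw [hAs _ k (homogeneousComponent_isHomogeneous k T)]
    exact 𝔮.mul_mem_left _ (hQ𝔮 _ (hQ T hT k))
  have hlt : Q < Q' := by
    refine lt_of_le_of_ne hle fun heq => hgQ ?_
    rw [heq, hmem, hAs g d hg]
    exact 𝔮.mul_mem_left _ hg𝔮
  have hTDQ : TD Q' n := (hTD.lt hPp hQp hPQ).lt hQp hQ'p hlt
  -- the function field
  obtain ⟨w, z, hz⟩ := RelA_basis 𝔮 hj₀
  have hne : ¬ (variety 𝔮 \ ∅ ⊆ (∅ : Set (PN N))) := by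
    intro hcon
    apply hi₀
    rw [← MvPolynomial.IsPrime.vanishingIdeal_zeroLocus (K := ℂ) 𝔮,
      MvPolynomial.mem_vanishingIdeal_iff]
    intro x hx
    rw [aeval_X]
    by_contra hx0
    have hx1 : x ≠ 0 := by
      rintro rfl
      exact hx0 rfl
    refine hcon (a := Projectivization.mk ℂ x hx1) ⟨fun R hR k hk => ?_, fun h => h⟩
    rw [Pool.Agent.H17.vanishesAt_mk_iff hk]
    have h1 := hx R hR
    rwa [MvPolynomial.aeval_eq_eval] at h1
  have halg := morph_algebraic h.homog h.closedB h.closedZ h.morphism h.finite 𝔮 h𝔮 hI𝔮 hne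
    ⟨z, hz⟩ hj₀ hb
  obtain ⟨J, hJ⟩ := Pool.Agent.H92.GT.exists_index halg hz
  have hnw : n ≤ w := by
    have h1 := hf.cardinalMk_le_trdeg
    rw [← hJ.cardinalMk_eq_trdeg, Cardinal.mk_fin, Cardinal.mk_fin] at h1
    exact_mod_cast h1
  obtain ⟨J', hJ'⟩ : ∃ J' : Fin n → Fin (M + 1), J' = fun i => J (Fin.castLE hnw i) := ⟨_, rfl⟩
  have hind : AlgebraicIndependent ℂ fun i => valAt 𝔮 i₀ (F α) (J' i) / valAt 𝔮 i₀ (F α) b := by
    rw [hJ']
    exact hJ.1.comp (Fin.castLE hnw) (Fin.castLE_injective _)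
  have hvb : valAt 𝔮 i₀ (F α) b ≠ 0 := fun h0 =>
    hb ((Pool.Agent.H5.DG.eval_ratio_zero_iff 𝔮 hj₀ (he b)).1 h0)
  have hr1 : ratio 𝔮 i₀ i₀ = 1 := Pool.Agent.H17R.ratio_self hj₀
  -- the coordinates
  obtain ⟨K, hK⟩ : ∃ K : Fin (n + 1) → Fin (M + 1), K = Fin.cons b J' := ⟨_, rfl⟩
  refine hTDQ (fun i => X (K i)) ?_
  rw [algebraicIndependent_iff]
  intro R hR
  have h1 : aeval (fun i => A (K i)) R ∈ 𝔮 := by
    have h2 : Ideal.Quotient.mkₐ ℂ Q' (aeval (fun i => X (K i)) R) = 0 := by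
      rw [← hR]
      exact (comp_aeval_apply (f := fun i => (X (K i) : MvPolynomial (Fin (M + 1)) ℂ))
        (Ideal.Quotient.mkₐ ℂ Q') R)
    have h3 : aeval (fun i => X (K i)) R ∈ Q' := Ideal.Quotient.eq_zero_iff_mem.1 h2
    rw [hmem, comp_aeval_apply] at h3
    simpa only [aeval_X] using h3
  have h2 : ∀ j, homogeneousComponent j R = 0 := by
    intro j
    have hRj := homogeneousComponent_isHomogeneous j R
    have h3 : aeval (fun i => A (K i)) (homogeneousComponent j R) ∈ 𝔮 := by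
      rw [← RelA_homComp_aeval (Nat.succ_pos e) (fun i => hAh (K i)) R j]
      exact h𝔮 _ h1 _
    have h4 := Pool.Agent.H5.DG.eval_ratio_mem 𝔮 h𝔮 hj₀ h3
    have h5 : aeval (fun i => ratio 𝔮 i i₀) (aeval (fun i => A (K i)) (homogeneousComponent j R)) =
        aeval (fun i => valAt 𝔮 i₀ (F α) b *
          (valAt 𝔮 i₀ (F α) (K i) / valAt 𝔮 i₀ (F α) b)) (homogeneousComponent j R) := by
      rw [comp_aeval_apply]
      congr 2
      funext i
      rw [mul_div_cancel₀ _ hvb, hA, map_mul, aeval_X, hr1, one_mul]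
      rfl
    rw [h5, RelA_scale hRj] at h4
    have h6 := (mul_eq_zero.1 h4).resolve_left (pow_ne_zero _ hvb)
    have h7 : aeval (fun i => valAt 𝔮 i₀ (F α) (K i) / valAt 𝔮 i₀ (F α) b)
        (homogeneousComponent j R) =
        aeval (fun i => valAt 𝔮 i₀ (F α) (J' i) / valAt 𝔮 i₀ (F α) b)
          (aeval (Fin.cons (1 : MvPolynomial (Fin n) ℂ) X) (homogeneousComponent j R)) := by
      rw [comp_aeval_apply]
      congr 2
      funext i
      rw [hK]
      refine Fin.cases ?_ (fun i => ?_) i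
      · rw [Fin.cons_zero, Fin.cons_zero, map_one, div_self hvb]
      · rw [Fin.cons_succ, Fin.cons_succ, aeval_X]
    rw [h7] at h6
    exact RelA_dehom hRj (hind.eq_zero_of_aeval_eq_zero _ h6)
  rw [← sum_homogeneousComponent R]
  exact Finset.sum_eq_zero fun j _ => h2 j

end Pool.Agent.H39.SY
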